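import Pool.Agent.Lib.MP_2eeeac_ag.FC

/-! Module AL of `MP_2eeeac_ag`: division points of algebraic points are algebraic. -/

namespace AlbCH

open WeierstrassCurve WeierstrassCurve.Affine
open scoped NNReal


theorem integrallyClosed_range {k L : Type*} [Field k] [IsAlgClosed k] [Field L] (ι : k →+* L) :
    IsIntegrallyClosedIn ι.range L := by
  rw [Subring.isIntegrallyClosedIn_iff]
  intro x hx
  let _ : Algebra k L := ι.toAlgebra
  obtain ⟨p, hp, hpx⟩ := hx
  have hk : IsIntegral k x := by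
    have hsurj : Function.Surjective (Polynomial.map ι.rangeRestrict) :=
      Polynomial.map_surjective _ ι.rangeRestrict_surjective
    have hl : p ∈ Polynomial.lifts ι.rangeRestrict := by
      obtain ⟨q, hq⟩ := hsurj p
      exact (Polynomial.mem_lifts _).mpr ⟨q, hq⟩
    obtain ⟨q, hq, _, hqm⟩ := Polynomial.lifts_and_natDegree_eq_and_monic hl hp
    refine ⟨q, hqm, ?_⟩
    rw [← hq, Polynomial.eval₂_map] at hpx
    exact hpx
  have h1 := IsAlgClosed.degree_eq_one_of_irreducible k (minpoly.irreducible hk)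
  obtain ⟨y, hy⟩ := minpoly.mem_range_of_degree_eq_one k x h1
  exact ⟨y, hy⟩

theorem algebraic_of_nsmul {k L : Type*} [Field k] [IsAlgClosed k] [CharZero k] [Field L]
    [DecidableEq k] [DecidableEq L] (ι : k →+* L) {A B : k} [(Crv A B).IsElliptic]
    (c : (Crv (ι A) (ι B)).Point) (a : (Crv A B).Point) (M : ℕ) (hM : M ≠ 0)
    (h : M • c = mapPt ι rfl rfl a) : ∃ c' : (Crv A B).Point, mapPt ι rfl rfl c' = c := by
  rcases c with _ | ⟨x, y, hxy⟩
  · exact ⟨0, rfl⟩
  have heq : y ^ 2 = x ^ 3 + ι A * x + ι B := (crv_nonsing.mp hxy).1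
  by_cases hx : x ∈ ι.range
  · obtain ⟨x', rfl⟩ := hx
    obtain ⟨y', hy'⟩ := IsAlgClosed.exists_pow_nat_eq (x' ^ 3 + A * x' + B) (n := 2) two_pos
    have h2 : y ^ 2 = (ι y') ^ 2 := by
      rw [heq, ← map_pow ι y', hy']; simp
    rcases sq_eq_sq_iff_eq_or_eq_neg.mp h2 with h3 | h3
    · subst h3
      exact ⟨.some x' y' (nonsing_of_eq hy'), rfl⟩
    · subst h3
      refine ⟨.some x' (-y') (nonsing_of_eq (by rw [neg_sq, hy'])), ?_⟩
      simp
  · exfalso
    have := integrallyClosed_range ι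
    obtain ⟨V, hV, hxV⟩ := Subring.exists_le_valuationSubring_of_isIntegrallyClosedIn hx
    have hle : ∀ a : k, V.valuation (ι a) ≤ 1 := fun a =>
      (V.valuation_le_one_iff _).mpr (hV ⟨a, rfl⟩)
    have hone : ∀ a : k, a ≠ 0 → V.valuation (ι a) = 1 := by
      intro a ha
      refine le_antisymm (hle a) ?_
      have h1 := hle a⁻¹
      rw [map_inv₀, map_inv₀] at h1
      have hne : V.valuation (ι a) ≠ 0 := by
        rw [Ne, map_eq_zero, map_eq_zero]; exact ha
      exact (inv_le_one₀ (zero_lt_iff.mpr hne)).mp h1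
    have hvx : 1 < V.valuation x := by
      rw [← not_le, V.valuation_le_one_iff]; exact hxV
    have hG : InG V.valuation (.some x y hxy : (Crv (ι A) (ι B)).Point) := hvx
    have hG2 := InG.nsmul V.valuation (hle A) (hle B) hG M
    have hMk : (M : k) ≠ 0 := Nat.cast_ne_zero.mpr hM
    have hvM : V.valuation ((M : ℕ) : L) = 1 := by
      rw [← map_natCast ι]; exact hone _ hMk
    have hlt := InG.zz_lt V.valuation (hle A) (hle B) hG
    have hz : V.valuation (zz (.some x y hxy : (Crv (ι A) (ι B)).Point)) ≠ 0 := by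
      rw [Ne, map_eq_zero, InG.zz_eq_zero V.valuation (hle A) (hle B) hG]
      exact fun h => by cases h
    have hzM := zz_nsmul_eq V.valuation (hle A) (hle B) hG M
      (by rw [hvM]; exact pow_lt_one₀ zero_le hlt (by norm_num))
    rw [h] at hG2 hzM
    rcases a with _ | ⟨xa, ya, ha⟩
    · have : (mapPt ι rfl rfl (Point.zero : (Crv A B).Point) : (Crv (ι A) (ι B)).Point) = 0 := rfl
      rw [this, zz_zero, map_zero, hvM, one_mul] at hzM
      exact hz hzM.symm
    · rw [mapPt_some] at hG2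
      exact absurd (hle xa) (not_le.mpr hG2)

end AlbCH
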