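import Pool.Agent.Lib.MP_2eeeac_ag.Defs

/-! Shared small definitions and lemmas for `MP_2eeeac_ag`. -/

namespace AlbCH

open WeierstrassCurve WeierstrassCurve.Affine
open scoped NNReal

/-- the variable `t` of `k(t)` in `Ω` -/
noncomputable abbrev TT (k : Type*) [Field k] : Om k := algebraMap (RatFunc k) (Om k) RatFunc.X

/-- `x` specialises to `c` at the place `π`. -/
def Place.Has {k : Type*} [Field k] (π : Place k) (x : Om k) (c : k) : Prop :=
  ∃ h : x ∈ π.ring, π.res ⟨x, h⟩ = c

/-- `e₁, e₂, e₃` are the roots of `x³ + A x + B`. -/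
structure Roots {F : Type*} [CommRing F] (A B e₁ e₂ e₃ : F) : Prop where
  sum : e₁ + e₂ + e₃ = 0
  hA : A = e₁ * e₂ + e₁ * e₃ + e₂ * e₃
  hB : B = -(e₁ * e₂ * e₃)

/-- The kernel of reduction: the point at infinity and the points with `v x > 1`. -/
def InG {K Γ₀ : Type*} [Field K] [LinearOrderedCommGroupWithZero Γ₀] (v : Valuation K Γ₀)
    {A B : K} : (Crv A B).Point → Prop
  | .zero => True
  | .some x _ _ => 1 < v x

/-- The parameter `z = x / y` (`0` at the point at infinity). -/
def zz {K : Type*} [Field K] {A B : K} : (Crv A B).Point → K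
  | .zero => 0
  | .some x y _ => x / y

/-- The coordinates of `P` are mapped by `ι` into `ℚ_p`. -/
def PRat {k : Type*} [Field k] {p : ℕ} [Fact p.Prime] (ι : k →+* PadicAlgCl p) {A B : k} :
    (Crv A B).Point → Prop
  | .zero => True
  | .some x y _ => (∃ q : ℚ_[p], algebraMap ℚ_[p] (PadicAlgCl p) q = ι x) ∧
      (∃ q : ℚ_[p], algebraMap ℚ_[p] (PadicAlgCl p) q = ι y)

section basic

variable {F K : Type*} [Field F] [Field K]

lemma crv_Δ {A B : F} : (Crv A B).Δ = -16 * (4 * A ^ 3 + 27 * B ^ 2) := by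
  simp [WeierstrassCurve.Δ, WeierstrassCurve.b₂, WeierstrassCurve.b₄, WeierstrassCurve.b₆,
    WeierstrassCurve.b₈]
  ring

lemma crv_isElliptic_iff {A B : F} :
    (Crv A B).IsElliptic ↔ -16 * (4 * A ^ 3 + 27 * B ^ 2) ≠ 0 := by
  rw [WeierstrassCurve.isElliptic_iff, crv_Δ, isUnit_iff_ne_zero]

lemma crv_isElliptic_map (f : F →+* K) {A B : F} [h : (Crv A B).IsElliptic] :
    (Crv (f A) (f B)).IsElliptic := by
  rw [crv_isElliptic_iff] at h ⊢
  intro h0
  apply h
  apply f.injective
  rw [map_zero, ← h0]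
  simp only [map_mul, map_neg, map_add, map_pow, map_ofNat]

/-- On an elliptic curve every point on the equation is nonsingular. -/
lemma nonsing_of_eq {A B : F} [(Crv A B).IsElliptic] {x y : F}
    (h : y ^ 2 = x ^ 3 + A * x + B) : (Crv A B).Nonsingular x y :=
  equation_iff_nonsingular.mp (crv_equation.mpr h)

/-- an elliptic curve in short Weierstrass form exists only in characteristic `≠ 2` -/
lemma two_ne_zero_of_isElliptic {A B : F} [h : (Crv A B).IsElliptic] : (2 : F) ≠ 0 := by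
  rw [crv_isElliptic_iff] at h
  intro h2
  apply h
  have : (-16 : F) = 2 * (-8) := by norm_num
  rw [this, h2]; ring

/-- the roots of an elliptic curve are distinct -/
lemma Roots.ne {A B e₁ e₂ e₃ : F} [h : (Crv A B).IsElliptic] (hR : Roots A B e₁ e₂ e₃) :
    e₁ ≠ e₂ ∧ e₁ ≠ e₃ ∧ e₂ ≠ e₃ := by
  rw [crv_isElliptic_iff] at h
  obtain ⟨hs, hA, hB⟩ := hR
  have he : e₃ = -e₁ - e₂ := by linear_combination hs
  subst he
  have key : -16 * (4 * A ^ 3 + 27 * B ^ 2)
      = 16 * ((e₁ - e₂) * (e₁ - (-e₁ - e₂)) * (e₂ - (-e₁ - e₂))) ^ 2 := by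
    subst hA hB; ring
  rw [key] at h
  refine ⟨?_, ?_, ?_⟩
  · intro h1; apply h; rw [h1]; ring
  · intro h1; apply h; rw [← h1]; ring
  · intro h1; apply h; rw [← h1]; ring

end basic

section om

variable {k : Type*} [Field k] {A B : k}

instance [(Crv A B).IsElliptic] : (CrvOm A B).IsElliptic :=
  crv_isElliptic_map (algebraMap k (Om k))

end om

end AlbCH
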