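import Pool.Agent.Lib.MP_2eeeac_ag.Basic

/-! Module EM : embeddings of `ℚ̄` into `ℚ̄_p` sending given numbers to units of `ℤ_p`. -/

namespace AlbCH

open Polynomial
open scoped NNReal nonZeroDivisors

namespace EM

/-- a nonconstant integer polynomial has prime divisors prime to any given number -/
theorem exists_prime_dvd (f : ℤ[X]) (hf : f.natDegree ≠ 0) (N : ℕ) (hN : 0 < N) :
    ∃ p : ℕ, p.Prime ∧ ¬ p ∣ N ∧ ∃ n : ℤ, (p : ℤ) ∣ f.eval n := by
  set c := f.eval 0 with hc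
  by_cases hc0 : c = 0
  · obtain ⟨p, hp, hpp⟩ := Nat.exists_infinite_primes (N + 1)
    exact ⟨p, hpp, fun h => absurd (Nat.le_of_dvd hN h) (by omega), 0, by rw [← hc, hc0]; exact dvd_zero _⟩
  · have hne : ∀ d : ℤ, f - C d ≠ 0 := by
      intro d h
      apply hf
      rw [sub_eq_zero.1 h, natDegree_C]
    have hq : (f - C c) * (f - C (-c)) * (f - C 0) ≠ 0 :=
      mul_ne_zero (mul_ne_zero (hne _) (hne _)) (hne _)
    have hinj : Function.Injective (fun t : ℤ => c * N * t) := by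
      intro a b h
      have : c * (N : ℤ) ≠ 0 := mul_ne_zero hc0 (by exact_mod_cast hN.ne')
      exact mul_left_cancel₀ this h
    have hinf : (Set.range (fun t : ℤ => c * N * t)).Infinite := Set.infinite_range_of_injective hinj
    obtain ⟨x, ⟨t, rfl⟩, hx⟩ : ∃ x ∈ Set.range (fun t : ℤ => c * N * t),
        ((f - C c) * (f - C (-c)) * (f - C 0)).eval x ≠ 0 := by
      by_contra hcon
      push Not at hcon
      apply hinf
      refine Set.Finite.subset ((((f - C c) * (f - C (-c)) * (f - C 0)).rootSet_finite ℤ)) ?_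
      intro x hx
      rw [mem_rootSet]
      exact ⟨hq, by simpa using hcon x hx⟩
    have hdiv : f.eval (c * N * t) = c * (1 + N * (t * f.divX.eval (c * N * t))) := by
      have h1 : f.eval (c * N * t) = f.divX.eval (c * N * t) * (c * N * t) + c := by
        have h2 := congrArg (fun g : ℤ[X] => g.eval (c * N * t)) f.divX_mul_X_add
        simp only [eval_add, eval_mul, eval_X, eval_C] at h2
        rw [← h2, hc, coeff_zero_eq_eval_zero]
      rw [h1]; ring
    set u : ℤ := 1 + N * (t * f.divX.eval (c * N * t)) with hu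
    simp only [eval_mul, eval_sub, eval_C, ne_eq, mul_eq_zero, not_or, sub_eq_zero] at hx
    obtain ⟨⟨hx1, hx2⟩, hx3⟩ := hx
    have hu1 : u ≠ 1 := by
      intro h; apply hx1; rw [hdiv, h, mul_one]
    have hu2 : u ≠ -1 := by
      intro h; apply hx2; rw [hdiv, h]; ring
    have hu3 : u.natAbs ≠ 1 := by
      intro h
      rcases Int.natAbs_eq u with h1 | h1
      · rw [h] at h1; exact hu1 (by simpa using h1)
      · rw [h] at h1; exact hu2 (by simpa using h1)
    obtain ⟨p, hp, hpu⟩ := Nat.exists_prime_and_dvd hu3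
    have hpu' : (p : ℤ) ∣ u := Int.natCast_dvd.2 hpu
    refine ⟨p, hp, ?_, c * N * t, ?_⟩
    · intro hpN
      have h1 : (p : ℤ) ∣ (N : ℤ) := by exact_mod_cast hpN
      have h2 : (p : ℤ) ∣ 1 := by
        have : (1 : ℤ) = u - N * (t * f.divX.eval (c * N * t)) := by rw [hu]; ring
        rw [this]
        exact dvd_sub hpu' (h1.mul_right _)
      have h3 : p ∣ 1 := by exact_mod_cast h2
      exact hp.one_lt.ne' (Nat.dvd_one.1 h3)
    · rw [hdiv]
      exact hpu'.mul_left c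

/-- clearing denominators -/
theorem exists_int_poly (g : ℚ[X]) :
    ∃ (n : ℤ) (f : ℤ[X]), n ≠ 0 ∧ f.map (algebraMap ℤ ℚ) = C (n : ℚ) * g := by
  obtain ⟨b, hb, h⟩ := IsLocalization.integerNormalization_spec (nonZeroDivisors ℤ) (S := ℚ) g
  refine ⟨b, _, nonZeroDivisors.ne_zero hb, h.trans ?_⟩
  rw [← Polynomial.smul_eq_C_mul, Int.cast_smul_eq_zsmul]

/-- a Bezout identity over `ℤ` for an irreducible polynomial -/
theorem exists_bezout (g : ℚ[X]) (hg : Irreducible g) :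
    ∃ (n D : ℤ) (f a b : ℤ[X]), n ≠ 0 ∧ D ≠ 0 ∧ f.map (algebraMap ℤ ℚ) = C (n : ℚ) * g ∧
      a * f + b * derivative f = C D := by
  obtain ⟨u, v, huv⟩ := hg.separable
  obtain ⟨n, f, hn, hf⟩ := exists_int_poly g
  obtain ⟨m, a, hm, ha⟩ := exists_int_poly u
  obtain ⟨l, b, hl, hb⟩ := exists_int_poly v
  refine ⟨n, n * m * l, f, C l * a, C m * b, hn, mul_ne_zero (mul_ne_zero hn hm) hl, hf, ?_⟩
  apply Polynomial.map_injective (algebraMap ℤ ℚ) (algebraMap ℤ ℚ).injective_int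
  rw [Polynomial.map_add, Polynomial.map_mul, Polynomial.map_mul, Polynomial.map_mul,
    Polynomial.map_mul, ← Polynomial.derivative_map, hf, ha, hb, derivative_mul, derivative_C,
    Polynomial.map_C, Polynomial.map_C, Polynomial.map_C]
  simp only [eq_intCast, Int.cast_mul, C_mul, zero_mul, zero_add]
  linear_combination (C (n : ℚ) * C (m : ℚ) * C (l : ℚ)) * huv

/-- Hensel -/
theorem exists_root (p : ℕ) [Fact p.Prime] (f a b : ℤ[X]) (D : ℤ)
    (h : a * f + b * derivative f = C D) (hD : ¬ (p : ℤ) ∣ D) (n : ℤ) (hn : (p : ℤ) ∣ f.eval n) :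
    ∃ z : ℤ_[p], aeval z f = 0 := by
  have hnd : ¬ (p : ℤ) ∣ (derivative f).eval n := by
    intro hd
    apply hD
    have h1 := congrArg (fun g : ℤ[X] => g.eval n) h
    simp only [eval_add, eval_mul, eval_C] at h1
    rw [← h1]
    exact dvd_add (hn.mul_left _) (hd.mul_left _)
  have e1 : ∀ g : ℤ[X], aeval (n : ℤ_[p]) g = ((g.eval n : ℤ) : ℤ_[p]) := by
    intro g
    have := Polynomial.aeval_algebraMap_apply ℤ_[p] n g
    simpa using this
  obtain ⟨z, hz, -⟩ := hensels_lemma (p := p) (F := f) (a := (n : ℤ_[p])) (by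
    rw [e1, e1]
    have h1 : ‖((f.eval n : ℤ) : ℤ_[p])‖ < 1 := (PadicInt.norm_int_lt_one_iff_dvd _).2 hn
    have h2 : ‖(((derivative f).eval n : ℤ) : ℤ_[p])‖ = 1 := by
      refine le_antisymm (PadicInt.norm_le_one _) ?_
      by_contra hlt
      exact hnd ((PadicInt.norm_int_lt_one_iff_dvd _).1 (not_le.1 hlt))
    rw [h2, one_pow]
    exact h1)
  exact ⟨z, hz⟩

theorem isInt (x : AlgebraicClosure ℚ) : IsIntegral ℚ x :=
  ((AlgebraicClosure.isAlgebraic ℚ).isAlgebraic x).isIntegral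

/-- every algebraic number has a nonzero multiple that is an algebraic integer -/
theorem exists_mul_integral (x : AlgebraicClosure ℚ) :
    ∃ m : ℤ, m ≠ 0 ∧ IsIntegral ℤ ((m : AlgebraicClosure ℚ) * x) := by
  obtain ⟨m, hm⟩ := IsIntegral.exists_multiple_integral_of_isLocalization (nonZeroDivisors ℤ)
    (Rₘ := ℚ) x (isInt x)
  refine ⟨m, nonZeroDivisors.ne_zero m.2, ?_⟩
  rw [Submonoid.smul_def, zsmul_eq_mul] at hm
  exact hm

theorem norm_intCast_eq_one (p : ℕ) [Fact p.Prime] (m : ℤ) (hm : ¬ (p : ℤ) ∣ m) :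
    ‖(m : ℚ_[p])‖ = 1 := by
  refine le_antisymm (Padic.norm_int_le_one m) ?_
  by_contra hlt
  exact hm (Padic.norm_intCast_lt_one_iff.1 (not_le.1 hlt))

theorem norm_le_one_of_isIntegral (p : ℕ) [Fact p.Prime] (q : ℚ_[p]) (hq : IsIntegral ℤ q) :
    ‖q‖ ≤ 1 := by
  have h1 : IsIntegral ℤ_[p] q := hq.tower_top
  obtain ⟨y, hy⟩ := IsIntegrallyClosed.isIntegral_iff.1 h1
  rw [← hy]
  exact y.2

theorem norm_le_one (p : ℕ) [Fact p.Prime] (φ : AlgebraicClosure ℚ →ₐ[ℚ] PadicAlgCl p)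
    (x : AlgebraicClosure ℚ) (q : ℚ_[p]) (hq : algebraMap ℚ_[p] (PadicAlgCl p) q = φ x)
    (m : ℤ) (hm : IsIntegral ℤ ((m : AlgebraicClosure ℚ) * x)) (hp : ¬ (p : ℤ) ∣ m) :
    ‖q‖ ≤ 1 := by
  have h1 : IsIntegral ℤ ((m : ℚ_[p]) * q) := by
    have h2 : IsIntegral ℤ (φ ((m : AlgebraicClosure ℚ) * x)) := by
      have := hm.map (φ.restrictScalars ℤ)
      simpa using this
    have h3 : φ ((m : AlgebraicClosure ℚ) * x) =
        algebraMap ℚ_[p] (PadicAlgCl p) ((m : ℚ_[p]) * q) := by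
      rw [map_mul, map_mul, hq, map_intCast, map_intCast]
    rw [h3] at h2
    exact (isIntegral_algHom_iff ((Algebra.ofId ℚ_[p] (PadicAlgCl p)).restrictScalars ℤ)
      (algebraMap ℚ_[p] (PadicAlgCl p)).injective).1 h2
  have h2 := norm_le_one_of_isIntegral p _ h1
  rwa [norm_mul, norm_intCast_eq_one p m hp, one_mul] at h2

end EM

open EM in
/-- finitely many algebraic numbers can be sent into `ℤ_p`, the nonzero ones to units -/
theorem exists_embedding (S : Finset (AlgebraicClosure ℚ)) (N₀ : ℕ) :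
    ∃ (p : ℕ) (_ : Fact p.Prime) (ι : AlgebraicClosure ℚ →+* PadicAlgCl p), N₀ < p ∧
      ∀ s ∈ S, (∃ q : ℚ_[p], algebraMap ℚ_[p] (PadicAlgCl p) q = ι s) ∧
        (s ≠ 0 → ‖ι s‖ = 1) := by
  classical
  -- a primitive element
  have hfin : FiniteDimensional ℚ (IntermediateField.adjoin ℚ (S : Set (AlgebraicClosure ℚ))) :=
    IntermediateField.finiteDimensional_adjoin (fun x _ => isInt x)
  obtain ⟨θ, hθ⟩ := Field.exists_primitive_element ℚ
    (IntermediateField.adjoin ℚ (S : Set (AlgebraicClosure ℚ)))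
  have hrep : ∀ s ∈ S, ∃ g : ℚ[X], aeval (θ : AlgebraicClosure ℚ) g = s := by
    intro s hs
    have h1 : (⟨s, IntermediateField.subset_adjoin _ _ hs⟩ :
        IntermediateField.adjoin ℚ (S : Set (AlgebraicClosure ℚ))) ∈
        IntermediateField.adjoin ℚ {θ} := by
      rw [hθ]; trivial
    have h2 := IntermediateField.adjoin_simple_toSubalgebra_of_isAlgebraic
      (Algebra.IsAlgebraic.isAlgebraic (R := ℚ) θ)
    rw [← IntermediateField.mem_toSubalgebra, h2, Algebra.adjoin_singleton_eq_range_aeval] at h1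
    obtain ⟨g, hg⟩ := h1
    refine ⟨g, ?_⟩
    have h3 := congrArg (fun t : IntermediateField.adjoin ℚ (S : Set (AlgebraicClosure ℚ)) =>
      (t : AlgebraicClosure ℚ)) hg
    simp only at h3
    rw [← h3]
    exact Polynomial.aeval_algebraMap_apply (AlgebraicClosure ℚ) θ g
  set θ' : AlgebraicClosure ℚ := (θ : AlgebraicClosure ℚ) with hθ'
  have hint : IsIntegral ℚ θ' := isInt θ'
  obtain ⟨n, D, f, a, b, hn, hD, hf, hab⟩ := exists_bezout (minpoly ℚ θ') (minpoly.irreducible hint)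
  have hfdeg : f.natDegree ≠ 0 := by
    have h1 : (f.map (algebraMap ℤ ℚ)).natDegree = (minpoly ℚ θ').natDegree := by
      rw [hf, natDegree_C_mul (by exact_mod_cast hn)]
    rw [natDegree_map_eq_of_injective (algebraMap ℤ ℚ).injective_int] at h1
    rw [h1]
    exact (minpoly.natDegree_pos hint).ne'
  choose m hm0 hm using exists_mul_integral
  set N : ℕ := N₀.factorial * D.natAbs * (∏ s ∈ S, ((m s).natAbs * (m s⁻¹).natAbs)) with hN
  have hN0 : 0 < N := by
    rw [hN]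
    refine Nat.mul_pos (Nat.mul_pos (Nat.factorial_pos _) (Int.natAbs_pos.2 hD)) ?_
    exact Finset.prod_pos fun s _ => Nat.mul_pos (Int.natAbs_pos.2 (hm0 _))
      (Int.natAbs_pos.2 (hm0 _))
  obtain ⟨p, hp, hpN, k, hk⟩ := exists_prime_dvd f hfdeg N hN0
  have : Fact p.Prime := ⟨hp⟩
  have hpD : ¬ (p : ℤ) ∣ D := by
    intro h
    apply hpN
    rw [hN]
    exact ((Int.natCast_dvd.1 h).mul_left _).mul_right _
  have hpm : ∀ s ∈ S, ¬ (p : ℤ) ∣ m s ∧ ¬ (p : ℤ) ∣ m s⁻¹ := by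
    intro s hs
    have h1 : (m s).natAbs * (m s⁻¹).natAbs ∣ N := by
      rw [hN]
      exact (Finset.dvd_prod_of_mem _ hs).mul_left _
    constructor
    · intro h
      exact hpN (((Int.natCast_dvd.1 h).mul_right _).trans h1)
    · intro h
      exact hpN (((Int.natCast_dvd.1 h).mul_left _).trans h1)
  have hpN₀ : N₀ < p := by
    by_contra hle
    apply hpN
    rw [hN]
    exact (((hp.dvd_factorial).2 (not_lt.1 hle)).mul_right _).mul_right _
  obtain ⟨z, hz⟩ := exists_root p f a b D hab hpD k hk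
  have hzq : aeval (z : ℚ_[p]) (minpoly ℚ θ') = 0 := by
    have h1 : aeval (z : ℚ_[p]) f = 0 := by
      have := Polynomial.aeval_algebraMap_apply ℚ_[p] z f
      rw [hz, map_zero] at this
      exact this
    have h2 : aeval (z : ℚ_[p]) (f.map (algebraMap ℤ ℚ)) = 0 := by
      rw [Polynomial.aeval_map_algebraMap]
      exact h1
    rw [hf, map_mul, aeval_C, mul_eq_zero] at h2
    rcases h2 with h2 | h2
    · exfalso
      rw [map_eq_zero] at h2
      exact hn (by exact_mod_cast h2)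
    · exact h2
  have hzP : aeval (algebraMap ℚ_[p] (PadicAlgCl p) z) (minpoly ℚ θ') = 0 := by
    rw [Polynomial.aeval_algebraMap_apply, hzq, map_zero]
  obtain ⟨φ, hφ⟩ := IntermediateField.exists_algHom_of_splits_of_aeval (F := ℚ)
    (E := AlgebraicClosure ℚ) (K := PadicAlgCl p)
    (fun x => ⟨isInt x, IsAlgClosed.splits _⟩) hzP
  refine ⟨p, ⟨hp⟩, φ.toRingHom, hpN₀, ?_⟩
  intro s hs
  obtain ⟨g, hg⟩ := hrep s hs
  have hq : algebraMap ℚ_[p] (PadicAlgCl p) (aeval (z : ℚ_[p]) g) = φ s := by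
    have e1 : φ (aeval θ' g) = aeval (φ θ') g := (Polynomial.aeval_algHom_apply φ θ' g).symm
    rw [← hg, e1, hφ]
    exact (Polynomial.aeval_algebraMap_apply (PadicAlgCl p) (z : ℚ_[p]) g).symm
  refine ⟨⟨_, hq⟩, fun hs0 => ?_⟩
  have h1 := norm_le_one p φ s _ hq (m s) (hm s) (hpm s hs).1
  have hq' : algebraMap ℚ_[p] (PadicAlgCl p) (aeval (z : ℚ_[p]) g)⁻¹ = φ s⁻¹ := by
    rw [map_inv₀, map_inv₀, hq]
  have h2 := norm_le_one p φ s⁻¹ _ hq' (m s⁻¹) (hm s⁻¹) (hpm s hs).2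
  have h0 : aeval (z : ℚ_[p]) g ≠ 0 := by
    intro h
    rw [h, map_zero] at hq
    exact hs0 ((map_eq_zero φ).1 hq.symm)
  change ‖φ s‖ = 1
  rw [← hq, norm_algebraMap']
  refine le_antisymm h1 ?_
  rw [norm_inv] at h2
  exact (inv_le_one₀ (norm_pos_iff.2 h0)).1 h2

end AlbCH
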