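import Pool.Agent.Lib.MP_2eeeac_ag.FC

/-! Module IA: independence. -/

namespace AlbCH

open WeierstrassCurve WeierstrassCurve.Affine
open scoped NNReal

/-- Adding a point of order two. -/
theorem add_two_torsion {K : Type*} [Field K] [DecidableEq K] {A B x y e : K}
    (h : (Crv A B).Nonsingular x y) (hT : (Crv A B).Nonsingular e 0) (hxe : x ≠ e) :
    ∃ (x' y' : K) (h' : (Crv A B).Nonsingular x' y'),
      (.some x y h : (Crv A B).Point) + .some e 0 hT = .some x' y' h' ∧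
      x' = e + (3 * e ^ 2 + A) / (x - e) := by
  have hne : ¬(x = e ∧ y = (Crv A B).negY e 0) := fun hh => hxe hh.1
  refine ⟨_, _, nonsingular_add h hT hne, Point.add_some hne, ?_⟩
  have h1 := (crv_nonsing.1 h).1
  have h2 := (crv_nonsing.1 hT).1
  have hsub : x - e ≠ 0 := sub_ne_zero.2 hxe
  rw [slope_of_X_ne hxe]
  simp only [addX, zero_mul, add_zero, sub_zero]
  have h3 : B = -(e ^ 3 + A * e) := by linear_combination -h2
  rw [div_pow, h1, h3]
  field_simp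
  ring

theorem exists_conj {p : ℕ} [Fact p.Prime] (y c : PadicAlgCl p) (hc : y ^ 2 = c)
    (hcr : ∃ q : ℚ_[p], algebraMap ℚ_[p] (PadicAlgCl p) q = c)
    (hy : ∀ q : ℚ_[p], algebraMap ℚ_[p] (PadicAlgCl p) q ≠ y) :
    ∃ τ : PadicAlgCl p ≃ₐ[ℚ_[p]] PadicAlgCl p, τ y = -y := by
  have h1 : ¬ ∀ τ : PadicAlgCl p ≃ₐ[ℚ_[p]] PadicAlgCl p, τ y = y := by
    intro hall
    have := (InfiniteGalois.mem_range_algebraMap_iff_fixed (k := ℚ_[p]) (K := PadicAlgCl p) y).2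
      hall
    obtain ⟨q, hq⟩ := this
    exact hy q hq
  push Not at h1
  obtain ⟨τ, hτ⟩ := h1
  refine ⟨τ, ?_⟩
  obtain ⟨q, hq⟩ := hcr
  have h2 : (τ y) ^ 2 = y ^ 2 := by
    rw [← map_pow, hc, ← hq, τ.commutes]
  rcases sq_eq_sq_iff_eq_or_eq_neg.1 h2 with h3 | h3
  · exact absurd h3 hτ
  · exact h3

theorem mapPt_comm_of_mem_closure {p : ℕ} [Fact p.Prime] {k : Type*} [Field k] [DecidableEq k]
    [DecidableEq (PadicAlgCl p)]
    (ι : k →+* PadicAlgCl p) {A B : k}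
    (τ : PadicAlgCl p ≃ₐ[ℚ_[p]] PadicAlgCl p) (hA : (τ : PadicAlgCl p →+* PadicAlgCl p) (ι A) = ι A)
    (hB : (τ : PadicAlgCl p →+* PadicAlgCl p) (ι B) = ι B)
    (F : Set (Crv A B).Point) (hF : ∀ P ∈ F, PRat ι P) (P : (Crv A B).Point)
    (hP : P ∈ AddSubgroup.closure F) :
    mapPt (τ : PadicAlgCl p →+* PadicAlgCl p) hA hB (mapPt ι rfl rfl P) = mapPt ι rfl rfl P := by
  induction hP using AddSubgroup.closure_induction with
  | mem Q hQ =>
    have h1 := hF Q hQ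
    rcases Q with _ | ⟨x, y, h⟩
    · rfl
    · obtain ⟨⟨q, hq⟩, ⟨r, hr⟩⟩ := h1
      rw [mapPt_some, mapPt_some]
      have e1 : (τ : PadicAlgCl p →+* PadicAlgCl p) (ι x) = ι x := by
        rw [← hq]; exact τ.commutes q
      have e2 : (τ : PadicAlgCl p →+* PadicAlgCl p) (ι y) = ι y := by
        rw [← hr]; exact τ.commutes r
      simp only [Point.some.injEq]
      exact ⟨e1, e2⟩
  | zero => rw [map_zero, map_zero]
  | add Q R _ _ hQ hR => rw [map_add, map_add, hQ, hR]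
  | neg Q _ hQ => rw [map_neg, map_neg, hQ]

theorem indep {p : ℕ} [Fact p.Prime] (hp : p ≠ 2) {k : Type*} [Field k] [DecidableEq k]
    (ι : k →+* PadicAlgCl p) {A B e : k}
    (hAr : ∃ q : ℚ_[p], algebraMap ℚ_[p] (PadicAlgCl p) q = ι A)
    (hBr : ∃ q : ℚ_[p], algebraMap ℚ_[p] (PadicAlgCl p) q = ι B)
    (her : ∃ q : ℚ_[p], algebraMap ℚ_[p] (PadicAlgCl p) q = ι e)
    (hA : ‖ι A‖ ≤ 1) (hB : ‖ι B‖ ≤ 1) (he : ‖ι e‖ ≤ 1) (hroot : e ^ 3 + A * e + B = 0)
    (hd : ‖ι (3 * e ^ 2 + A)‖ = 1) (F : Set (Crv A B).Point) (hF : ∀ P ∈ F, PRat ι P)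
    {x y : k} (h : (Crv A B).Nonsingular x y)
    (hx : ∃ q : ℚ_[p], algebraMap ℚ_[p] (PadicAlgCl p) q = ι x)
    (hxe : ‖ι x - ι e‖ = (p : ℝ)⁻¹) (n : ℤ) (hn : n ≠ 0) :
    n • (.some x y h : (Crv A B).Point) ∉ AddSubgroup.closure F := by
  classical
  intro hmem
  have hp1 : (1 : ℝ) < p := by exact_mod_cast (Fact.out : p.Prime).one_lt
  have hp0 : (0 : ℝ) < p := by linarith
  have hpinv : (p : ℝ)⁻¹ < 1 := inv_lt_one_of_one_lt₀ hp1
  have hpinv0 : (0 : ℝ) < (p : ℝ)⁻¹ := inv_pos.2 hp0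
  set v : Valuation (PadicAlgCl p) ℝ≥0 := NormedField.valuation with hv
  have hvn : ∀ z : PadicAlgCl p, ((v z : ℝ≥0) : ℝ) = ‖z‖ := fun z => rfl
  have hle : ∀ z : PadicAlgCl p, ∀ r : ℝ≥0, v z ≤ r ↔ ‖z‖ ≤ r := fun z r => by
    rw [← NNReal.coe_le_coe, hvn]
  have hvA : v (ι A) ≤ 1 := by rw [hle]; exact hA
  have hvB : v (ι B) ≤ 1 := by rw [hle]; exact hB
  have hxe0 : ι x - ι e ≠ 0 := by
    intro h0
    rw [h0, norm_zero] at hxe
    exact hpinv0.ne hxe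
  have hxe1 : ι x ≠ ι e := fun h0 => hxe0 (sub_eq_zero.2 h0)
  have hx1 : ‖ι x‖ ≤ 1 := by
    have h1 : ι x = (ι x - ι e) + ι e := by ring
    rw [h1]
    refine (PadicAlgCl.isNonarchimedean p _ _).trans (max_le ?_ he)
    rw [hxe]; exact hpinv.le
  -- the points
  have hd0 : ι (3 * e ^ 2 + A) ≠ 0 := by
    intro h0
    rw [h0, norm_zero] at hd
    exact zero_ne_one hd
  have hmapd : ι (3 * e ^ 2 + A) = 3 * (ι e) ^ 2 + ι A := by
    rw [map_add, map_mul, map_pow, map_ofNat]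
  have hrootι : (ι e) ^ 3 + ι A * ι e + ι B = 0 := by
    rw [← map_pow, ← map_mul, ← map_add, ← map_add, hroot, map_zero]
  have hTn : (Crv (ι A) (ι B)).Nonsingular (ι e) 0 := by
    rw [crv_nonsing]
    refine ⟨by rw [hrootι]; ring, Or.inl ?_⟩
    rw [← hmapd]
    exact hd0.symm
  have hbn : (Crv (ι A) (ι B)).Nonsingular (ι x) (ι y) := nonsing_map ι rfl rfl h
  set b : (Crv (ι A) (ι B)).Point := .some (ι x) (ι y) hbn with hb
  set T : (Crv (ι A) (ι B)).Point := .some (ι e) 0 hTn with hT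
  have hbmap : mapPt ι rfl rfl (.some x y h : (Crv A B).Point) = b := rfl
  obtain ⟨x', y', h', hsum, hx'⟩ := add_two_torsion hbn hTn hxe1
  have hT2 : (2 : ℤ) • T = 0 := by
    rw [two_zsmul]
    exact Point.add_self_of_Y_eq (by simp [negY])
  -- the norm of x'
  have hnx' : ‖x'‖ = p := by
    have h1 : ‖(3 * (ι e) ^ 2 + ι A) / (ι x - ι e)‖ = p := by
      rw [norm_div, ← hmapd, hd, hxe, one_div, inv_inv]
    rw [hx']
    have h2 : ‖ι e‖ < ‖(3 * (ι e) ^ 2 + ι A) / (ι x - ι e)‖ := by rw [h1]; linarith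
    rw [add_comm, IsUltrametricDist.norm_add_eq_max_of_norm_ne_norm h2.ne', max_eq_left h2.le, h1]
  have hG : InG v (b + T) := by
    rw [hsum]
    change 1 < v x'
    rw [← NNReal.coe_lt_coe, hvn, hnx']
    exact hp1
  have hz2 : v (zz (b + T)) ^ 2 * v x' = 1 := by
    have h1 := hG
    rw [hsum] at h1 ⊢
    exact InG.zz_x v hvA hvB h1
  have hz2' : ((v (zz (b + T)) : ℝ≥0) : ℝ) ^ 2 = (p : ℝ)⁻¹ := by
    have h1 := congrArg (fun r : ℝ≥0 => (r : ℝ)) hz2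
    simp only [NNReal.coe_mul, NNReal.coe_pow, NNReal.coe_one] at h1
    rw [hvn x', hnx'] at h1
    exact eq_inv_of_mul_eq_one_left h1
  have hznat : ∀ m : ℕ, ‖(m : PadicAlgCl p)‖ = ‖(m : ℚ_[p])‖ := by
    intro m
    rw [← map_natCast (algebraMap ℚ_[p] (PadicAlgCl p)), PadicAlgCl.norm_extends]
  have hvp : v (p : PadicAlgCl p) = (p : ℝ≥0)⁻¹ := by
    apply NNReal.coe_injective
    rw [hvn, hznat, Padic.norm_p, NNReal.coe_inv, NNReal.coe_natCast]
  have hord : ∀ m : ℕ, m ≠ 0 → m • (b + T) ≠ 0 := by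
    intro m hm h0
    have h1 := zz_nsmul_prime v hvA hvB hG p Fact.out ?_ ?_ ?_ m hm
    · rw [h0, zz_zero, map_zero, eq_comm, mul_eq_zero] at h1
      rcases h1 with h1 | h1
      · rw [map_eq_zero] at h1
        exact hm (Nat.cast_eq_zero.1 h1)
      · rw [h1] at hz2'
        norm_num at hz2'
        exact hp0.ne hz2'
    · rw [← NNReal.coe_lt_coe, NNReal.coe_pow]
      have h2 : ((v (zz (b + T)) : ℝ≥0) : ℝ) ^ 4 = (p : ℝ)⁻¹ ^ 2 := by
        rw [← hz2']; ring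
      rw [h2, hvp, NNReal.coe_inv, NNReal.coe_natCast]
      nlinarith
    · rw [hvp, ← NNReal.coe_le_coe, NNReal.coe_inv, NNReal.coe_natCast, NNReal.coe_one]
      exact hpinv.le
    · intro j hj
      apply NNReal.coe_injective
      rw [hvn, hznat, NNReal.coe_one, Padic.norm_natCast_eq_one_iff]
      exact hj.symm
  -- the norm of y
  have hy2 : (ι y) ^ 2 = (ι x - ι e) * ((ι x) ^ 2 + ι e * ι x + (ι e) ^ 2 + ι A) := by
    have h1 := (crv_nonsing.1 hbn).1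
    rw [h1]
    linear_combination hrootι
  have hny : ‖ι y‖ ^ 2 = (p : ℝ)⁻¹ := by
    rw [← norm_pow, hy2, norm_mul, hxe]
    have h1 : (ι x) ^ 2 + ι e * ι x + (ι e) ^ 2 + ι A =
        (ι x - ι e) * (ι x + 2 * ι e) + (3 * (ι e) ^ 2 + ι A) := by ring
    have h2 : ‖(ι x - ι e) * (ι x + 2 * ι e)‖ < ‖3 * (ι e) ^ 2 + ι A‖ := by
      rw [norm_mul, hxe, ← hmapd, hd]
      have h3 : ‖ι x + 2 * ι e‖ ≤ 1 := by
        refine (PadicAlgCl.isNonarchimedean p _ _).trans (max_le hx1 ?_)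
        rw [norm_mul]
        have h4 : ‖(2 : PadicAlgCl p)‖ ≤ 1 := by
          have h5 := hznat 2
          rw [Nat.cast_ofNat, Nat.cast_ofNat] at h5
          rw [h5]
          exact_mod_cast Padic.norm_int_le_one (p := p) 2
        exact mul_le_one₀ h4 (norm_nonneg _) he
      nlinarith [norm_nonneg (ι x + 2 * ι e)]
    rw [h1, IsUltrametricDist.norm_add_eq_max_of_norm_ne_norm h2.ne, max_eq_right h2.le, ← hmapd,
      hd, mul_one]
  have hyQ : ∀ q : ℚ_[p], algebraMap ℚ_[p] (PadicAlgCl p) q ≠ ι y := by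
    intro q hq
    rw [← hq, PadicAlgCl.norm_extends] at hny
    have hq0 : q ≠ 0 := by
      rintro rfl
      rw [norm_zero] at hny
      norm_num at hny
      exact hp0.ne hny
    rw [Padic.norm_eq_zpow_neg_valuation hq0, ← zpow_natCast, ← zpow_mul, ← zpow_neg_one] at hny
    have h1 := zpow_right_injective₀ hp0 hp1.ne' hny
    push_cast at h1
    omega
  have hy2r : ∃ q : ℚ_[p], algebraMap ℚ_[p] (PadicAlgCl p) q = (ι y) ^ 2 := by
    obtain ⟨a, ha⟩ := hAr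
    obtain ⟨b', hb'⟩ := hBr
    obtain ⟨x0, hx0⟩ := hx
    refine ⟨x0 ^ 3 + a * x0 + b', ?_⟩
    rw [(crv_nonsing.1 hbn).1, map_add, map_add, map_pow, map_mul, ha, hb', hx0]
  obtain ⟨τ, hτ⟩ := exists_conj (ι y) ((ι y) ^ 2) rfl hy2r hyQ
  have hτA : (τ : PadicAlgCl p →+* PadicAlgCl p) (ι A) = ι A := by
    obtain ⟨a, ha⟩ := hAr
    rw [← ha]; exact τ.commutes a
  have hτB : (τ : PadicAlgCl p →+* PadicAlgCl p) (ι B) = ι B := by
    obtain ⟨a, ha⟩ := hBr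
    rw [← ha]; exact τ.commutes a
  have hτx : (τ : PadicAlgCl p →+* PadicAlgCl p) (ι x) = ι x := by
    obtain ⟨a, ha⟩ := hx
    rw [← ha]; exact τ.commutes a
  have h1 := mapPt_comm_of_mem_closure ι τ hτA hτB F hF _ hmem
  rw [map_zsmul, map_zsmul, hbmap] at h1
  have h2 : mapPt (τ : PadicAlgCl p →+* PadicAlgCl p) hτA hτB b = -b := by
    rw [hb, mapPt_some, Point.neg_some]
    simp only [Point.some.injEq]
    refine ⟨hτx, ?_⟩
    simp only [negY, zero_mul, sub_zero]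
    exact hτ
  rw [h2] at h1
  have h3 : (2 * n) • b = 0 := by
    have h4 : n • b + n • b = 0 := by
      nth_rw 1 [← h1]
      rw [← zsmul_add, neg_add_cancel, zsmul_zero]
    rw [two_mul, add_zsmul]
    exact h4
  have h4 : (2 * n) • (b + T) = 0 := by
    rw [zsmul_add, h3, zero_add, mul_comm, mul_zsmul, hT2, zsmul_zero]
  have h5 : ((2 * n).natAbs : ℤ) • (b + T) = 0 := by
    rcases Int.natAbs_eq (2 * n) with h6 | h6
    · rw [← h6]; exact h4
    · have h7 : ((2 * n).natAbs : ℤ) = -(2 * n) := by omega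
      rw [h7, neg_zsmul, h4, neg_zero]
  rw [natCast_zsmul] at h5
  exact hord _ (by omega) h5

end AlbCH
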