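import Pool.Agent.Lib.MP_2eeeac_ag.Basic

/-!
# Module FA : the kernel of reduction is a subgroup (helper37)
-/

set_option autoImplicit false
set_option linter.unusedSectionVars false

namespace AlbCH

open WeierstrassCurve WeierstrassCurve.Affine

section line

variable {K : Type*} [Field K] [DecidableEq K] {A B : K}

/-- the line through two points, and its third intersection point -/
theorem exists_line {x₁ y₁ x₂ y₂ : K} (h₁ : (Crv A B).Nonsingular x₁ y₁)
    (h₂ : (Crv A B).Nonsingular x₂ y₂) (hxy : ¬(x₁ = x₂ ∧ y₁ = -y₂)) :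
    ∃ (l m x₃ y₃ : K) (h₃ : (Crv A B).Nonsingular x₃ (-y₃)),
      (.some x₁ y₁ h₁ : (Crv A B).Point) + .some x₂ y₂ h₂ = .some x₃ (-y₃) h₃ ∧
      y₁ = l * x₁ + m ∧ y₂ = l * x₂ + m ∧ y₃ = l * x₃ + m ∧
      x₁ + x₂ + x₃ = l ^ 2 ∧ x₁ * x₂ + x₁ * x₃ + x₂ * x₃ = A - 2 * l * m ∧
      x₁ * x₂ * x₃ = m ^ 2 - B := by
  have hxy' : ¬(x₁ = x₂ ∧ y₁ = (Crv A B).negY x₂ y₂) := by
    simpa [negY] using hxy
  set l := (Crv A B).slope x₁ x₂ y₁ y₂ with hl
  have hslope := addPolynomial_slope h₁.1 h₂.1 hxy'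
  rw [addPolynomial_eq, neg_inj, Cubic.prod_X_sub_C_eq, Cubic.toPoly_injective] at hslope
  rw [← hl] at hslope
  have hb := congrArg Cubic.b hslope
  have hc := congrArg Cubic.c hslope
  have hd := congrArg Cubic.d hslope
  simp only at hb hc hd
  have hy2 : y₂ = l * x₂ + (y₁ - l * x₁) := by
    by_cases hx : x₁ = x₂
    · have hy : y₁ ≠ (Crv A B).negY x₂ y₂ := fun h => hxy' ⟨hx, h⟩
      have := Y_eq_of_Y_ne h₁.1 h₂.1 hx hy
      rw [this, hx]; ring
    · rw [hl, slope_of_X_ne hx]
      have : x₁ - x₂ ≠ 0 := sub_ne_zero.2 hx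
      field_simp
      ring
  have hadd := Point.add_some hxy' (h₁ := h₁) (h₂ := h₂)
  have hns := nonsingular_add h₁ h₂ hxy'
  have hY : (Crv A B).addY x₁ x₂ y₁ l = -((Crv A B).negAddY x₁ x₂ y₁ l) := by
    simp [addY, negY]
  have hns' : (Crv A B).Nonsingular ((Crv A B).addX x₁ x₂ l) (-((Crv A B).negAddY x₁ x₂ y₁ l)) := by
    rw [← hY]; exact hns
  refine ⟨l, y₁ - l * x₁, (Crv A B).addX x₁ x₂ l, (Crv A B).negAddY x₁ x₂ y₁ l, hns', ?_,
    by ring, hy2, ?_, ?_, ?_, ?_⟩
  · rw [hadd, Point.some.injEq]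
    exact ⟨rfl, hY⟩
  · rw [negAddY]; ring
  · linear_combination hb
  · linear_combination -hc
  · linear_combination hd

end line

section formal

variable {K Γ₀ : Type*} [Field K] [DecidableEq K] [LinearOrderedCommGroupWithZero Γ₀]
  (v : Valuation K Γ₀) {A B : K}

theorem val_natCast_le_one (n : ℕ) : v (n : K) ≤ 1 := by
  induction n with
  | zero => rw [Nat.cast_zero, map_zero]; exact zero_le_one
  | succ n ih =>
    rw [Nat.cast_succ]
    exact (v.map_add _ _).trans (max_le ih v.map_one.le)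

theorem val_two_le_one : v (2 : K) ≤ 1 := by
  have := val_natCast_le_one v 2
  rwa [Nat.cast_ofNat] at this

theorem val_three_le_one : v (3 : K) ≤ 1 := by
  have := val_natCast_le_one v 3
  rwa [Nat.cast_ofNat] at this

omit [DecidableEq K] in
theorem inG_zero : InG v (0 : (Crv A B).Point) := trivial

omit [DecidableEq K] in
theorem InG.neg {P : (Crv A B).Point} (h : InG v P) : InG v (-P) := by
  cases P with
  | zero => exact h
  | some x y hn => exact h

omit [DecidableEq K] in
theorem zz_neg (P : (Crv A B).Point) : zz (-P) = -zz P := by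
  cases P with
  | zero => exact neg_zero.symm
  | some x y hn =>
    change x / ((Crv A B).negY x y) = -(x / y)
    simp [negY, div_neg]

omit [DecidableEq K] in
theorem zz_zero : zz (0 : (Crv A B).Point) = 0 := rfl

omit [DecidableEq K] in
theorem val_y_sq {x y : K} (hA : v A ≤ 1) (hB : v B ≤ 1) (h : y ^ 2 = x ^ 3 + A * x + B)
    (hx : 1 < v x) : v y ^ 2 = v x ^ 3 := by
  have h1 : v (A * x + B) < v (x ^ 3) := by
    have hx1 : v x < v x ^ 3 := by
      calc v x = v x ^ 1 := (pow_one _).symm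
        _ < v x ^ 3 := pow_lt_pow_right₀ hx (by norm_num)
    refine v.map_add_lt ?_ ?_
    · rw [map_mul, map_pow]
      exact (mul_le_of_le_one_left' hA).trans_lt hx1
    · rw [map_pow]
      exact hB.trans_lt (hx.trans hx1)
  rw [← map_pow, h, add_assoc, Valuation.map_add_eq_of_lt_left v h1, map_pow]

omit [DecidableEq K] in
theorem InG.val_y (hA : v A ≤ 1) (hB : v B ≤ 1) {x y : K} {hn : (Crv A B).Nonsingular x y}
    (h : InG v (.some x y hn : (Crv A B).Point)) : v y ^ 2 = v x ^ 3 :=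
  val_y_sq v hA hB (crv_nonsing.1 hn).1 h

omit [DecidableEq K] in
theorem InG.val_pos {x y : K} {hn : (Crv A B).Nonsingular x y}
    (h : InG v (.some x y hn : (Crv A B).Point)) : v x ≠ 0 :=
  (zero_lt_one.trans (show 1 < v x from h)).ne'

omit [DecidableEq K] in
theorem InG.val_y_ne (hA : v A ≤ 1) (hB : v B ≤ 1) {x y : K} {hn : (Crv A B).Nonsingular x y}
    (h : InG v (.some x y hn : (Crv A B).Point)) : v y ≠ 0 := by
  have h1 := InG.val_y v hA hB h
  intro h0
  rw [h0, zero_pow two_ne_zero] at h1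
  exact pow_ne_zero 3 (InG.val_pos v h) h1.symm

omit [DecidableEq K] in
theorem InG.zz_x (hA : v A ≤ 1) (hB : v B ≤ 1) {x y : K} {hn : (Crv A B).Nonsingular x y}
    (h : InG v (.some x y hn : (Crv A B).Point)) : v (x / y) ^ 2 * v x = 1 := by
  have h1 := InG.val_y v hA hB h
  have h2 := InG.val_pos v h
  rw [map_div₀, div_pow, h1]
  field_simp

omit [DecidableEq K] in
theorem InG.zz_y (hA : v A ≤ 1) (hB : v B ≤ 1) {x y : K} {hn : (Crv A B).Nonsingular x y}
    (h : InG v (.some x y hn : (Crv A B).Point)) : v (x / y) ^ 3 * v y = 1 := by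
  have h1 := InG.val_y v hA hB h
  have h2 := InG.val_pos v h
  have h3 := InG.val_y_ne v hA hB h
  rw [map_div₀, div_pow, ← h1]
  field_simp

omit [DecidableEq K] in
theorem InG.zz_lt (hA : v A ≤ 1) (hB : v B ≤ 1) {P : (Crv A B).Point} (h : InG v P) :
    v (zz P) < 1 := by
  cases P with
  | zero =>
    change v 0 < 1
    rw [map_zero]; exact zero_lt_one
  | some x y hn =>
    change v (x / y) < 1
    have h1 := InG.zz_x v hA hB h
    by_contra hcon
    rw [not_lt] at hcon
    have h2 : 1 ≤ v (x / y) ^ 2 := one_le_pow₀ hcon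
    have h3 : 1 < v (x / y) ^ 2 * v x :=
      lt_of_lt_of_le (show 1 < v x from h) (le_mul_of_one_le_left' h2)
    exact h3.ne' h1

omit [DecidableEq K] in
theorem InG.zz_eq_zero (hA : v A ≤ 1) (hB : v B ≤ 1) {P : (Crv A B).Point} (h : InG v P) :
    zz P = 0 ↔ P = 0 := by
  cases P with
  | zero => exact ⟨fun _ => rfl, fun _ => rfl⟩
  | some x y hn =>
    refine ⟨fun h0 => ?_, fun h0 => ?_⟩
    · have h1 := InG.zz_x v hA hB h
      change x / y = 0 at h0
      rw [h0, map_zero, zero_pow two_ne_zero, zero_mul] at h1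
      exact absurd h1 zero_ne_one
    · exact absurd h0 (by simp)

theorem InG.add (hA : v A ≤ 1) (hB : v B ≤ 1) {P Q : (Crv A B).Point} (hP : InG v P)
    (hQ : InG v Q) : InG v (P + Q) := by
  cases P with
  | zero =>
    change InG v (0 + Q)
    rwa [zero_add]
  | some x₁ y₁ h₁ =>
  cases Q with
  | zero =>
    change InG v (_ + 0)
    rwa [add_zero]
  | some x₂ y₂ h₂ =>
  by_cases hxy : x₁ = x₂ ∧ y₁ = -y₂
  · have : (.some x₁ y₁ h₁ : (Crv A B).Point) + .some x₂ y₂ h₂ = 0 := by
      refine Point.add_of_Y_eq hxy.1 ?_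
      simpa [negY] using hxy.2
    rw [this]
    exact inG_zero v
  · obtain ⟨l, m, x₃, y₃, h₃, hadd, e1, e2, e3, s1, s2, s3⟩ := exists_line h₁ h₂ hxy
    rw [hadd]
    change 1 < v x₃
    by_contra hcon
    rw [not_lt] at hcon
    have hv1 := InG.val_y v hA hB hP
    have hv2 := InG.val_y v hA hB hQ
    have hx1 : 1 < v x₁ := hP
    have hx2 : 1 < v x₂ := hQ
    have hy3 : v y₃ ≤ 1 := by
      have heq := (crv_nonsing.1 h₃).1
      rw [neg_sq] at heq
      have h1 : v y₃ ^ 2 ≤ 1 := by
        rw [← map_pow, heq]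
        refine v.map_add_le (v.map_add_le ?_ ?_) hB
        · rw [map_pow]; exact pow_le_one' hcon 3
        · rw [map_mul]; exact mul_le_one' hA hcon
      by_contra hc
      rw [not_le] at hc
      exact absurd (one_lt_pow₀ hc two_ne_zero) (not_lt.2 h1)
    -- `v l ^ 2 = v x_i`
    have key : ∀ x y : K, 1 < v x → v y ^ 2 = v x ^ 3 → y = l * x + m → v l ^ 2 = v x := by
      intro x y hx hy he
      have h1 : y = l * (x - x₃) + y₃ := by rw [he, e3]; ring
      have h2 : v (x - x₃) = v x := by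
        rw [Valuation.map_sub_swap]
        exact Valuation.map_sub_eq_of_lt_right v (hcon.trans_lt hx)
      have hy1 : 1 < v y := by
        by_contra hc
        rw [not_lt] at hc
        have : v y ^ 2 ≤ 1 := pow_le_one' hc 2
        rw [hy] at this
        exact absurd (one_lt_pow₀ hx three_ne_zero) (not_lt.2 this)
      have h3 : v y = v l * v x := by
        have h4 : y - y₃ = l * (x - x₃) := by rw [h1]; ring
        have h5 : v (y - y₃) = v y := by
          rw [Valuation.map_sub_swap]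
          exact Valuation.map_sub_eq_of_lt_right v (hy3.trans_lt hy1)
        rw [← h5, h4, map_mul, h2]
      have h6 : v l ^ 2 * v x ^ 2 = v x * v x ^ 2 := by
        rw [← mul_pow, ← h3, hy]
        rw [pow_succ' (v x) 2]
      exact mul_right_cancel₀ (pow_ne_zero 2 (zero_lt_one.trans hx).ne') h6
    have k1 := key x₁ y₁ hx1 hv1 e1
    have k2 := key x₂ y₂ hx2 hv2 e2
    have hl1 : 1 < v l := by
      by_contra hc
      rw [not_lt] at hc
      have : v l ^ 2 ≤ 1 := pow_le_one' hc 2
      rw [k1] at this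
      exact absurd hx1 (not_lt.2 this)
    have hm : v m ≤ v l := by
      have : m = y₃ - l * x₃ := by rw [e3]; ring
      rw [this]
      refine v.map_sub_le (hy3.trans hl1.le) ?_
      rw [map_mul]
      exact mul_le_of_le_one_right' hcon
    have h7 : x₁ * x₂ = A - 2 * l * m - x₃ * (x₁ + x₂) := by
      rw [← s2]; ring
    have h8 : v (x₁ * x₂) ≤ v l ^ 2 := by
      rw [h7]
      have hl2 : 1 ≤ v l ^ 2 := one_le_pow₀ hl1.le
      refine v.map_sub_le (v.map_sub_le (hA.trans hl2) ?_) ?_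
      · rw [map_mul, map_mul, sq]
        exact mul_le_mul' (mul_le_of_le_one_left' (val_two_le_one v)) hm
      · rw [map_mul]
        refine (mul_le_of_le_one_left' hcon).trans (v.map_add_le k1.ge k2.ge)
    rw [map_mul, ← k1, ← k2] at h8
    have h9 : v l ^ 2 < v l ^ 2 * v l ^ 2 := by
      have : 1 < v l ^ 2 := one_lt_pow₀ hl1 two_ne_zero
      exact lt_mul_of_one_lt_right (zero_lt_one.trans this) this
    exact absurd h9 (not_lt.2 h8)

end formal

end AlbCH
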