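import Pool.Agent.Lib.MP_2eeeac_ag.Basic
import Pool.Agent.Lib.MP_2eeeac_ag.FA

/-!
# Module NC: the index of the kernel of reduction over `ℚ_p` (helper35)
-/

set_option autoImplicit false

namespace AlbCH

open WeierstrassCurve WeierstrassCurve.Affine
open scoped NNReal

namespace NC

variable {p : ℕ} [Fact p.Prime] [DecidableEq ℚ_[p]]

omit [DecidableEq ℚ_[p]] in
lemma inG_some {A B x y : ℚ_[p]} (h : (Crv A B).Nonsingular x y) :
    InG (NormedField.valuation (K := ℚ_[p])) (.some x y h : (Crv A B).Point) ↔ 1 < ‖x‖ := by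
  change 1 < (NormedField.valuation (K := ℚ_[p])) x ↔ _
  rw [NormedField.valuation_apply, ← NNReal.coe_lt_coe, NNReal.coe_one, coe_nnnorm]

omit [DecidableEq ℚ_[p]] in
lemma add_lt {x y : ℚ_[p]} {c : ℝ} (hx : ‖x‖ < c) (hy : ‖y‖ < c) : ‖x + y‖ < c :=
  (Padic.nonarchimedean x y).trans_lt (max_lt hx hy)

omit [DecidableEq ℚ_[p]] in
lemma add_le {x y : ℚ_[p]} {c : ℝ} (hx : ‖x‖ ≤ c) (hy : ‖y‖ ≤ c) : ‖x + y‖ ≤ c :=
  (Padic.nonarchimedean x y).trans (max_le hx hy)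

omit [DecidableEq ℚ_[p]] in
lemma sub_lt {x y : ℚ_[p]} {c : ℝ} (hx : ‖x‖ < c) (hy : ‖y‖ < c) : ‖x - y‖ < c := by
  rw [sub_eq_add_neg]
  exact add_lt hx (by rwa [norm_neg])

omit [DecidableEq ℚ_[p]] in
lemma sub_le {x y : ℚ_[p]} {c : ℝ} (hx : ‖x‖ ≤ c) (hy : ‖y‖ ≤ c) : ‖x - y‖ ≤ c := by
  rw [sub_eq_add_neg]
  exact add_le hx (by rwa [norm_neg])

omit [DecidableEq ℚ_[p]] in
/-- a small perturbation does not change the norm -/
lemma norm_add_of_lt {x y : ℚ_[p]} (h : ‖y‖ < ‖x‖) : ‖x + y‖ = ‖x‖ := by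
  rw [Padic.add_eq_max_of_ne h.ne', max_eq_left h.le]

omit [DecidableEq ℚ_[p]] in
lemma norm_two (hp : p ≠ 2) : ‖(2 : ℚ_[p])‖ = 1 := by
  have h : p.Coprime 2 := by
    rw [Nat.coprime_primes (Fact.out) Nat.prime_two]
    exact hp
  have := (Padic.norm_natCast_eq_one_iff (p := p) (n := 2)).2 h
  exact_mod_cast this

omit [DecidableEq ℚ_[p]] in
/-- the derivative is a unit at a root modulo `p` -/
lemma deriv_unit {A B e₁ e₂ e₃ : ℚ_[p]} (hR : Roots A B e₁ e₂ e₃)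
    (he₁ : ‖e₁‖ ≤ 1) (he₂ : ‖e₂‖ ≤ 1) (he₃ : ‖e₃‖ ≤ 1)
    (h₁₂ : ‖e₁ - e₂‖ = 1) (h₁₃ : ‖e₁ - e₃‖ = 1) (h₂₃ : ‖e₂ - e₃‖ = 1)
    {x : ℚ_[p]} (hx : ‖x‖ ≤ 1) (hf : ‖x ^ 3 + A * x + B‖ < 1) : ‖3 * x ^ 2 + A‖ = 1 := by
  have key : ∀ {a b c : ℚ_[p]}, a + b + c = 0 → ‖a‖ ≤ 1 → ‖b‖ ≤ 1 → ‖c‖ ≤ 1 → ‖a - b‖ = 1 →
      ‖a - c‖ = 1 → ‖x - a‖ < 1 → ‖3 * x ^ 2 + (a * b + a * c + b * c)‖ = 1 := by
    intro a b c hs ha hb hc hab hac hxa
    have e1 : 3 * x ^ 2 + (a * b + a * c + b * c) =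
        (a - b) * (a - c) + (x - a) * (3 * (x - a) + 6 * a) := by
      linear_combination (2 * a) * hs
    have h3 : ‖(3 : ℚ_[p])‖ ≤ 1 := by exact_mod_cast Padic.norm_int_le_one (p := p) 3
    have h6 : ‖(6 : ℚ_[p])‖ ≤ 1 := by exact_mod_cast Padic.norm_int_le_one (p := p) 6
    have e2 : ‖3 * (x - a) + 6 * a‖ ≤ 1 := by
      apply add_le
      · rw [norm_mul]
        exact mul_le_one₀ h3 (norm_nonneg _) hxa.le
      · rw [norm_mul]
        exact mul_le_one₀ h6 (norm_nonneg _) ha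
    have e3 : ‖(x - a) * (3 * (x - a) + 6 * a)‖ < 1 := by
      rw [norm_mul]
      calc _ ≤ ‖x - a‖ * 1 := by gcongr
        _ < 1 := by linarith
    have e4 : ‖(a - b) * (a - c)‖ = 1 := by rw [norm_mul, hab, hac, one_mul]
    rw [e1, norm_add_of_lt (by rw [e4]; exact e3), e4]
  have hfac : x ^ 3 + A * x + B = (x - e₁) * (x - e₂) * (x - e₃) := by
    rw [hR.hA, hR.hB]
    linear_combination (x ^ 2) * hR.sum
  rw [hfac, norm_mul, norm_mul] at hf
  have h1 : ‖x - e₁‖ ≤ 1 := sub_le hx he₁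
  have h2 : ‖x - e₂‖ ≤ 1 := sub_le hx he₂
  have h3 : ‖x - e₃‖ ≤ 1 := sub_le hx he₃
  have hcase : ‖x - e₁‖ < 1 ∨ ‖x - e₂‖ < 1 ∨ ‖x - e₃‖ < 1 := by
    by_contra hcon
    push Not at hcon
    have e1 : ‖x - e₁‖ = 1 := le_antisymm h1 hcon.1
    have e2 : ‖x - e₂‖ = 1 := le_antisymm h2 hcon.2.1
    have e3 : ‖x - e₃‖ = 1 := le_antisymm h3 hcon.2.2
    rw [e1, e2, e3] at hf
    norm_num at hf
  have hs := hR.sum
  rcases hcase with h | h | h
  · have := key (a := e₁) (b := e₂) (c := e₃) hs he₁ he₂ he₃ h₁₂ h₁₃ h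
    rw [hR.hA]; exact this
  · have := key (a := e₂) (b := e₁) (c := e₃) (by linear_combination hs) he₂ he₁ he₃
      (by rw [norm_sub_rev]; exact h₁₂) h₂₃ h
    have e : e₁ * e₂ + e₁ * e₃ + e₂ * e₃ = e₂ * e₁ + e₂ * e₃ + e₁ * e₃ := by ring
    rw [hR.hA, e]; exact this
  · have := key (a := e₃) (b := e₁) (c := e₂) (by linear_combination hs) he₃ he₁ he₂
      (by rw [norm_sub_rev]; exact h₁₃) (by rw [norm_sub_rev]; exact h₂₃) h
    have e : e₁ * e₂ + e₁ * e₃ + e₂ * e₃ = e₃ * e₁ + e₃ * e₂ + e₁ * e₂ := by ring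
    rw [hR.hA, e]; exact this

/-- points with the same reduction differ by an element of the kernel of reduction -/
lemma sub_mem (hp : p ≠ 2) {A B e₁ e₂ e₃ : ℚ_[p]} (hR : Roots A B e₁ e₂ e₃)
    (he₁ : ‖e₁‖ ≤ 1) (he₂ : ‖e₂‖ ≤ 1) (he₃ : ‖e₃‖ ≤ 1)
    (h₁₂ : ‖e₁ - e₂‖ = 1) (h₁₃ : ‖e₁ - e₃‖ = 1) (h₂₃ : ‖e₂ - e₃‖ = 1)
    {x₁ y₁ x₂ y₂ : ℚ_[p]} (hn₁ : (Crv A B).Nonsingular x₁ y₁) (hn₂ : (Crv A B).Nonsingular x₂ y₂)
    (hx₁ : ‖x₁‖ ≤ 1) (hx₂ : ‖x₂‖ ≤ 1) (hy₁ : ‖y₁‖ ≤ 1) (hy₂ : ‖y₂‖ ≤ 1)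
    (hx : ‖x₁ - x₂‖ < 1) (hy : ‖y₁ - y₂‖ < 1) :
    InG (NormedField.valuation (K := ℚ_[p]))
      ((.some x₁ y₁ hn₁ : (Crv A B).Point) - (.some x₂ y₂ hn₂ : (Crv A B).Point)) := by
  by_cases heq : x₁ = x₂ ∧ y₁ = y₂
  · obtain ⟨rfl, rfl⟩ := heq
    rw [sub_self]
    exact inG_zero _
  have hneg : -(.some x₂ y₂ hn₂ : (Crv A B).Point) =
      .some x₂ ((Crv A B).negY x₂ y₂) ((nonsingular_neg x₂ y₂).2 hn₂) := rfl
  have hY : (Crv A B).negY x₂ y₂ = -y₂ := by simp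
  have hYY : (Crv A B).negY x₂ ((Crv A B).negY x₂ y₂) = y₂ := by simp
  rw [sub_eq_add_neg, hneg, Point.add_some (by rw [hYY]; exact heq), inG_some]
  set l := (Crv A B).slope x₁ x₂ y₁ ((Crv A B).negY x₂ y₂) with hl
  have hX : (Crv A B).addX x₁ x₂ l = l ^ 2 + (-(x₁ + x₂)) := by
    unfold addX
    ring
  have f1 := (crv_nonsing.1 hn₁).1
  have f2 := (crv_nonsing.1 hn₂).1
  have hl1 : 1 < ‖l‖ := by
    by_cases hxx : x₁ = x₂
    · -- doubling
      subst hxx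
      have hyy : y₁ ≠ y₂ := fun h => heq ⟨rfl, h⟩
      have hyy2 : (y₁ - y₂) * (y₁ + y₂) = 0 := by linear_combination f1 - f2
      have hsum : y₁ + y₂ = 0 := (mul_eq_zero.1 hyy2).resolve_left (sub_ne_zero.2 hyy)
      have hy12 : y₂ = -y₁ := by linear_combination hsum
      have e1 : ‖2 * y₁‖ < 1 := by
        have : y₁ - y₂ = 2 * y₁ := by rw [hy12]; ring
        rw [← this]; exact hy
      have hy10 : y₁ ≠ 0 := by
        intro h0
        apply hyy
        rw [hy12, h0, neg_zero]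
      have e2 : ‖y₁‖ < 1 := by rwa [norm_mul, norm_two hp, one_mul] at e1
      have e3 : ‖3 * x₁ ^ 2 + A‖ = 1 := by
        apply deriv_unit hR he₁ he₂ he₃ h₁₂ h₁₃ h₂₃ hx₁
        rw [← f1, norm_pow]
        exact pow_lt_one₀ (norm_nonneg _) e2 (by norm_num)
      have e4 : l = (3 * x₁ ^ 2 + A) / (2 * y₁) := by
        rw [hl, slope_of_Y_ne rfl (by rw [hYY]; exact hyy)]
        simp only [negY]
        congr 1
        · ring
        · ring
      rw [e4, norm_div, e3]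
      rw [lt_div_iff₀ (by
        rw [norm_pos_iff]
        exact mul_ne_zero (by
          intro h0
          have := norm_two hp
          rw [h0, norm_zero] at this
          norm_num at this) hy10), one_mul]
      exact e1
    · have e0 : l = (y₁ + y₂) / (x₁ - x₂) := by
        rw [hl, slope_of_X_ne hxx, hY]
        ring
      have hx0 : x₁ - x₂ ≠ 0 := sub_ne_zero.2 hxx
      have hxpos : 0 < ‖x₁ - x₂‖ := norm_pos_iff.2 hx0
      by_cases hy1 : ‖y₁‖ < 1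
      · -- both are roots modulo `p`
        have hf : (y₁ + y₂) * (y₁ - y₂) = (x₁ - x₂) * (x₁ ^ 2 + x₁ * x₂ + x₂ ^ 2 + A) := by
          linear_combination f1 - f2
        have hu : ‖x₁ ^ 2 + x₁ * x₂ + x₂ ^ 2 + A‖ = 1 := by
          have e3 : ‖3 * x₁ ^ 2 + A‖ = 1 := by
            apply deriv_unit hR he₁ he₂ he₃ h₁₂ h₁₃ h₂₃ hx₁
            rw [← f1, norm_pow]
            exact pow_lt_one₀ (norm_nonneg _) hy1 (by norm_num)
          have e4 : x₁ ^ 2 + x₁ * x₂ + x₂ ^ 2 + A = (3 * x₁ ^ 2 + A) +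
              (x₁ - x₂) * (-(x₁ + x₁ + x₂)) := by ring
          have e5 : ‖(x₁ - x₂) * (-(x₁ + x₁ + x₂))‖ < 1 := by
            rw [norm_mul, norm_neg]
            calc _ ≤ ‖x₁ - x₂‖ * 1 := by
                  gcongr
                  exact add_le (add_le hx₁ hx₁) hx₂
              _ < 1 := by linarith
          rw [e4, norm_add_of_lt (by rw [e3]; exact e5), e3]
        have hy0 : y₁ - y₂ ≠ 0 := by
          intro h0
          rw [h0, mul_zero] at hf
          have h1 : ‖(x₁ - x₂) * (x₁ ^ 2 + x₁ * x₂ + x₂ ^ 2 + A)‖ = 0 := by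
            rw [← hf, norm_zero]
          rw [norm_mul, hu, mul_one] at h1
          exact hxpos.ne' h1
        have hypos : 0 < ‖y₁ - y₂‖ := norm_pos_iff.2 hy0
        have e6 : l = (x₁ ^ 2 + x₁ * x₂ + x₂ ^ 2 + A) / (y₁ - y₂) := by
          rw [e0, div_eq_div_iff hx0 hy0, hf]
          ring
        rw [e6, norm_div, hu, lt_div_iff₀ hypos, one_mul]
        exact hy
      · have hy1' : ‖y₁‖ = 1 := le_antisymm hy₁ (not_lt.1 hy1)
        have e1 : ‖y₁ + y₂‖ = 1 := by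
          have e2 : y₁ + y₂ = 2 * y₁ + (-(y₁ - y₂)) := by ring
          have e3 : ‖2 * y₁‖ = 1 := by rw [norm_mul, norm_two hp, hy1', one_mul]
          rw [e2, norm_add_of_lt (by rw [e3, norm_neg]; exact hy), e3]
        rw [e0, norm_div, e1, lt_div_iff₀ hxpos, one_mul]
        exact hx
  have hl2 : 1 < ‖l ^ 2‖ := by
    rw [norm_pow]
    nlinarith [norm_nonneg l]
  rw [hX, norm_add_of_lt]
  · exact hl2
  · rw [norm_neg]
    exact (add_le hx₁ hx₂).trans_lt hl2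

omit [DecidableEq ℚ_[p]] in
/-- reduction modulo `p` of a coordinate -/
noncomputable def red (x : ℚ_[p]) : ZMod p :=
  open Classical in if h : ‖x‖ ≤ 1 then PadicInt.toZMod (⟨x, h⟩ : ℤ_[p]) else 0

omit [DecidableEq ℚ_[p]] in
lemma red_eq {x y : ℚ_[p]} (hx : ‖x‖ ≤ 1) (hy : ‖y‖ ≤ 1) (h : red x = red y) : ‖x - y‖ < 1 := by
  unfold red at h
  rw [dif_pos hx, dif_pos hy, ← sub_eq_zero, ← map_sub, ← RingHom.mem_ker,
    PadicInt.ker_toZMod, IsLocalRing.mem_maximalIdeal, PadicInt.mem_nonunits] at h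
  exact h

omit [DecidableEq ℚ_[p]] in
lemma red_eqn {A B x y : ℚ_[p]} (hA : ‖A‖ ≤ 1) (hB : ‖B‖ ≤ 1) (hx : ‖x‖ ≤ 1) (hy : ‖y‖ ≤ 1)
    (h : y ^ 2 = x ^ 3 + A * x + B) : red y ^ 2 = red x ^ 3 + red A * red x + red B := by
  unfold red
  rw [dif_pos hA, dif_pos hB, dif_pos hx, dif_pos hy, ← map_pow, ← map_pow, ← map_mul, ← map_add,
    ← map_add]
  congr 1
  apply Subtype.ext
  simpa using h

omit [DecidableEq ℚ_[p]] in
/-- the number of pairs `(a, b)` with `b² = a³ + A a + B` modulo `p` -/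
lemma card_le (A B : ZMod p) : (Finset.univ.filter (fun c : ZMod p × ZMod p =>
    c.2 ^ 2 = c.1 ^ 3 + A * c.1 + B)).card ≤ 2 * p := by
  classical
  have h1 : (Finset.univ.filter (fun c : ZMod p × ZMod p => c.2 ^ 2 = c.1 ^ 3 + A * c.1 + B)) ⊆
      Finset.univ.biUnion (fun a : ZMod p =>
        ((Polynomial.nthRoots 2 (a ^ 3 + A * a + B)).toFinset).image (fun b => (a, b))) := by
    rintro ⟨a, b⟩ hab
    rw [Finset.mem_filter] at hab
    rw [Finset.mem_biUnion]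
    refine ⟨a, Finset.mem_univ _, ?_⟩
    rw [Finset.mem_image]
    refine ⟨b, ?_, rfl⟩
    rw [Multiset.mem_toFinset, Polynomial.mem_nthRoots (by norm_num)]
    exact hab.2
  calc _ ≤ _ := Finset.card_le_card h1
    _ ≤ ∑ a : ZMod p, (((Polynomial.nthRoots 2 (a ^ 3 + A * a + B)).toFinset).image
        (fun b => (a, b))).card := Finset.card_biUnion_le
    _ ≤ ∑ _a : ZMod p, 2 := by
        apply Finset.sum_le_sum
        intro a _
        refine Finset.card_image_le.trans ?_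
        exact (Multiset.toFinset_card_le _).trans (Polynomial.card_nthRoots 2 _)
    _ = 2 * p := by
        rw [Finset.sum_const, Finset.card_univ, ZMod.card, smul_eq_mul, mul_comm]

lemma four_dvd {G : Type*} [AddCommGroup G] [Finite G] {a b : G} (ha : a + a = 0)
    (hb : b + b = 0) (ha0 : a ≠ 0) (hb0 : b ≠ 0) (hab : a + b ≠ 0) : 4 ∣ Nat.card G := by
  have h1 : addOrderOf a = 2 := addOrderOf_eq_prime (by rw [two_nsmul, ha]) ha0
  have h2 : Nat.card (AddSubgroup.zmultiples a) = 2 := by rw [Nat.card_zmultiples, h1]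
  have h3 : ((b : G) : G ⧸ AddSubgroup.zmultiples a) ≠ 0 := by
    intro h
    rw [QuotientAddGroup.eq_zero_iff, AddSubgroup.mem_zmultiples_iff] at h
    obtain ⟨k, hk⟩ := h
    rcases Int.even_or_odd' k with ⟨c, rfl | rfl⟩
    · rw [mul_comm, mul_zsmul, two_zsmul, ha, zsmul_zero] at hk
      exact hb0 hk.symm
    · rw [add_zsmul, mul_comm, mul_zsmul, two_zsmul, ha, zsmul_zero, one_zsmul, zero_add] at hk
      rw [← hk] at hab
      exact hab ha
  have h4 : addOrderOf ((b : G) : G ⧸ AddSubgroup.zmultiples a) = 2 := by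
    apply addOrderOf_eq_prime _ h3
    rw [two_nsmul, ← QuotientAddGroup.mk_add, hb, QuotientAddGroup.mk_zero]
  have h5 : 2 ∣ Nat.card (G ⧸ AddSubgroup.zmultiples a) := by
    rw [← h4]
    exact addOrderOf_dvd_natCard _
  rw [AddSubgroup.card_eq_card_quotient_mul_card_addSubgroup (AddSubgroup.zmultiples a), h2]
  exact Nat.mul_dvd_mul h5 (dvd_refl 2)

end NC

theorem exists_index {p : ℕ} [Fact p.Prime] [DecidableEq ℚ_[p]] (hp : p ≠ 2)
    {A B e₁ e₂ e₃ : ℚ_[p]} (hR : Roots A B e₁ e₂ e₃)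
    (he₁ : ‖e₁‖ ≤ 1) (he₂ : ‖e₂‖ ≤ 1) (he₃ : ‖e₃‖ ≤ 1)
    (h₁₂ : ‖e₁ - e₂‖ = 1) (h₁₃ : ‖e₁ - e₃‖ = 1) (h₂₃ : ‖e₂ - e₃‖ = 1) :
    ∃ N : ℕ, N ≠ 0 ∧ ¬ p ∣ N ∧
      ∀ P : (Crv A B).Point, InG (NormedField.valuation (K := ℚ_[p])) (N • P) := by
  have hmul : ∀ {x y : ℚ_[p]}, ‖x‖ ≤ 1 → ‖y‖ ≤ 1 → ‖x * y‖ ≤ 1 := by
    intro x y hx hy
    rw [norm_mul]
    exact mul_le_one₀ hx (norm_nonneg _) hy
  have hA : ‖A‖ ≤ 1 := by
    rw [hR.hA]
    exact NC.add_le (NC.add_le (hmul he₁ he₂) (hmul he₁ he₃)) (hmul he₂ he₃)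
  have hB : ‖B‖ ≤ 1 := by
    rw [hR.hB, norm_neg]
    exact hmul (hmul he₁ he₂) he₃
  have hvA : (NormedField.valuation (K := ℚ_[p])) A ≤ 1 := by
    rw [NormedField.valuation_apply, ← NNReal.coe_le_coe]
    exact hA
  have hvB : (NormedField.valuation (K := ℚ_[p])) B ≤ 1 := by
    rw [NormedField.valuation_apply, ← NNReal.coe_le_coe]
    exact hB
  -- the kernel of reduction
  let G : AddSubgroup (Crv A B).Point :=
    { carrier := {P | InG (NormedField.valuation (K := ℚ_[p])) P}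
      add_mem' := fun h h' => InG.add (NormedField.valuation (K := ℚ_[p])) hvA hvB h h'
      zero_mem' := inG_zero (A := A) (B := B) (NormedField.valuation (K := ℚ_[p]))
      neg_mem' := fun h => InG.neg (NormedField.valuation (K := ℚ_[p])) h }
  have hG : ∀ P, P ∈ G ↔ InG (NormedField.valuation (K := ℚ_[p])) P := fun P => Iff.rfl
  -- coordinates of points outside of `G`
  have hcoord : ∀ {x y : ℚ_[p]} (h : (Crv A B).Nonsingular x y),
      (.some x y h : (Crv A B).Point) ∉ G → ‖x‖ ≤ 1 ∧ ‖y‖ ≤ 1 := by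
    intro x y h hn
    rw [hG, NC.inG_some, not_lt] at hn
    refine ⟨hn, ?_⟩
    have h1 := (crv_nonsing.1 h).1
    have h2 : ‖y‖ ^ 2 ≤ 1 := by
      rw [← norm_pow, h1]
      refine NC.add_le (NC.add_le ?_ (hmul hA hn)) hB
      rw [norm_pow]
      exact pow_le_one₀ (norm_nonneg _) hn
    exact (sq_le_one_iff₀ (norm_nonneg _)).1 h2
  -- reduction
  classical
  let r : (Crv A B).Point → Option (ZMod p × ZMod p) := fun P =>
    if P ∈ G then none else match P with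
      | .zero => none
      | .some x y _ => some (NC.red x, NC.red y)
  have hr : ∀ P P', r P = r P' → P - P' ∈ G := by
    intro P P' h
    by_cases hP : P ∈ G
    · by_cases hP' : P' ∈ G
      · exact G.sub_mem hP hP'
      · exfalso
        rcases P' with _ | ⟨x, y, hn⟩
        · exact hP' G.zero_mem
        · simp only [r, if_pos hP, if_neg hP'] at h
          exact Option.some_ne_none _ h.symm
    · rcases P with _ | ⟨x, y, hn⟩
      · exact absurd G.zero_mem hP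
      by_cases hP' : P' ∈ G
      · exfalso
        simp only [r, if_neg hP, if_pos hP'] at h
        exact Option.some_ne_none _ h
      · rcases P' with _ | ⟨x', y', hn'⟩
        · exact absurd G.zero_mem hP'
        simp only [r, if_neg hP, if_neg hP', Option.some.injEq, Prod.mk.injEq] at h
        obtain ⟨c1, c2⟩ := hcoord hn hP
        obtain ⟨c3, c4⟩ := hcoord hn' hP'
        exact NC.sub_mem hp hR he₁ he₂ he₃ h₁₂ h₁₃ h₂₃ hn hn' c1 c3 c2 c4
          (NC.red_eq c1 c3 h.1) (NC.red_eq c2 c4 h.2)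
  let T : Finset (Option (ZMod p × ZMod p)) := Finset.insertNone
    (Finset.univ.filter (fun c : ZMod p × ZMod p =>
      c.2 ^ 2 = c.1 ^ 3 + NC.red A * c.1 + NC.red B))
  have hT : T.card ≤ 2 * p + 1 := by
    rw [Finset.card_insertNone]
    exact Nat.succ_le_succ (NC.card_le _ _)
  have hrT : ∀ P, r P ∈ T := by
    intro P
    by_cases hP : P ∈ G
    · simp only [r, if_pos hP]
      exact Finset.none_mem_insertNone
    · rcases P with _ | ⟨x, y, hn⟩
      · exact absurd G.zero_mem hP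
      simp only [r, if_neg hP]
      rw [Finset.some_mem_insertNone, Finset.mem_filter]
      obtain ⟨c1, c2⟩ := hcoord hn hP
      exact ⟨Finset.mem_univ _, NC.red_eqn hA hB c1 c2 (crv_nonsing.1 hn).1⟩
  let F : (Crv A B).Point ⧸ G → T := fun q => ⟨r (Quotient.out q), hrT _⟩
  have hF : Function.Injective F := by
    intro q q' h
    have h1 := hr _ _ (congrArg Subtype.val h)
    have e1 : (QuotientAddGroup.mk (Quotient.out q) : (Crv A B).Point ⧸ G) = q :=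
      QuotientAddGroup.out_eq' q
    have e2 : (QuotientAddGroup.mk (Quotient.out q') : (Crv A B).Point ⧸ G) = q' :=
      QuotientAddGroup.out_eq' q'
    rw [← e1, ← e2, QuotientAddGroup.eq]
    have e3 : -(Quotient.out q) + Quotient.out q' = -(Quotient.out q - Quotient.out q') := by abel
    rw [e3]
    exact G.neg_mem h1
  have hfin : Finite ((Crv A B).Point ⧸ G) := Finite.of_injective F hF
  have hcard : Nat.card ((Crv A B).Point ⧸ G) ≤ 2 * p + 1 := by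
    refine (Nat.card_le_card_of_injective F hF).trans ?_
    rw [Nat.card_eq_fintype_card, Fintype.card_coe]
    exact hT
  -- the points of order two
  have hTe : ∀ {e : ℚ_[p]}, ‖e‖ ≤ 1 → e ^ 3 + A * e + B = 0 → (Crv A B).Nonsingular e 0 := by
    intro e he h0
    rw [crv_nonsing]
    refine ⟨by rw [h0]; ring, Or.inl ?_⟩
    intro h1
    have h2 := NC.deriv_unit hR he₁ he₂ he₃ h₁₂ h₁₃ h₂₃ he (by rw [h0, norm_zero]; norm_num)
    rw [← h1, norm_zero] at h2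
    exact zero_ne_one h2
  have hT1 : (Crv A B).Nonsingular e₁ 0 := hTe he₁ (by
    rw [hR.hA, hR.hB]; linear_combination (e₁ ^ 2) * hR.sum)
  have hT2 : (Crv A B).Nonsingular e₂ 0 := hTe he₂ (by
    rw [hR.hA, hR.hB]; linear_combination (e₂ ^ 2) * hR.sum)
  have hT3 : (Crv A B).Nonsingular e₃ 0 := hTe he₃ (by
    rw [hR.hA, hR.hB]; linear_combination (e₃ ^ 2) * hR.sum)
  have hnot : ∀ {e : ℚ_[p]} (h : (Crv A B).Nonsingular e 0), ‖e‖ ≤ 1 →
      ((.some e 0 h : (Crv A B).Point) : (Crv A B).Point ⧸ G) ≠ 0 := by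
    intro e h he hcon
    rw [QuotientAddGroup.eq_zero_iff, hG, NC.inG_some] at hcon
    linarith
  have hself : ∀ {e : ℚ_[p]} (h : (Crv A B).Nonsingular e 0),
      (.some e 0 h : (Crv A B).Point) + .some e 0 h = 0 := by
    intro e h
    exact Point.add_of_Y_eq rfl (by simp)
  have hadd : (.some e₁ 0 hT1 : (Crv A B).Point) + .some e₂ 0 hT2 = .some e₃ 0 hT3 := by
    have hne : e₁ ≠ e₂ := by
      intro h0
      rw [h0, sub_self, norm_zero] at h₁₂
      exact zero_ne_one h₁₂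
    rw [Point.add_some (fun h => hne h.1)]
    rw [Point.some.injEq, slope_of_X_ne hne]
    constructor
    · simp only [addX, sub_self, zero_div]
      linear_combination -hR.sum
    · simp only [addY, negAddY, negY, sub_self, zero_div]
      ring
  have h4 : 4 ∣ Nat.card ((Crv A B).Point ⧸ G) := by
    apply NC.four_dvd (a := ((.some e₁ 0 hT1 : (Crv A B).Point) : (Crv A B).Point ⧸ G))
      (b := ((.some e₂ 0 hT2 : (Crv A B).Point) : (Crv A B).Point ⧸ G))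
    · rw [← QuotientAddGroup.mk_add, hself]; rfl
    · rw [← QuotientAddGroup.mk_add, hself]; rfl
    · exact hnot hT1 he₁
    · exact hnot hT2 he₂
    · rw [← QuotientAddGroup.mk_add, hadd]
      exact hnot hT3 he₃
  refine ⟨Nat.card ((Crv A B).Point ⧸ G), Nat.card_pos.ne', ?_, ?_⟩
  · intro hpd
    have hp2 : 2 ≤ p := (Fact.out : p.Prime).two_le
    have hcop : Nat.Coprime 4 p := by
      have h1 : Nat.Coprime 2 p := by
        rw [Nat.coprime_primes Nat.prime_two (Fact.out)]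
        exact hp.symm
      exact Nat.Coprime.pow_left 2 h1
    have h5 := Nat.le_of_dvd Nat.card_pos (hcop.mul_dvd_of_dvd_of_dvd h4 hpd)
    omega
  · intro P
    have h6 : Nat.card ((Crv A B).Point ⧸ G) • (P : (Crv A B).Point ⧸ G) = 0 :=
      card_nsmul_eq_zero'
    rw [← QuotientAddGroup.mk_nsmul, QuotientAddGroup.eq_zero_iff] at h6
    exact h6

end AlbCH
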