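import Pool.Agent.Lib.MP_2eeeac_ag.NB
import Pool.Agent.Lib.MP_2eeeac_ag.NC

/-!
# Local approximation: points near a given point which are, up to torsion, multiples of `a`

(helper7, module ND of the call MP_2eeeac_ag)
-/

namespace AlbCH

open WeierstrassCurve WeierstrassCurve.Affine
open scoped NNReal

namespace NDaux

variable {p : ℕ} [Fact p.Prime]

/-- an element of `ℚ_p` of norm `< 1` has norm `≤ 1/p` -/
theorem norm_le_inv {z : ℚ_[p]} (h : ‖z‖ < 1) : ‖z‖ ≤ (p : ℝ)⁻¹ := by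
  have h1 := (Padic.norm_lt_pow_iff_norm_le_pow_sub_one z 0).mp (by simpa using h)
  simpa using h1

theorem norm_le_inv_sq {z : ℚ_[p]} (h : ‖z‖ < (p : ℝ)⁻¹) : ‖z‖ ≤ (p : ℝ)⁻¹ * (p : ℝ)⁻¹ := by
  have h1 := (Padic.norm_lt_pow_iff_norm_le_pow_sub_one z (-1)).mp (by simpa using h)
  have h2 : (p : ℝ) ^ (-1 - 1 : ℤ) = (p : ℝ)⁻¹ * (p : ℝ)⁻¹ := by
    have : (-1 - 1 : ℤ) = -(2 : ℕ) := by norm_num
    rw [this, zpow_neg, zpow_natCast, sq, mul_inv]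
  rwa [h2] at h1

theorem nat_le (n : ℕ) : ‖(n : ℚ_[p])‖ ≤ 1 := by
  simpa using Padic.norm_int_le_one (n : ℤ)

theorem p_pos : (0 : ℝ) < (p : ℝ)⁻¹ := by
  have := (Fact.out : p.Prime).pos
  positivity

theorem p_lt : (p : ℝ)⁻¹ < 1 := by
  have := (Fact.out : p.Prime).one_lt
  exact inv_lt_one_of_one_lt₀ (by exact_mod_cast this)

noncomputable abbrev v : Valuation ℚ_[p] ℝ≥0 := NormedField.valuation (K := ℚ_[p])

theorem v_apply (x : ℚ_[p]) : v x = ‖x‖₊ := rfl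

theorem v_le {x : ℚ_[p]} (h : ‖x‖ ≤ 1) : v x ≤ 1 := h

variable [DecidableEq ℚ_[p]] {A B : ℚ_[p]}

omit [DecidableEq ℚ_[p]] in
theorem norm_zz_lt (hA : ‖A‖ ≤ 1) (hB : ‖B‖ ≤ 1) {P : (Crv A B).Point} (h : InG v P) :
    ‖zz P‖ < 1 := by
  have := InG.zz_lt v (v_le hA) (v_le hB) h
  exact this

theorem norm_nsmul (hA : ‖A‖ ≤ 1) (hB : ‖B‖ ≤ 1) {P : (Crv A B).Point} (h : InG v P) (m : ℕ)
    (hm : (p : ℝ)⁻¹ ≤ ‖(m : ℚ_[p])‖) : ‖zz (m • P)‖ = ‖(m : ℚ_[p])‖ * ‖zz P‖ := by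
  have h1 : v (zz P) ^ 4 < v (m : ℚ_[p]) := by
    have h2 : ‖zz P‖ ≤ (p : ℝ)⁻¹ := norm_le_inv (norm_zz_lt hA hB h)
    have h3 : ‖zz P‖ ^ 4 < ‖(m : ℚ_[p])‖ := by
      calc ‖zz P‖ ^ 4 ≤ ((p : ℝ)⁻¹) ^ 4 := pow_le_pow_left₀ (norm_nonneg _) h2 4
        _ < ((p : ℝ)⁻¹) ^ 1 := pow_lt_pow_right_of_lt_one₀ p_pos p_lt (by norm_num)
        _ = (p : ℝ)⁻¹ := pow_one _
        _ ≤ _ := hm
    rw [v_apply, v_apply, ← NNReal.coe_lt_coe]
    push_cast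
    exact h3
  have h4 := zz_nsmul_eq v (v_le hA) (v_le hB) h m h1
  rw [v_apply, v_apply, v_apply, ← NNReal.coe_inj] at h4
  push_cast at h4
  exact h4

theorem norm_sub (hA : ‖A‖ ≤ 1) (hB : ‖B‖ ≤ 1) {P Q : (Crv A B).Point} (h : InG v P)
    (h' : InG v Q) : ‖zz (P - Q)‖ = ‖zz P - zz Q‖ := by
  have h4 := zz_sub v (v_le hA) (v_le hB) h h'
  rw [v_apply, v_apply, ← NNReal.coe_inj] at h4
  push_cast at h4
  exact h4

/-- every nonzero point of the kernel of reduction is `p ^ s` times a point with `‖z‖ = 1/p` -/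
theorem divide (hA : ‖A‖ ≤ 1) (hB : ‖B‖ ≤ 1) (n : ℕ) :
    ∀ R : (Crv A B).Point, InG v R → ‖zz R‖ = (p : ℝ)⁻¹ ^ (n + 1) →
      ∃ (s : ℕ) (a' : (Crv A B).Point), InG v a' ∧ p ^ s • a' = R ∧ ‖zz a'‖ = (p : ℝ)⁻¹ := by
  induction n with
  | zero =>
    intro R hR h
    exact ⟨0, R, hR, by simp, by simpa using h⟩
  | succ n ih =>
    intro R hR h
    have hp : ‖(p : ℚ_[p])‖ = (p : ℝ)⁻¹ := Padic.norm_p
    obtain ⟨S, hS, hSR⟩ := exists_nsmul_eq hA hB p hp.ge R hR (by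
      rw [hp, h, pow_succ, pow_succ]
      have h1 : (p : ℝ)⁻¹ ^ n ≤ 1 := pow_le_one₀ p_pos.le p_lt.le
      have h2 := p_pos (p := p)
      nlinarith [mul_pos h2 h2])
    have h1 := norm_nsmul hA hB hS p hp.ge
    rw [hSR, hp, h, pow_succ, mul_comm] at h1
    have h2 : ‖zz S‖ = (p : ℝ)⁻¹ ^ (n + 1) := (mul_left_cancel₀ p_pos.ne' h1).symm
    obtain ⟨s, a', ha', h3, h4⟩ := ih S hS h2
    refine ⟨s + 1, a', ha', ?_, h4⟩
    rw [pow_succ, mul_comm, mul_smul, h3, hSR]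

omit [DecidableEq ℚ_[p]] in
/-- the norm of the parameter of a nonzero point is a power of `1/p` -/
theorem exists_pow {z : ℚ_[p]} (hz : z ≠ 0) (h : ‖z‖ < 1) :
    ∃ n : ℕ, ‖z‖ = (p : ℝ)⁻¹ ^ (n + 1) := by
  obtain ⟨n, hn⟩ := Padic.norm_eq_zpow_neg_valuation hz ▸ (⟨z.valuation, rfl⟩ :
    ∃ n : ℤ, ((p : ℝ) ^ (-z.valuation) : ℝ) = (p : ℝ) ^ (-n))
  have hp1 : (1 : ℝ) < p := by exact_mod_cast (Fact.out : p.Prime).one_lt
  have h1 : ‖z‖ = (p : ℝ) ^ (-z.valuation) := Padic.norm_eq_zpow_neg_valuation hz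
  have h2 : 0 < z.valuation := by
    by_contra h3
    rw [h1] at h
    have h4 : (1 : ℝ) ≤ (p : ℝ) ^ (-z.valuation) := one_le_zpow₀ hp1.le (by omega)
    linarith
  obtain ⟨m, hm⟩ := Int.eq_ofNat_of_zero_le (show (0 : ℤ) ≤ z.valuation - 1 by omega)
  refine ⟨m, ?_⟩
  have h5 : z.valuation = ((m + 1 : ℕ) : ℤ) := by push_cast; omega
  rw [h1, h5, zpow_neg, zpow_natCast, inv_pow]

end NDaux

open NDaux

variable {p : ℕ} [Fact p.Prime] [DecidableEq ℚ_[p]]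

theorem local_approx (hp : p ≠ 2) {A B e₁ e₂ e₃ : ℚ_[p]} (hR : Roots A B e₁ e₂ e₃)
    (he₁ : ‖e₁‖ ≤ 1) (he₂ : ‖e₂‖ ≤ 1) (he₃ : ‖e₃‖ ≤ 1)
    (h₁₂ : ‖e₁ - e₂‖ = 1) (h₁₃ : ‖e₁ - e₃‖ = 1) (h₂₃ : ‖e₂ - e₃‖ = 1)
    {γ η : ℚ_[p]} (h0 : (Crv A B).Nonsingular γ η) (hγ : ‖γ‖ ≤ 1) (hη : ‖η‖ = 1)
    (a : (Crv A B).Point) (ha : ∀ n : ℕ, n ≠ 0 → n • a ≠ 0) :
    ∃ (x y : ℚ_[p]) (h : (Crv A B).Nonsingular x y) (M M' : ℕ), M ≠ 0 ∧ M' ≠ 0 ∧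
      M • (.some x y h : (Crv A B).Point) = M' • a ∧ ‖x - γ‖ = (p : ℝ)⁻¹ := by
  have hA : ‖A‖ ≤ 1 := by
    have nm : ∀ x y : ℚ_[p], ‖x‖ ≤ 1 → ‖y‖ ≤ 1 → ‖x * y‖ ≤ 1 := by
      intro x y hx hy
      rw [norm_mul]
      exact mul_le_one₀ hx (norm_nonneg _) hy
    have na : ∀ x y : ℚ_[p], ‖x‖ ≤ 1 → ‖y‖ ≤ 1 → ‖x + y‖ ≤ 1 := by
      intro x y hx hy
      exact (Padic.nonarchimedean x y).trans (max_le hx hy)
    rw [hR.hA]
    exact na _ _ (na _ _ (nm _ _ he₁ he₂) (nm _ _ he₁ he₃)) (nm _ _ he₂ he₃)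
  have hB : ‖B‖ ≤ 1 := by
    rw [hR.hB, norm_neg, norm_mul, norm_mul]
    exact mul_le_one₀ (mul_le_one₀ he₁ (norm_nonneg _) he₂) (norm_nonneg _) he₃
  obtain ⟨N, hN0, hpN, hN⟩ := exists_index hp hR he₁ he₂ he₃ h₁₂ h₁₃ h₂₃
  have hNn : ‖(N : ℚ_[p])‖ = 1 := by
    have h1 : ‖(N : ℚ_[p])‖ ≤ 1 := NDaux.nat_le N
    rcases h1.lt_or_eq with h | h
    · exact absurd ((Padic.norm_natCast_lt_one_iff).mp h) hpN
    · exact h
  have hR0 : InG v (N • (.some γ η h0 : (Crv A B).Point)) := hN _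
  have hR1 : InG v (N • a) := hN _
  have hR1z : zz (N • a) ≠ 0 := by
    intro h
    exact ha N hN0 ((InG.zz_eq_zero v (v_le hA) (v_le hB) hR1).mp h)
  obtain ⟨n, hn⟩ := exists_pow hR1z (norm_zz_lt hA hB hR1)
  obtain ⟨s, a', ha', hsa, hza⟩ := divide hA hB n _ hR1 hn
  set R0 : (Crv A B).Point := N • (.some γ η h0 : (Crv A B).Point) with hR0def
  -- choose `κ`
  obtain ⟨κ, hκ0, hκ⟩ : ∃ κ : ℕ, κ ≠ 0 ∧ ‖zz (κ • a' - R0)‖ = (p : ℝ)⁻¹ := by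
    have hpp : ‖(p : ℚ_[p])‖ = (p : ℝ)⁻¹ := Padic.norm_p
    by_cases hc : ‖zz R0‖ = (p : ℝ)⁻¹
    · refine ⟨p, (Fact.out : p.Prime).ne_zero, ?_⟩
      have hpa : InG v (p • a') := InG.nsmul v (v_le hA) (v_le hB) ha' p
      rw [norm_sub hA hB hpa hR0]
      have h1 : ‖zz (p • a')‖ = (p : ℝ)⁻¹ * (p : ℝ)⁻¹ := by
        rw [norm_nsmul hA hB ha' p hpp.ge, hpp, hza]
      have h2 : ‖zz (p • a')‖ ≠ ‖-zz R0‖ := by
        rw [h1, norm_neg, hc]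
        have := p_pos (p := p)
        have := p_lt (p := p)
        nlinarith
      rw [sub_eq_add_neg, Padic.add_eq_max_of_ne h2, norm_neg, h1, hc]
      apply max_eq_right
      have := p_pos (p := p)
      have := p_lt (p := p)
      nlinarith
    · refine ⟨1, one_ne_zero, ?_⟩
      rw [one_smul, norm_sub hA hB ha' hR0]
      have h0' : ‖zz R0‖ ≤ (p : ℝ)⁻¹ := norm_le_inv (norm_zz_lt hA hB hR0)
      have h1 : ‖zz R0‖ < (p : ℝ)⁻¹ := lt_of_le_of_ne h0' hc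
      have h2 : ‖zz a'‖ ≠ ‖-zz R0‖ := by
        rw [norm_neg, hza]
        exact h1.ne'
      rw [sub_eq_add_neg, Padic.add_eq_max_of_ne h2, norm_neg, hza]
      exact max_eq_left h1.le
  have hka : InG v (κ • a') := InG.nsmul v (v_le hA) (v_le hB) ha' κ
  have hD : InG v (κ • a' - R0) := InG.sub v (v_le hA) (v_le hB) hka hR0
  have hNp : (p : ℝ)⁻¹ ≤ ‖(N : ℚ_[p])‖ := by rw [hNn]; exact p_lt.le
  obtain ⟨δ, hδ, hNδ⟩ := exists_nsmul_eq hA hB N hNp _ hD (by rw [hNn, hκ, one_mul])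
  have hzδ : ‖zz δ‖ = (p : ℝ)⁻¹ := by
    have := norm_nsmul hA hB hδ N hNp
    rw [hNδ, hκ, hNn, one_mul] at this
    exact this.symm
  -- coordinates of `δ`
  rcases δ with _ | ⟨x, y, hxy⟩
  · exfalso
    have h1 : zz (Point.zero : (Crv A B).Point) = 0 := rfl
    rw [h1, norm_zero] at hzδ
    exact p_pos.ne hzδ
  have hpp := p_pos (p := p)
  have hpl := p_lt (p := p)
  have hp0 : (0 : ℝ) < p := by exact_mod_cast (Fact.out : p.Prime).pos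
  have hp1 : (1 : ℝ) < p := by exact_mod_cast (Fact.out : p.Prime).one_lt
  have hzz : ‖x / y‖ = (p : ℝ)⁻¹ := hzδ
  have hx : ‖x‖ = (p : ℝ) ^ 2 := by
    have h1 := InG.zz_x v (v_le hA) (v_le hB) hδ
    rw [v_apply, v_apply, ← NNReal.coe_inj] at h1
    push_cast at h1
    rw [hzz] at h1
    field_simp at h1
    linarith
  have hy : ‖y‖ = (p : ℝ) ^ 3 := by
    have h1 := InG.zz_y v (v_le hA) (v_le hB) hδ
    rw [v_apply, v_apply, ← NNReal.coe_inj] at h1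
    push_cast at h1
    rw [hzz] at h1
    field_simp at h1
    linarith
  have hxγ : γ ≠ x := by
    intro h
    rw [← h] at hx
    nlinarith
  have hsum := Point.add_of_X_ne (W := Crv A B) (h₁ := h0) (h₂ := hxy) hxγ
  refine ⟨_, _, nonsingular_add h0 hxy fun hxy => hxγ hxy.left, p ^ s * N, κ * N, ?_, ?_, ?_, ?_⟩
  · exact mul_ne_zero (pow_ne_zero _ (Fact.out : p.Prime).ne_zero) hN0
  · exact mul_ne_zero hκ0 hN0
  · rw [← hsum, mul_smul, nsmul_add, ← hR0def, hNδ, add_sub_cancel, mul_smul, ← hsa,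
      smul_smul, smul_smul, mul_comm]
  · have hsl : (Crv A B).slope γ x η y = (η - y) / (γ - x) := slope_of_X_ne hxγ
    have heq : y ^ 2 = x ^ 3 + A * x + B := (crv_nonsing.mp hxy).1
    have hne : x - γ ≠ 0 := sub_ne_zero.mpr hxγ.symm
    have hne' : γ - x ≠ 0 := sub_ne_zero.mpr hxγ
    have key : (Crv A B).addX γ x ((Crv A B).slope γ x η y) - γ =
        (-(2 * (η * y)) + ((A + 3 * γ ^ 2) * x + (B + η ^ 2 - 2 * γ ^ 3))) / (x - γ) ^ 2 := by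
      rw [hsl, addX]
      field_simp
      ring_nf
      rw [heq]
      ring
    rw [key, norm_div, norm_pow]
    have n2 : ‖(2 : ℚ_[p])‖ = 1 := by
      have h1 : ‖((2 : ℕ) : ℚ_[p])‖ ≤ 1 := NDaux.nat_le 2
      rcases h1.lt_or_eq with h | h
      · exfalso
        have h2 := (Padic.norm_natCast_lt_one_iff).mp h
        exact hp ((Nat.prime_dvd_prime_iff_eq (Fact.out : p.Prime) Nat.prime_two).mp h2)
      · simpa using h
    have m1 : ‖-(2 * (η * y))‖ = (p : ℝ) ^ 3 := by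
      rw [norm_neg, norm_mul, norm_mul, n2, hη, hy, one_mul, one_mul]
    have nm : ∀ x y : ℚ_[p], ‖x‖ ≤ 1 → ‖y‖ ≤ 1 → ‖x * y‖ ≤ 1 := by
      intro x y hx hy
      rw [norm_mul]
      exact mul_le_one₀ hx (norm_nonneg _) hy
    have na : ∀ x y : ℚ_[p], ‖x‖ ≤ 1 → ‖y‖ ≤ 1 → ‖x + y‖ ≤ 1 := by
      intro x y hx hy
      exact (Padic.nonarchimedean x y).trans (max_le hx hy)
    have nn : ∀ n : ℕ, ‖(n : ℚ_[p])‖ ≤ 1 := NDaux.nat_le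
    have npw : ∀ (x : ℚ_[p]) (n : ℕ), ‖x‖ ≤ 1 → ‖x ^ n‖ ≤ 1 := by
      intro x n hx
      rw [norm_pow]
      exact pow_le_one₀ (norm_nonneg _) hx
    have c1 : ‖A + 3 * γ ^ 2‖ ≤ 1 := by
      refine na _ _ hA (nm _ _ ?_ (npw _ _ hγ))
      simpa using nn 3
    have c2 : ‖B + η ^ 2 - 2 * γ ^ 3‖ ≤ 1 := by
      rw [sub_eq_add_neg]
      refine na _ _ (na _ _ hB (npw _ _ hη.le)) ?_
      rw [norm_neg]
      exact nm _ _ n2.le (npw _ _ hγ)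
    have m2 : ‖(A + 3 * γ ^ 2) * x + (B + η ^ 2 - 2 * γ ^ 3)‖ ≤ (p : ℝ) ^ 2 := by
      refine (Padic.nonarchimedean _ _).trans (max_le ?_ (c2.trans ?_))
      · rw [norm_mul, hx]
        exact mul_le_of_le_one_left (by positivity) c1
      · nlinarith
    have m3 : (p : ℝ) ^ 2 < (p : ℝ) ^ 3 := pow_lt_pow_right₀ hp1 (by norm_num)
    have m4 : ‖-(2 * (η * y)) + ((A + 3 * γ ^ 2) * x + (B + η ^ 2 - 2 * γ ^ 3))‖ = (p : ℝ) ^ 3 := by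
      rw [Padic.add_eq_max_of_ne, m1]
      · exact max_eq_left (m2.trans m3.le)
      · rw [m1]
        exact (m2.trans_lt m3).ne'
    have m5 : ‖x - γ‖ = (p : ℝ) ^ 2 := by
      have : ‖γ‖ < (p : ℝ) ^ 2 := by nlinarith
      rw [sub_eq_add_neg, Padic.add_eq_max_of_ne, hx, norm_neg]
      · exact max_eq_left this.le
      · rw [hx, norm_neg]
        exact this.ne'
    rw [m4, m5]
    field_simp

end AlbCH
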