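import Pool.Agent.Lib.MP_2eeeac_ag.Order
import Pool.Agent.Lib.MP_2eeeac_ag.AL
import Pool.Agent.Lib.MP_2eeeac_ag.ND
import Pool.Agent.Lib.MP_2eeeac_ag.IA
import Pool.Agent.Lib.MP_2eeeac_ag.EM

/-! The key step: one more independent point. -/

namespace AlbCH

open WeierstrassCurve WeierstrassCurve.Affine

section maps

variable {F K : Type*} [Field F] [Field K]

lemma nonsing_of_map (f : F →+* K) {A B : F} {A' B' : K} (hA : f A = A') (hB : f B = B')
    {x y : F} (h : (Crv A' B').Nonsingular (f x) (f y)) : (Crv A B).Nonsingular x y := by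
  rw [crv_nonsing] at h ⊢
  subst hA hB
  refine ⟨f.injective (by simpa using h.1), ?_⟩
  rcases h.2 with h2 | h2
  · left; intro h3; apply h2; rw [← map_zero f, h3]
    simp only [map_add, map_mul, map_pow, map_ofNat]
  · right; intro h3; apply h2; rw [← map_neg, ← h3]

variable [DecidableEq F] [DecidableEq K]

lemma mapPt_injective (f : F →+* K) {A B : F} {A' B' : K} (hA : f A = A') (hB : f B = B') :
    Function.Injective (mapPt f hA hB) := by
  rintro (_ | ⟨x₁, y₁, h₁⟩) (_ | ⟨x₂, y₂, h₂⟩) h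
  · rfl
  · exact absurd h (by rintro ⟨⟩)
  · exact absurd h (by rintro ⟨⟩)
  · have h' := h
    change Point.some _ _ _ = Point.some _ _ _ at h'
    rw [Point.some.injEq] at h'
    obtain ⟨h3, h4⟩ := h'
    have := f.injective h3
    have := f.injective h4
    subst_vars
    rfl

end maps

section padic

variable {k : Type*} [Field k] [DecidableEq k] {p : ℕ} [Fact p.Prime] [DecidableEq ℚ_[p]]
  [DecidableEq (PadicAlgCl p)]

lemma exists_point_of_PRat (ι : k →+* PadicAlgCl p) {A B : k} {A' B' : ℚ_[p]}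
    (hA : algebraMap ℚ_[p] (PadicAlgCl p) A' = ι A) (hB : algebraMap ℚ_[p] (PadicAlgCl p) B' = ι B)
    (P : (Crv A B).Point) (hP : PRat ι P) :
    ∃ P' : (Crv A' B').Point, mapPt (algebraMap ℚ_[p] (PadicAlgCl p)) hA hB P'
      = mapPt ι rfl rfl P := by
  rcases P with _ | ⟨x, y, h⟩
  · exact ⟨0, rfl⟩
  · obtain ⟨⟨x', hx⟩, ⟨y', hy⟩⟩ := hP
    have hn : (Crv (ι A) (ι B)).Nonsingular (ι x) (ι y) := nonsing_map ι rfl rfl h
    have hn' : (Crv A' B').Nonsingular x' y' := by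
      rw [← hx, ← hy] at hn
      exact nonsing_of_map _ hA hB hn
    refine ⟨.some x' y' hn', ?_⟩
    rw [mapPt_some, mapPt_some, Point.some.injEq]
    exact ⟨hx, hy⟩

end padic

section core

variable {A₁ B₁ A₂ B₂ : AlgebraicClosure ℚ}

open Classical in
/-- the coordinates of a point -/
noncomputable def coords {k : Type*} [Field k] {A B : k} : (Crv A B).Point → Finset k
  | .zero => ∅
  | .some x y _ => {x, y}

lemma PRat_of_coords {p : ℕ} [Fact p.Prime] {k : Type*} [Field k] (ι : k →+* PadicAlgCl p)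
    {A B : k} (P : (Crv A B).Point)
    (h : ∀ s ∈ coords P, ∃ q : ℚ_[p], algebraMap ℚ_[p] (PadicAlgCl p) q = ι s) : PRat ι P := by
  rcases P with _ | ⟨x, y, hn⟩
  · trivial
  · exact ⟨h x (by simp [coords]), h y (by simp [coords])⟩

lemma exists_y {k : Type*} [Field k] [IsAlgClosed k] {A B : k} [(Crv A B).IsElliptic] (x : k) :
    ∃ y : k, ∃ _ : (Crv A B).Nonsingular x y, True := by
  obtain ⟨y, hy⟩ := IsAlgClosed.exists_pow_nat_eq (x ^ 3 + A * x + B) (n := 2) (by norm_num)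
  exact ⟨y, nonsing_of_eq hy, trivial⟩

open Classical in
theorem core [(Crv A₁ B₁).IsElliptic] [(Crv A₂ B₂).IsElliptic] (a : (Crv A₁ B₁).Point)
    (F : Finset (Crv A₂ B₂).Point) :
    ∃ b : (Crv A₂ B₂).Point, symb a b = 0 ∧
      ∀ n : ℤ, n ≠ 0 → n • b ∉ AddSubgroup.closure (F : Set (Crv A₂ B₂).Point) := by
  obtain ⟨e₁, e₂, e₃, d₁, d₂, d₃, α, β, γ, he, hd, hα, h1, h2, h3, hγ⟩ :=
    exists_good_order (A₁ := A₁) (B₁ := B₁) (A₂ := A₂) (B₂ := B₂)
  obtain ⟨he12, he13, he23⟩ := he.ne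
  obtain ⟨hd12, hd13, hd23⟩ := hd.ne
  have hd3 : 3 * d₃ ^ 2 + A₂ = (d₁ - d₃) * (d₂ - d₃) := by
    rw [hd.hA]
    linear_combination 2 * d₃ * hd.sum
  have hd3' : 3 * d₃ ^ 2 + A₂ ≠ 0 := by
    rw [hd3]; exact mul_ne_zero (sub_ne_zero.mpr hd13) (sub_ne_zero.mpr hd23)
  obtain ⟨η, hη⟩ := IsAlgClosed.exists_pow_nat_eq (γ ^ 3 + A₁ * γ + B₁) (n := 2) (by norm_num)
  have hγ1 : γ ≠ e₁ := by
    intro h; apply hd13; rw [← h1, ← h3, h]
  have hγ2 : γ ≠ e₂ := by
    intro h; apply hd23; rw [← h2, ← h3, h]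
  have hη0 : η ≠ 0 := by
    intro h
    rw [h, he.factor] at hη
    have : (γ - e₁) * (γ - e₂) * (γ - e₃) = 0 := by rw [← hη]; ring
    rcases mul_eq_zero.mp this with h | h
    · rcases mul_eq_zero.mp h with h | h
      · exact hγ1 (sub_eq_zero.mp h)
      · exact hγ2 (sub_eq_zero.mp h)
    · exact hγ (sub_eq_zero.mp h)
  let S : Finset (AlgebraicClosure ℚ) := {A₁, B₁, A₂, B₂, e₁, e₂, e₃, e₁ - e₂, e₁ - e₃, e₂ - e₃,
    d₃, 3 * d₃ ^ 2 + A₂, α, β, γ, η} ∪ coords a ∪ F.biUnion coords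
  obtain ⟨p, hp, ι, hp2, hS⟩ := exists_embedding S 2
  have hp2' : p ≠ 2 := by omega
  set alg := algebraMap ℚ_[p] (PadicAlgCl p) with halg
  have hle : ∀ s ∈ S, ‖ι s‖ ≤ 1 := by
    intro s hs
    by_cases h0 : s = 0
    · simp [h0]
    · exact ((hS s hs).2 h0).le
  have hnorm : ∀ q : ℚ_[p], ‖alg q‖ = ‖q‖ := fun q => PadicAlgCl.norm_extends p q
  have hFr : ∀ P ∈ (F : Set (Crv A₂ B₂).Point), PRat ι P := by
    intro P hP
    apply PRat_of_coords
    intro s hs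
    refine (hS s ?_).1
    simp only [S, Finset.mem_union, Finset.mem_biUnion]
    exact Or.inr ⟨P, hP, hs⟩
  have mA₂ : A₂ ∈ S := by simp [S]
  have mB₂ : B₂ ∈ S := by simp [S]
  have md₃ : d₃ ∈ S := by simp [S]
  have mD : 3 * d₃ ^ 2 + A₂ ∈ S := by simp [S]
  -- the common last step
  have last : ∀ xb yb : AlgebraicClosure ℚ, ∀ hb : (Crv A₂ B₂).Nonsingular xb yb,
      (∃ q : ℚ_[p], alg q = ι xb) → ‖ι xb - ι d₃‖ = (p : ℝ)⁻¹ →
      ∀ n : ℤ, n ≠ 0 → n • (.some xb yb hb : (Crv A₂ B₂).Point) ∉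
        AddSubgroup.closure (F : Set (Crv A₂ B₂).Point) := by
    intro xb yb hb hx hxe n hn
    exact indep hp2' ι (hS _ mA₂).1 (hS _ mB₂).1 (hS _ md₃).1 (hle _ mA₂) (hle _ mB₂) (hle _ md₃)
      hd.root₃ ((hS _ mD).2 hd3') F hFr hb hx hxe n hn
  by_cases ha : ∃ n : ℕ, n ≠ 0 ∧ n • a = 0
  · -- torsion case
    obtain ⟨n, hn, hna⟩ := ha
    obtain ⟨y, hy, -⟩ := exists_y (A := A₂) (B := B₂) (d₃ + p)
    refine ⟨.some _ _ hy, symb_torsion hn hna _, last _ _ _ ?_ ?_⟩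
    · obtain ⟨q, hq⟩ := (hS _ md₃).1
      exact ⟨q + p, by rw [map_add, map_add, map_natCast, map_natCast, hq]⟩
    · rw [map_add, map_natCast, add_sub_cancel_left, ← map_natCast alg, hnorm]
      exact Padic.norm_p
  · -- points of infinite order
    push Not at ha
    have mem : ∀ s ∈ ({A₁, B₁, A₂, B₂, e₁, e₂, e₃, e₁ - e₂, e₁ - e₃, e₂ - e₃,
        d₃, 3 * d₃ ^ 2 + A₂, α, β, γ, η} : Finset (AlgebraicClosure ℚ)), s ∈ S := by
      intro s hs
      exact Finset.mem_union_left _ (Finset.mem_union_left _ hs)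
    have mA₁ : A₁ ∈ S := mem _ (by simp)
    have mB₁ : B₁ ∈ S := mem _ (by simp)
    have me₁ : e₁ ∈ S := mem _ (by simp)
    have me₂ : e₂ ∈ S := mem _ (by simp)
    have me₃ : e₃ ∈ S := mem _ (by simp)
    have me12 : e₁ - e₂ ∈ S := mem _ (by simp)
    have me13 : e₁ - e₃ ∈ S := mem _ (by simp)
    have me23 : e₂ - e₃ ∈ S := mem _ (by simp)
    have mα : α ∈ S := mem _ (by simp)
    have mβ : β ∈ S := mem _ (by simp)
    have mγ : γ ∈ S := mem _ (by simp)
    have mη : η ∈ S := mem _ (by simp)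
    obtain ⟨A₁', hA₁'⟩ := (hS _ mA₁).1
    obtain ⟨B₁', hB₁'⟩ := (hS _ mB₁).1
    obtain ⟨e₁', he₁'⟩ := (hS _ me₁).1
    obtain ⟨e₂', he₂'⟩ := (hS _ me₂).1
    obtain ⟨e₃', he₃'⟩ := (hS _ me₃).1
    obtain ⟨α', hα'⟩ := (hS _ mα).1
    obtain ⟨β', hβ'⟩ := (hS _ mβ).1
    obtain ⟨γ', hγ'⟩ := (hS _ mγ).1
    obtain ⟨η', hη'⟩ := (hS _ mη).1
    have hPa : PRat ι a := by
      apply PRat_of_coords
      intro s hs
      refine (hS s ?_).1
      exact Finset.mem_union_left _ (Finset.mem_union_right _ hs)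
    obtain ⟨a', ha'⟩ := exists_point_of_PRat ι hA₁' hB₁' a hPa
    have hinj : Function.Injective alg := alg.injective
    have hroots : Roots A₁' B₁' e₁' e₂' e₃' := by
      refine ⟨hinj ?_, hinj ?_, hinj ?_⟩
      · rw [map_add, map_add, he₁', he₂', he₃', ← map_add, ← map_add, he.sum, map_zero, map_zero]
      · rw [map_add, map_add, map_mul, map_mul, map_mul, he₁', he₂', he₃', hA₁', he.hA, map_add,
          map_add, map_mul, map_mul, map_mul]
      · rw [map_neg, map_mul, map_mul, he₁', he₂', he₃', hB₁', he.hB, map_neg, map_mul, map_mul]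
    have hna' : ∀ n : ℕ, n ≠ 0 → n • a' ≠ 0 := by
      intro n hn h
      apply ha n hn
      apply mapPt_injective ι rfl rfl
      rw [map_nsmul, ← ha', ← map_nsmul, h, map_zero, map_zero]
    have hns : (Crv A₁' B₁').Nonsingular γ' η' := by
      apply nonsing_of_map alg hA₁' hB₁'
      rw [hγ', hη']
      exact nonsing_map ι rfl rfl (nonsing_of_eq hη)
    have hn1 : ∀ (s : AlgebraicClosure ℚ) (q : ℚ_[p]), s ∈ S → alg q = ι s → ‖q‖ ≤ 1 := by
      intro s q hs hq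
      rw [← hnorm, hq]; exact hle s hs
    have hn2 : ∀ (s : AlgebraicClosure ℚ) (q : ℚ_[p]), s ∈ S → alg q = ι s → s ≠ 0 →
        ‖q‖ = 1 := by
      intro s q hs hq h0
      rw [← hnorm, hq]; exact (hS s hs).2 h0
    obtain ⟨x, y, hxy, M, M', hM, hM', hMc, hxγ⟩ := local_approx hp2' hroots
      (hn1 _ _ me₁ he₁') (hn1 _ _ me₂ he₂') (hn1 _ _ me₃ he₃')
      (hn2 _ _ me12 (by rw [map_sub, map_sub, he₁', he₂']) (sub_ne_zero.mpr he12))
      (hn2 _ _ me13 (by rw [map_sub, map_sub, he₁', he₃']) (sub_ne_zero.mpr he13))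
      (hn2 _ _ me23 (by rw [map_sub, map_sub, he₂', he₃']) (sub_ne_zero.mpr he23))
      hns (hn1 _ _ mγ hγ') (hn2 _ _ mη hη' hη0) a' hna'
    obtain ⟨c, hc⟩ := algebraic_of_nsmul ι (A := A₁) (B := B₁)
      (mapPt alg hA₁' hB₁' (.some x y hxy)) (M' • a) M hM (by
        rw [← map_nsmul, hMc, map_nsmul, ha', ← map_nsmul])
    have hMc' : M • c = M' • a := by
      apply mapPt_injective ι rfl rfl
      rw [map_nsmul, hc, ← map_nsmul, hMc, map_nsmul, ha', ← map_nsmul]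
    rcases c with _ | ⟨xc, yc, hcn⟩
    · exact absurd hc (by rintro ⟨⟩)
    · rw [mapPt_some, mapPt_some, Point.some.injEq] at hc
      obtain ⟨hxc, -⟩ := hc
      obtain ⟨yb, hyb, -⟩ := exists_y (A := A₂) (B := B₂) (α * xc + β)
      refine ⟨.some _ _ hyb, symb_of_dependent hM' hMc'
        (symb_hyper he hd hα h1 h2 h3 hγ hcn hyb rfl), last _ _ _ ?_ ?_⟩
      · exact ⟨α' * x + β', by
          rw [map_add, map_mul, map_add, map_mul, ← hxc, hα', hβ']⟩
      · have e1 : ι (α * xc + β) - ι d₃ = alg (α' * (x - γ')) := by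
          rw [← h3]
          rw [map_add, map_mul, map_add, map_mul, map_mul, map_sub, hα', hγ', ← hxc]
          ring
        rw [e1, hnorm, norm_mul, hn2 _ _ mα hα' hα, one_mul, hxγ]

end core

end AlbCH
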