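import Mathlib

/-!
# The Chow group `CH₀(E₁ × E₂) ⊗ ℚ` of a product of two elliptic curves

`k` is a field (algebraically closed in all applications, `k = ℚ̄` in the main theorem),
`E₁ : y² = x³ + A₁x + B₁` and `E₂ : y² = x³ + A₂x + B₂` are elliptic curves over `k`.

* `K = k(t)` is the function field of the projective line, `Ω` an algebraic closure of `K`.
* A *place* of `Ω/k` is a valuation ring of `Ω` containing `k`, together with a residue map
  onto `k` which is the identity on `k`.  It restricts to the place of `k(t)` belonging to a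
  point `t₀` of `ℙ¹(k)`.
* A place `π` specialises a point of `E(Ω)` to a point of `E(k)` (reduce the coordinates, or the
  point at infinity if the coordinates are not in the valuation ring).
* The irreducible curves `V ⊆ E₁ × E₂ × ℙ¹` which dominate `ℙ¹` correspond to the orbits `O` of
  `Gal(Ω/K)` on `(E₁ × E₂)(Ω)`, and the zero-cycle `V(t₀)`, the fibre of `V` over `t₀`, is
  `∑_{Q ∈ O} [π(Q)]` for any place `π` over `t₀`.
* By definition `CH₀(E₁ × E₂) ⊗ ℚ` is the `ℚ`-vector space on the points of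
  `E₁(k) × E₂(k)` modulo the span of all `V(t₀) - V(t₁)`.
-/

namespace AlbCH

open WeierstrassCurve WeierstrassCurve.Affine

/-- The curve `y² = x³ + A x + B`. -/
abbrev Crv {F : Type*} [CommRing F] (A B : F) : WeierstrassCurve.Affine F :=
  (⟨0, 0, 0, A, B⟩ : WeierstrassCurve F)

section basic

variable {F K : Type*} [Field F] [Field K]

lemma crv_equation {A B x y : F} : (Crv A B).Equation x y ↔ y ^ 2 = x ^ 3 + A * x + B := by
  rw [equation_iff]; simp

lemma crv_nonsing {A B x y : F} : (Crv A B).Nonsingular x y ↔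
    y ^ 2 = x ^ 3 + A * x + B ∧ (0 ≠ 3 * x ^ 2 + A ∨ y ≠ -y) := by
  rw [nonsingular_iff, crv_equation]; simp

lemma nonsing_map (f : F →+* K) {A B : F} {A' B' : K} (hA : f A = A') (hB : f B = B')
    {x y : F} (h : (Crv A B).Nonsingular x y) : (Crv A' B').Nonsingular (f x) (f y) := by
  rw [crv_nonsing] at h ⊢
  subst hA hB
  refine ⟨by rw [← map_pow, h.1]; simp, ?_⟩
  rcases h.2 with h2 | h2
  · left; intro h3; apply h2; apply f.injective
    rw [map_zero, map_add, map_mul, map_pow, map_ofNat]; exact h3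
  · right; intro h3; apply h2; apply f.injective; simpa using h3

variable [DecidableEq F] [DecidableEq K]

/-- The map on points induced by a homomorphism of fields, `(x, y) ↦ (f x, f y)`. -/
noncomputable def mapPt (f : F →+* K) {A B : F} {A' B' : K} (hA : f A = A') (hB : f B = B') :
    (Crv A B).Point →+ (Crv A' B').Point where
  toFun P := match P with
    | .zero => .zero
    | .some x y h => .some (f x) (f y) (nonsing_map f hA hB h)
  map_zero' := rfl
  map_add' := by
    subst hA hB
    rintro (_ | ⟨x₁, y₁, h₁⟩) (_ | ⟨x₂, y₂, h₂⟩)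
    any_goals rfl
    have hslope : (Crv (f A) (f B)).slope (f x₁) (f x₂) (f y₁) (f y₂)
        = f ((Crv A B).slope x₁ x₂ y₁ y₂) := by
      have := map_slope (W := Crv A B) f x₁ x₂ y₁ y₂
      simpa [WeierstrassCurve.map] using this
    by_cases hxy : x₁ = x₂ ∧ y₁ = (Crv A B).negY x₂ y₂
    · rw [Point.add_of_Y_eq hxy.1 hxy.2]
      rw [Point.add_of_Y_eq (congrArg f hxy.1) (by rw [hxy.2]; simp)]
      rfl
    · have hxy' : ¬(f x₁ = f x₂ ∧ f y₁ = (Crv (f A) (f B)).negY (f x₂) (f y₂)) := by
        rintro ⟨h3, h4⟩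
        refine hxy ⟨f.injective h3, f.injective ?_⟩
        simpa using h4
      rw [Point.add_some hxy, Point.add_some hxy']
      simp only [Point.some.injEq, hslope]
      constructor
      · simp
      · simp [addY]

@[simp] lemma mapPt_zero (f : F →+* K) {A B : F} {A' B' : K} (hA : f A = A') (hB : f B = B') :
    mapPt f hA hB 0 = 0 := rfl

@[simp] lemma mapPt_some (f : F →+* K) {A B : F} {A' B' : K} (hA : f A = A') (hB : f B = B')
    {x y : F} (h : (Crv A B).Nonsingular x y) :
    mapPt f hA hB (.some x y h) = .some (f x) (f y) (nonsing_map f hA hB h) := rfl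

end basic

section places

/-- `Ω`: an algebraic closure of the function field `k(t)` of the projective line. -/
abbrev Om (k : Type*) [Field k] := AlgebraicClosure (RatFunc k)

/-- A place of `Ω` over `k`, with values in `k`. -/
structure Place (k : Type*) [Field k] where
  /-- the valuation ring -/
  ring : ValuationSubring (Om k)
  /-- the residue map -/
  res : ring →+* k
  mem_const : ∀ c : k, algebraMap k (Om k) c ∈ ring
  res_const : ∀ c : k, res ⟨algebraMap k (Om k) c, mem_const c⟩ = c

variable {k : Type*} [Field k]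

/-- The curve `y² = x³ + A x + B` with coefficients in `k`, considered over `Ω`. -/
noncomputable abbrev CrvOm (A B : k) : WeierstrassCurve.Affine (Om k) :=
  Crv (algebraMap k (Om k) A) (algebraMap k (Om k) B)

lemma Place.res_equation (π : Place k) {A B : k} {x y : Om k}
    (h : (CrvOm A B).Nonsingular x y) (hx : x ∈ π.ring) (hy : y ∈ π.ring) :
    (Crv A B).Equation (π.res ⟨x, hx⟩) (π.res ⟨y, hy⟩) := by
  rw [crv_equation]
  have h1 := (crv_nonsing.mp h).1
  have h2 : (⟨y, hy⟩ : π.ring) ^ 2 = (⟨x, hx⟩ : π.ring) ^ 3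
      + (⟨algebraMap k (Om k) A, π.mem_const A⟩ : π.ring) * ⟨x, hx⟩
      + (⟨algebraMap k (Om k) B, π.mem_const B⟩ : π.ring) := by
    apply Subtype.ext
    simpa using h1
  have h3 := congrArg π.res h2
  rw [map_pow, map_add, map_add, map_pow, map_mul, π.res_const, π.res_const] at h3
  exact h3

open Classical in
/-- The specialisation `E(Ω) → E(k)` at a place: reduce both coordinates if they are in the
valuation ring; otherwise the point at infinity. -/
noncomputable def Place.sp (π : Place k) {A B : k} [(Crv A B).IsElliptic] :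
    (CrvOm A B).Point → (Crv A B).Point
  | .zero => .zero
  | .some x y h =>
    if hxy : x ∈ π.ring ∧ y ∈ π.ring then Point.mk (π.res_equation h hxy.1 hxy.2) else .zero

/-- The action of `Gal(Ω/k(t))` on `E(Ω)`. -/
noncomputable def gal {A B : k} (σ : Om k ≃ₐ[RatFunc k] Om k) :
    (CrvOm A B).Point → (CrvOm A B).Point
  | .zero => .zero
  | .some x y h => .some (σ x) (σ y) (nonsing_map (σ : Om k →+* Om k)
      (by rw [IsScalarTower.algebraMap_apply k (RatFunc k) (Om k)]; exact σ.commutes _)
      (by rw [IsScalarTower.algebraMap_apply k (RatFunc k) (Om k)]; exact σ.commutes _) h)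

end places

section chow

variable {k : Type*} [Field k] (A₁ B₁ A₂ B₂ : k)

/-- A finite subset of `(E₁ × E₂)(Ω)` which is an orbit of `Gal(Ω/k(t))`. -/
def IsOrbit (O : Finset ((CrvOm A₁ B₁).Point × (CrvOm A₂ B₂).Point)) : Prop :=
  ∃ Q₀ : (CrvOm A₁ B₁).Point × (CrvOm A₂ B₂).Point,
    ∀ Q, Q ∈ O ↔ ∃ σ : Om k ≃ₐ[RatFunc k] Om k, Q = (gal σ Q₀.1, gal σ Q₀.2)

variable [(Crv A₁ B₁).IsElliptic] [(Crv A₂ B₂).IsElliptic]

/-- Zero-cycles with rational coefficients on `E₁ × E₂`. -/
abbrev Z0 := ((Crv A₁ B₁).Point × (Crv A₂ B₂).Point) →₀ ℚ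

/-- The rational zero-cycles which are rationally equivalent to zero: the span of the cycles
`V(t₀) - V(t₁)`. -/
noncomputable def ratEquiv : Submodule ℚ (Z0 A₁ B₁ A₂ B₂) :=
  Submodule.span ℚ {r | ∃ (O : Finset ((CrvOm A₁ B₁).Point × (CrvOm A₂ B₂).Point))
    (π₀ π₁ : Place k), IsOrbit A₁ B₁ A₂ B₂ O ∧
    r = ∑ Q ∈ O, (Finsupp.single (π₀.sp Q.1, π₀.sp Q.2) 1
      - Finsupp.single (π₁.sp Q.1, π₁.sp Q.2) 1)}

/-- The Chow group `CH₀(E₁ × E₂) ⊗ ℚ`. -/
abbrev CH0Q := Z0 A₁ B₁ A₂ B₂ ⧸ ratEquiv A₁ B₁ A₂ B₂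

variable {A₁ B₁ A₂ B₂}

/-- The class of a point. -/
noncomputable def cl (a : (Crv A₁ B₁).Point) (b : (Crv A₂ B₂).Point) : CH0Q A₁ B₁ A₂ B₂ :=
  Submodule.Quotient.mk (Finsupp.single (a, b) 1)

/-- The class `{a, b} = [(a,b)] - [(a,O)] - [(O,b)] + [(O,O)]`. It lies in the kernel of the
Albanese map, and these classes span this kernel. -/
noncomputable def symb (a : (Crv A₁ B₁).Point) (b : (Crv A₂ B₂).Point) : CH0Q A₁ B₁ A₂ B₂ :=
  cl a b - cl a 0 - cl 0 b + cl 0 0

end chow

end AlbCH
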