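import Pool.Agent.Lib.MP_2eeeac_ag.FA

/-!
# Module FB : the parameter `z` is additive up to fourth order (helper37)
-/

set_option autoImplicit false
set_option linter.unusedSectionVars false

namespace AlbCH

open WeierstrassCurve WeierstrassCurve.Affine

section formal

variable {K Γ₀ : Type*} [Field K] [DecidableEq K] [LinearOrderedCommGroupWithZero Γ₀]
  (v : Valuation K Γ₀) {A B : K}

theorem sq_le_one_imp {a : Γ₀} (h : a ^ 2 ≤ 1) : a ≤ 1 := by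
  by_contra hc
  rw [not_le] at hc
  exact absurd (one_lt_pow₀ hc two_ne_zero) (not_lt.2 h)

theorem sq_eq_one_imp {a : Γ₀} (h : a ^ 2 = 1) : a = 1 := by
  refine le_antisymm (sq_le_one_imp h.le) ?_
  by_contra hc
  rw [not_le] at hc
  exact absurd h (pow_lt_one₀ zero_le hc two_ne_zero).ne

omit [DecidableEq K] in
theorem zeta_rel {x y : K} (hx : 1 < v x) (hv : v y ^ 2 = v x ^ 3) :
    v x ≠ 0 ∧ v y ≠ 0 ∧ v (x / y) ^ 2 * v x = 1 ∧ v (x / y) ^ 3 * v y = 1 ∧ v (x / y) < 1 := by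
  have h0 : v x ≠ 0 := (zero_lt_one.trans hx).ne'
  have h1 : v y ≠ 0 := by
    intro h
    rw [h, zero_pow two_ne_zero] at hv
    exact pow_ne_zero 3 h0 hv.symm
  have h2 : v (x / y) ^ 2 * v x = 1 := by
    rw [map_div₀, div_pow, hv]; field_simp
  refine ⟨h0, h1, h2, ?_, ?_⟩
  · rw [map_div₀, div_pow, ← hv]; field_simp
  · by_contra hcon
    rw [not_lt] at hcon
    have h3 : 1 ≤ v (x / y) ^ 2 := one_le_pow₀ hcon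
    have h4 : 1 < v (x / y) ^ 2 * v x :=
      lt_of_lt_of_le hx (le_mul_of_one_le_left' h3)
    exact h4.ne' h2

omit [DecidableEq K] in
/-- the key estimate, if the first point has the smallest parameter -/
theorem core_est (hA : v A ≤ 1) (hB : v B ≤ 1) {l m x₁ y₁ x₂ y₂ x₃ y₃ : K}
    (hx1 : 1 < v x₁) (hx2 : 1 < v x₂) (hx3 : 1 < v x₃)
    (hv1 : v y₁ ^ 2 = v x₁ ^ 3) (hv2 : v y₂ ^ 2 = v x₂ ^ 3) (hv3 : v y₃ ^ 2 = v x₃ ^ 3)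
    (e1 : y₁ = l * x₁ + m) (e2 : y₂ = l * x₂ + m) (e3 : y₃ = l * x₃ + m)
    (s1 : x₁ + x₂ + x₃ = l ^ 2) (s2 : x₁ * x₂ + x₁ * x₃ + x₂ * x₃ = A - 2 * l * m)
    (s3 : x₁ * x₂ * x₃ = m ^ 2 - B)
    (h12 : v x₂ ≤ v x₁) (h13 : v x₃ ≤ v x₁) (ρ : Γ₀) (h₁ : v (x₁ / y₁) ≤ ρ)
    (h₂ : v (x₂ / y₂) ≤ ρ) (h₃ : v (x₃ / y₃) ≤ ρ) :
    v (x₁ / y₁ + x₂ / y₂ + x₃ / y₃) ≤ v (x₁ / y₁) * ρ ^ 4 ∧
    v (x₁ / y₁ + x₂ / y₂ + x₃ / y₃) ≤ v (x₂ / y₂) * ρ ^ 4 ∧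
    v (x₁ / y₁ + x₂ / y₂ + x₃ / y₃) ≤ v (x₃ / y₃) * ρ ^ 4 := by
  classical
  obtain ⟨a1, b1, c1, d1, f1⟩ := zeta_rel v hx1 hv1
  obtain ⟨a2, b2, c2, d2, f2⟩ := zeta_rel v hx2 hv2
  obtain ⟨a3, b3, c3, d3, f3⟩ := zeta_rel v hx3 hv3
  have hy1 : y₁ ≠ 0 := fun h => b1 (by rw [h, map_zero])
  have hy2 : y₂ ≠ 0 := fun h => b2 (by rw [h, map_zero])
  have hy3 : y₃ ≠ 0 := fun h => b3 (by rw [h, map_zero])
  have hid : (x₁ / y₁ + x₂ / y₂ + x₃ / y₃) * (y₁ * y₂ * y₃) =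
      2 * A * l * m - 3 * B * l ^ 2 := by
    have h1 : (x₁ / y₁ + x₂ / y₂ + x₃ / y₃) * (y₁ * y₂ * y₃) =
        x₁ * y₂ * y₃ + x₂ * y₁ * y₃ + x₃ * y₁ * y₂ := by
      field_simp
    rw [h1, e1, e2, e3]
    linear_combination (3 * l ^ 2) * s3 + (2 * l * m) * s2 + m ^ 2 * s1
  set z1 := v (x₁ / y₁) with hz1
  set z2 := v (x₂ / y₂) with hz2
  set z3 := v (x₃ / y₃) with hz3
  have hl : v l * z1 ≤ 1 := by
    refine sq_le_one_imp ?_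
    rw [mul_pow]
    have : v l ^ 2 ≤ v x₁ := by
      rw [← map_pow, ← s1]
      exact v.map_add_le (v.map_add_le le_rfl h12) h13
    calc v l ^ 2 * z1 ^ 2 ≤ v x₁ * z1 ^ 2 := mul_le_mul_left this _
      _ = 1 := by rw [mul_comm]; exact c1
  have hm : v m * (z1 * z2 * z3) = 1 := by
    refine sq_eq_one_imp ?_
    have h1 : v m ^ 2 = v x₁ * v x₂ * v x₃ := by
      have h2 : m ^ 2 = x₁ * x₂ * x₃ + B := by rw [s3]; ring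
      have h3 : v B < v (x₁ * x₂ * x₃) := by
        rw [map_mul, map_mul]
        refine hB.trans_lt ?_
        exact one_lt_mul'' (one_lt_mul'' hx1 hx2) hx3
      rw [← map_pow, h2, Valuation.map_add_eq_of_lt_left v h3, map_mul, map_mul]
    rw [mul_pow, h1]
    calc v x₁ * v x₂ * v x₃ * (z1 * z2 * z3) ^ 2
        = (z1 ^ 2 * v x₁) * (z2 ^ 2 * v x₂) * (z3 ^ 2 * v x₃) := by
          rw [mul_pow, mul_pow]; ac_rfl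
      _ = 1 := by rw [c1, c2, c3, one_mul, one_mul]
  have hZ1 : z1 * z2 * z3 ≤ z1 := by
    rw [mul_assoc]
    exact mul_le_of_le_one_right' (mul_le_one' f2.le f3.le)
  -- the sum
  have hsum : v (x₁ / y₁ + x₂ / y₂ + x₃ / y₃) ≤ z1 * z2 ^ 2 * z3 ^ 2 := by
    have h1 : v (x₁ / y₁ + x₂ / y₂ + x₃ / y₃) =
        v (2 * A * l * m - 3 * B * l ^ 2) * (z1 * z2 * z3) ^ 3 := by
      rw [← hid, map_mul, map_mul, map_mul]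
      calc v (x₁ / y₁ + x₂ / y₂ + x₃ / y₃)
          = v (x₁ / y₁ + x₂ / y₂ + x₃ / y₃) * ((z1 ^ 3 * v y₁) * (z2 ^ 3 * v y₂) *
            (z3 ^ 3 * v y₃)) := by rw [d1, d2, d3, one_mul, one_mul, mul_one]
        _ = _ := by rw [mul_pow, mul_pow]; ac_rfl
    rw [h1]
    have h2 : v (2 * A * l * m - 3 * B * l ^ 2) ≤ max (v l * v m) (v l ^ 2) := by
      refine (v.map_sub _ _).trans (max_le_max ?_ ?_)
      · rw [map_mul, map_mul, map_mul]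
        refine mul_le_mul' ?_ le_rfl
        exact mul_le_of_le_one_left' (mul_le_one' (val_two_le_one v) hA)
      · rw [map_mul, map_mul, map_pow]
        exact mul_le_of_le_one_left' (mul_le_one' (val_three_le_one v) hB)
    refine (mul_le_mul' h2 le_rfl).trans ?_
    have h3 : v l * (z1 * z2 * z3) ^ 2 ≤ z1 * z2 ^ 2 * z3 ^ 2 := by
      calc v l * (z1 * z2 * z3) ^ 2 = (v l * z1) * (z1 * z2 ^ 2 * z3 ^ 2) := by
            rw [mul_pow, mul_pow, sq z1]; ac_rfl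
        _ ≤ z1 * z2 ^ 2 * z3 ^ 2 := mul_le_of_le_one_left' hl
    rcases max_cases (v l * v m) (v l ^ 2) with ⟨h4, _⟩ | ⟨h4, _⟩
    · rw [h4]
      calc v l * v m * (z1 * z2 * z3) ^ 3
          = (v m * (z1 * z2 * z3)) * (v l * (z1 * z2 * z3) ^ 2) := by
            rw [pow_succ (z1 * z2 * z3) 2]; ac_rfl
        _ = v l * (z1 * z2 * z3) ^ 2 := by rw [hm, one_mul]
        _ ≤ _ := h3
    · rw [h4]
      calc v l ^ 2 * (z1 * z2 * z3) ^ 3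
          = (v l * (z1 * z2 * z3)) * (v l * (z1 * z2 * z3) ^ 2) := by
            rw [pow_succ (z1 * z2 * z3) 2, sq (v l)]; ac_rfl
        _ ≤ v l * (z1 * z2 * z3) ^ 2 :=
            mul_le_of_le_one_left' ((mul_le_mul' le_rfl hZ1).trans hl)
        _ ≤ _ := h3
  refine ⟨hsum.trans ?_, hsum.trans ?_, hsum.trans ?_⟩
  · calc z1 * z2 ^ 2 * z3 ^ 2 = z1 * (z2 ^ 2 * z3 ^ 2) := by ac_rfl
      _ ≤ z1 * (ρ ^ 2 * ρ ^ 2) := mul_le_mul' le_rfl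
          (mul_le_mul' (pow_le_pow_left' h₂ 2) (pow_le_pow_left' h₃ 2))
      _ = z1 * ρ ^ 4 := by rw [← pow_add]
  · calc z1 * z2 ^ 2 * z3 ^ 2 = z2 * ((z1 * z2) * z3 ^ 2) := by rw [sq z2]; ac_rfl
      _ ≤ z2 * ((ρ * ρ) * ρ ^ 2) := mul_le_mul' le_rfl
          (mul_le_mul' (mul_le_mul' h₁ h₂) (pow_le_pow_left' h₃ 2))
      _ = z2 * ρ ^ 4 := by rw [← sq, ← pow_add]
  · calc z1 * z2 ^ 2 * z3 ^ 2 = z3 * ((z1 * z3) * z2 ^ 2) := by rw [sq z3]; ac_rfl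
      _ ≤ z3 * ((ρ * ρ) * ρ ^ 2) := mul_le_mul' le_rfl
          (mul_le_mul' (mul_le_mul' h₁ h₃) (pow_le_pow_left' h₂ 2))
      _ = z3 * ρ ^ 4 := by rw [← sq, ← pow_add]

omit [DecidableEq K] in
/-- the key estimate without order -/
theorem core_est' (hA : v A ≤ 1) (hB : v B ≤ 1) {l m x₁ y₁ x₂ y₂ x₃ y₃ : K}
    (hx1 : 1 < v x₁) (hx2 : 1 < v x₂) (hx3 : 1 < v x₃)
    (hv1 : v y₁ ^ 2 = v x₁ ^ 3) (hv2 : v y₂ ^ 2 = v x₂ ^ 3) (hv3 : v y₃ ^ 2 = v x₃ ^ 3)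
    (e1 : y₁ = l * x₁ + m) (e2 : y₂ = l * x₂ + m) (e3 : y₃ = l * x₃ + m)
    (s1 : x₁ + x₂ + x₃ = l ^ 2) (s2 : x₁ * x₂ + x₁ * x₃ + x₂ * x₃ = A - 2 * l * m)
    (s3 : x₁ * x₂ * x₃ = m ^ 2 - B) (ρ : Γ₀) (h₁ : v (x₁ / y₁) ≤ ρ)
    (h₂ : v (x₂ / y₂) ≤ ρ) (h₃ : v (x₃ / y₃) ≤ ρ) :
    v (x₁ / y₁ + x₂ / y₂ + x₃ / y₃) ≤ v (x₁ / y₁) * ρ ^ 4 ∧
    v (x₁ / y₁ + x₂ / y₂ + x₃ / y₃) ≤ v (x₂ / y₂) * ρ ^ 4 ∧
    v (x₁ / y₁ + x₂ / y₂ + x₃ / y₃) ≤ v (x₃ / y₃) * ρ ^ 4 := by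
  have hcase : (v x₂ ≤ v x₁ ∧ v x₃ ≤ v x₁) ∨ (v x₁ ≤ v x₂ ∧ v x₃ ≤ v x₂) ∨
      (v x₁ ≤ v x₃ ∧ v x₂ ≤ v x₃) := by
    rcases le_total (v x₂) (v x₁) with h | h <;> rcases le_total (v x₃) (v x₁) with h' | h' <;>
      rcases le_total (v x₃) (v x₂) with h'' | h''
    · exact Or.inl ⟨h, h'⟩
    · exact Or.inl ⟨h, h'⟩
    · exact Or.inr (Or.inr ⟨h', h.trans h'⟩)
    · exact Or.inr (Or.inr ⟨h', h''⟩)
    · exact Or.inr (Or.inl ⟨h, h''⟩)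
    · exact Or.inr (Or.inl ⟨h, h'.trans h⟩)
    · exact Or.inr (Or.inl ⟨h, h''⟩)
    · exact Or.inr (Or.inr ⟨h', h''⟩)
  rcases hcase with ⟨ha, hb⟩ | ⟨ha, hb⟩ | ⟨ha, hb⟩
  · exact core_est v hA hB hx1 hx2 hx3 hv1 hv2 hv3 e1 e2 e3 s1 s2 s3 ha hb ρ h₁ h₂ h₃
  · obtain ⟨r1, r2, r3⟩ := core_est v hA hB hx2 hx1 hx3 hv2 hv1 hv3 e2 e1 e3
      (by rw [← s1]; ring) (by rw [← s2]; ring) (by rw [← s3]; ring) ha hb ρ h₂ h₁ h₃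
    have hs : x₂ / y₂ + x₁ / y₁ + x₃ / y₃ = x₁ / y₁ + x₂ / y₂ + x₃ / y₃ := by ring
    rw [hs] at r1 r2 r3
    exact ⟨r2, r1, r3⟩
  · obtain ⟨r1, r2, r3⟩ := core_est v hA hB hx3 hx1 hx2 hv3 hv1 hv2 e3 e1 e2
      (by rw [← s1]; ring) (by rw [← s2]; ring) (by rw [← s3]; ring) ha hb ρ h₃ h₁ h₂
    have hs : x₃ / y₃ + x₁ / y₁ + x₂ / y₂ = x₁ / y₁ + x₂ / y₂ + x₃ / y₃ := by ring
    rw [hs] at r1 r2 r3
    exact ⟨r2, r3, r1⟩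

theorem zz_add_est (hA : v A ≤ 1) (hB : v B ≤ 1) {P Q : (Crv A B).Point} (hP : InG v P)
    (hQ : InG v Q) (ρ : Γ₀) (h₁ : v (zz P) ≤ ρ) (h₂ : v (zz Q) ≤ ρ) :
    v (zz (P + Q)) ≤ ρ ∧ v (zz (P + Q) - zz P - zz Q) ≤ v (zz P) * ρ ^ 4 ∧
    v (zz (P + Q) - zz P - zz Q) ≤ v (zz Q) * ρ ^ 4 ∧
    v (zz (P + Q) - zz P - zz Q) ≤ v (zz (P + Q)) * ρ ^ 4 := by
  have hsub := InG.add v hA hB hP hQ
  by_cases hP0 : P = 0
  · subst hP0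
    rw [zero_add, zz_zero, sub_zero, sub_self, map_zero]
    exact ⟨h₂, zero_le, zero_le, zero_le⟩
  by_cases hQ0 : Q = 0
  · subst hQ0
    rw [add_zero, zz_zero, sub_zero, sub_self, map_zero]
    exact ⟨h₁, zero_le, zero_le, zero_le⟩
  by_cases hPQ : P + Q = 0
  · have : Q = -P := by rw [eq_neg_iff_add_eq_zero, add_comm]; exact hPQ
    rw [hPQ, this, zz_zero, zz_neg, zero_sub, sub_neg_eq_add, neg_add_cancel, map_zero]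
    exact ⟨zero_le, zero_le, zero_le, zero_le⟩
  cases P with
  | zero => exact absurd rfl hP0
  | some x₁ y₁ n₁ =>
  cases Q with
  | zero => exact absurd rfl hQ0
  | some x₂ y₂ n₂ =>
  have hxy : ¬(x₁ = x₂ ∧ y₁ = -y₂) := by
    intro hxy
    refine hPQ (Point.add_of_Y_eq hxy.1 ?_)
    simpa [negY] using hxy.2
  obtain ⟨l, m, x₃, y₃, n₃, hadd, e1, e2, e3, s1, s2, s3⟩ := exists_line n₁ n₂ hxy
  rw [hadd] at hsub ⊢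
  have hv1 := InG.val_y v hA hB hP
  have hv2 := InG.val_y v hA hB hQ
  have hv3 := InG.val_y v hA hB hsub
  rw [Valuation.map_neg] at hv3
  have hx1 : 1 < v x₁ := hP
  have hx2 : 1 < v x₂ := hQ
  have hx3 : 1 < v x₃ := hsub
  have hz1 : zz (.some x₁ y₁ n₁ : (Crv A B).Point) = x₁ / y₁ := rfl
  have hz2 : zz (.some x₂ y₂ n₂ : (Crv A B).Point) = x₂ / y₂ := rfl
  have hz3 : zz (.some x₃ (-y₃) n₃ : (Crv A B).Point) = -(x₃ / y₃) := by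
    change x₃ / (-y₃) = _
    rw [div_neg]
  rw [hz1] at h₁
  rw [hz2] at h₂
  rw [hz1, hz2, hz3, Valuation.map_neg]
  have hdiff : v (-(x₃ / y₃) - x₁ / y₁ - x₂ / y₂) = v (x₁ / y₁ + x₂ / y₂ + x₃ / y₃) := by
    rw [← Valuation.map_neg]
    congr 1
    ring
  rw [hdiff]
  have h₃ : v (x₃ / y₃) ≤ ρ := by
    by_contra hcon
    rw [not_le] at hcon
    have hlt := (zeta_rel v hx3 hv3).2.2.2.2
    obtain ⟨-, -, r3⟩ := core_est' v hA hB hx1 hx2 hx3 hv1 hv2 hv3 e1 e2 e3 s1 s2 s3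
      (v (x₃ / y₃)) (h₁.trans hcon.le) (h₂.trans hcon.le) le_rfl
    have h4 : v (x₁ / y₁ + x₂ / y₂ + x₃ / y₃) = v (x₃ / y₃) := by
      refine Valuation.map_add_eq_of_lt_right v ?_
      exact (v.map_add_le h₁ h₂).trans_lt hcon
    rw [h4] at r3
    have hpos : 0 < v (x₃ / y₃) := lt_of_le_of_lt zero_le hcon
    have h5 : v (x₃ / y₃) * v (x₃ / y₃) ^ 4 < v (x₃ / y₃) :=
      mul_lt_of_lt_one_right hpos (pow_lt_one₀ zero_le hlt (by norm_num))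
    exact absurd h5 (not_lt.2 r3)
  obtain ⟨r1, r2, r3⟩ := core_est' v hA hB hx1 hx2 hx3 hv1 hv2 hv3 e1 e2 e3 s1 s2 s3
      ρ h₁ h₂ h₃
  exact ⟨h₃, r1, r2, r3⟩

end formal

end AlbCH
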