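import Pool.Agent.Lib.MP_2eeeac_ag.FB

/-!
# The formal group of a curve over a valued field: differences and multiples (module FC)
-/

namespace AlbCH

open WeierstrassCurve WeierstrassCurve.Affine
open scoped NNReal

section FC

variable {K Γ₀ : Type*} [Field K] [DecidableEq K] [LinearOrderedCommGroupWithZero Γ₀]
  (v : Valuation K Γ₀) {A B : K}

theorem InG.sub (hA : v A ≤ 1) (hB : v B ≤ 1) {P Q : (Crv A B).Point} (hP : InG v P)
    (hQ : InG v Q) : InG v (P - Q) := by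
  rw [sub_eq_add_neg]
  exact InG.add v hA hB hP (InG.neg v hQ)

theorem InG.nsmul (hA : v A ≤ 1) (hB : v B ≤ 1) {P : (Crv A B).Point} (hP : InG v P) (m : ℕ) :
    InG v (m • P) := by
  induction m with
  | zero => rw [zero_smul]; exact inG_zero v
  | succ m ih => rw [succ_nsmul]; exact InG.add v hA hB ih hP

theorem zz_sub (hA : v A ≤ 1) (hB : v B ≤ 1) {P Q : (Crv A B).Point} (hP : InG v P)
    (hQ : InG v Q) : v (zz (P - Q)) = v (zz P - zz Q) := by
  have hQ' := InG.neg v hQ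
  have hp := InG.zz_lt v hA hB hP
  have hq := InG.zz_lt v hA hB hQ'
  set ρ := max (v (zz P)) (v (zz (-Q))) with hρ
  have hρ1 : ρ < 1 := max_lt hp hq
  have h := (zz_add_est v hA hB hP hQ' ρ (le_max_left _ _) (le_max_right _ _)).2.2.2
  rw [← sub_eq_add_neg, zz_neg, sub_neg_eq_add] at h
  have e : zz (P - Q) - zz P + zz Q = zz (P - Q) - (zz P - zz Q) := by ring
  rw [e] at h
  by_cases h0 : v (zz (P - Q)) = 0
  · rw [h0, zero_mul, le_zero_iff, v.zero_iff, sub_eq_zero] at h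
    rw [h]
  · have h1 : v (zz (P - Q) - (zz P - zz Q)) < v (zz (P - Q)) := by
      refine lt_of_le_of_lt h ?_
      have h2 : ρ ^ 4 < 1 := pow_lt_one₀ zero_le hρ1 (by norm_num)
      calc v (zz (P - Q)) * ρ ^ 4 < v (zz (P - Q)) * 1 :=
            mul_lt_mul_of_pos_left h2 (zero_lt_iff.2 h0)
        _ = _ := mul_one _
    have h2 := v.map_sub_eq_of_lt_right (x := zz (P - Q) - (zz P - zz Q)) (y := zz (P - Q)) h1
    rw [sub_sub_cancel_left, v.map_neg] at h2
    exact h2.symm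

theorem zz_nsmul_est (hA : v A ≤ 1) (hB : v B ≤ 1) {P : (Crv A B).Point} (hP : InG v P) (m : ℕ) :
    v (zz (m • P)) ≤ v (zz P) ∧ v (zz (m • P) - m * zz P) ≤ v (zz P) ^ 5 := by
  induction m with
  | zero =>
    rw [zero_smul, zz_zero]
    simp
  | succ m ih =>
    have h := zz_add_est v hA hB (InG.nsmul v hA hB hP m) hP (v (zz P)) ih.1 le_rfl
    rw [succ_nsmul]
    refine ⟨h.1, ?_⟩
    have e : zz (m • P + P) - ((m + 1 : ℕ) : K) * zz P =
        (zz (m • P + P) - zz (m • P) - zz P) + (zz (m • P) - m * zz P) := by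
      push_cast; ring
    rw [e]
    refine v.map_add_le ?_ ih.2
    refine h.2.2.1.trans (le_of_eq ?_)
    exact (pow_succ' _ 4).symm

theorem zz_nsmul_eq (hA : v A ≤ 1) (hB : v B ≤ 1) {P : (Crv A B).Point} (hP : InG v P) (m : ℕ)
    (hm : v (zz P) ^ 4 < v (m : K)) : v (zz (m • P)) = v (m : K) * v (zz P) := by
  obtain ⟨h1, h2⟩ := zz_nsmul_est v hA hB hP m
  by_cases h0 : v (zz P) = 0
  · rw [h0, le_zero_iff] at h1
    rw [h1, h0, mul_zero]
  · rw [← v.map_mul]
    have h3 : v (zz (m • P) - m * zz P) < v ((m : K) * zz P) := by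
      refine lt_of_le_of_lt h2 ?_
      rw [v.map_mul, pow_succ]
      exact mul_lt_mul_of_pos_right hm (zero_lt_iff.2 h0)
    have h4 := v.map_add_eq_of_lt_left h3
    rw [add_sub_cancel] at h4
    exact h4

theorem FC_pow (hA : v A ≤ 1) (hB : v B ≤ 1) {P : (Crv A B).Point} (hP : InG v P)
    (p : ℕ) (hvp : v (zz P) ^ 4 < v (p : K)) (s : ℕ) :
    v (zz ((p ^ s) • P)) = v (p : K) ^ s * v (zz P) := by
  induction s with
  | zero => simp
  | succ s ih =>
    have h1 : InG v ((p ^ s) • P) := InG.nsmul v hA hB hP _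
    have h2 : v (zz ((p ^ s) • P)) ≤ v (zz P) := (zz_nsmul_est v hA hB hP _).1
    have h3 : v (zz ((p ^ s) • P)) ^ 4 < v (p : K) :=
      lt_of_le_of_lt (pow_le_pow_left₀ zero_le h2 4) hvp
    rw [pow_succ', mul_smul, zz_nsmul_eq v hA hB h1 p h3, ih, pow_succ', mul_assoc]

theorem zz_nsmul_prime (hA : v A ≤ 1) (hB : v B ≤ 1) {P : (Crv A B).Point} (hP : InG v P)
    (p : ℕ) (hp : p.Prime) (hvp : v (zz P) ^ 4 < v (p : K)) (hvp1 : v (p : K) ≤ 1)
    (hcop : ∀ m : ℕ, m.Coprime p → v (m : K) = 1) (m : ℕ) (hm : m ≠ 0) :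
    v (zz (m • P)) = v (m : K) * v (zz P) := by
  obtain ⟨s, m', hm', rfl⟩ := Nat.exists_eq_pow_mul_and_not_dvd hm p hp.ne_one
  have hc : m'.Coprime p := ((Nat.Prime.coprime_iff_not_dvd hp).2 hm').symm
  have h1 : InG v ((p ^ s) • P) := InG.nsmul v hA hB hP _
  have h2 : v (zz ((p ^ s) • P)) ^ 4 < v (m' : K) := by
    rw [hcop m' hc]
    exact pow_lt_one₀ zero_le (InG.zz_lt v hA hB h1) (by norm_num)
  rw [mul_comm (p ^ s) m', mul_smul, zz_nsmul_eq v hA hB h1 m' h2,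
    FC_pow v hA hB hP p hvp s, hcop m' hc]
  push_cast
  rw [v.map_mul, v.map_pow, hcop m' hc, one_mul, one_mul]

end FC

end AlbCH
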