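import Pool.Agent.Lib.MP_2eeeac_ag.Basic

/-! Module GA: existence of places of the algebraic closure of `k(t)`. -/

namespace AlbCH

open WeierstrassCurve WeierstrassCurve.Affine Polynomial

theorem mem_range_of_integral {k L : Type*} [Field k] [IsAlgClosed k] [Field L] (f : k →+* L)
    (a : L) (p : k[X]) (hp : p ≠ 0) (h : p.eval₂ f a = 0) : a ∈ f.range := by
  let := f.toAlgebra
  have h1 : IsAlgebraic k a := ⟨p, hp, h⟩
  have h2 : IsIntegral k a := isAlgebraic_iff_isIntegral.1 h1
  have h3 := IsAlgClosed.degree_eq_one_of_irreducible k (minpoly.irreducible h2)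
  exact minpoly.mem_range_of_degree_eq_one k a h3

theorem exists_eval_ne_zero {k Ω : Type*} [Field k] [Field Ω] (g : k[X] →+* Ω)
    (hg : Function.Injective g) (a : Ω) (P : k[X][X]) (hP : P ≠ 0) (h : P.eval₂ g a = 0) (t₀ : k) :
    ∃ Q : k[X][X], Q.eval₂ g a = 0 ∧ Q.map (evalRingHom t₀) ≠ 0 := by
  have hne : (X - C t₀ : k[X]) ≠ 0 := X_sub_C_ne_zero t₀
  have hfin : FiniteMultiplicity (C (X - C t₀) : k[X][X]) P := by
    refine FiniteMultiplicity.of_not_isUnit ?_ hP
    rw [isUnit_C]
    exact not_isUnit_X_sub_C t₀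
  obtain ⟨Q, hQ, hQ'⟩ := hfin.exists_eq_pow_mul_and_not_dvd
  refine ⟨Q, ?_, ?_⟩
  · rw [hQ, eval₂_mul, eval₂_pow, eval₂_C, mul_eq_zero] at h
    rcases h with h | h
    · exfalso
      have h1 : g (X - C t₀) = 0 := eq_zero_of_pow_eq_zero h
      exact hne (hg (by rw [h1, map_zero]))
    · exact h
  · intro h0
    apply hQ'
    rw [C_dvd_iff_dvd_coeff]
    intro i
    rw [dvd_iff_isRoot]
    have := congrArg (fun q => q.coeff i) h0
    simpa [coeff_map] using this

theorem exists_place {k : Type*} [Field k] [IsAlgClosed k] (t₀ : k) :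
    ∃ π : Place k, π.Has (TT k) t₀ := by
  classical
  set Cm : k →+* Om k := algebraMap k (Om k) with hCm
  have hCinj : Function.Injective Cm := Cm.injective
  set T : Om k := TT k with hT
  -- the homomorphism from polynomials
  let g : k[X] →+* Om k := (algebraMap (RatFunc k) (Om k)).comp (algebraMap k[X] (RatFunc k))
  have hg : Function.Injective g :=
    (algebraMap (RatFunc k) (Om k)).injective.comp (IsFractionRing.injective k[X] (RatFunc k))
  have hgX : g X = T := by
    change algebraMap (RatFunc k) (Om k) (algebraMap k[X] (RatFunc k) X) = _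
    rw [RatFunc.algebraMap_X]
  have hgC : ∀ c : k, g (C c) = Cm c := by
    intro c
    rw [hCm, IsScalarTower.algebraMap_apply k (RatFunc k) (Om k)]
    change algebraMap (RatFunc k) (Om k) (algebraMap k[X] (RatFunc k) (C c)) = _
    rw [RatFunc.algebraMap_C]
    rfl
  have hg2 : g = eval₂RingHom Cm T := by
    apply Polynomial.ringHom_ext
    · intro c
      rw [hgC, coe_eval₂RingHom, eval₂_C]
    · rw [hgX, coe_eval₂RingHom, eval₂_X]
  have hTne : T - Cm t₀ ≠ 0 := by
    intro h0
    have h1 : g (X - C t₀) = 0 := by rw [map_sub, hgX, hgC, h0]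
    exact X_sub_C_ne_zero t₀ (hg (by rw [h1, map_zero]))
  -- the constants are integrally closed
  have hic : IsIntegrallyClosedIn Cm.range (Om k) := by
    rw [Subring.isIntegrallyClosedIn_iff]
    intro a ha
    obtain ⟨p, hp, hpa⟩ := ha
    -- lift the polynomial to `k`
    let e : k ≃+* Cm.range := RingEquiv.ofBijective Cm.rangeRestrict
      ⟨fun a b hab => hCinj (congrArg Subtype.val hab), RingHom.rangeRestrict_surjective _⟩
    refine mem_range_of_integral Cm a (p.map (e.symm : Cm.range →+* k)) ?_ ?_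
    · exact (hp.map _).ne_zero
    · rw [eval₂_map]
      have h1 : Cm.comp (e.symm : Cm.range →+* k) = algebraMap Cm.range (Om k) := by
        ext z
        have h2 : e (e.symm z) = z := e.apply_symm_apply z
        exact congrArg Subtype.val h2
      rw [h1]
      exact hpa
  have hx : (T - Cm t₀)⁻¹ ∉ Cm.range := by
    rintro ⟨c, hc⟩
    have hc0 : c ≠ 0 := by
      rintro rfl
      rw [map_zero, eq_comm, inv_eq_zero] at hc
      exact hTne hc
    have h1 : T - Cm t₀ = Cm c⁻¹ := by rw [map_inv₀, hc, inv_inv]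
    have h2 : g (X - C t₀ - C c⁻¹) = 0 := by
      rw [map_sub, map_sub, hgX, hgC, hgC, h1, sub_self]
    have h3 : (X - C t₀ - C c⁻¹ : k[X]) = 0 := hg (by rw [h2, map_zero])
    have h4 : (X - C (t₀ + c⁻¹) : k[X]) = 0 := by rw [C_add, ← h3]; ring
    exact X_sub_C_ne_zero _ h4
  obtain ⟨V, hRV, hxV⟩ := Subring.exists_le_valuationSubring_of_isIntegrallyClosedIn hx
  have hconst : ∀ c : k, Cm c ∈ V := fun c => hRV ⟨c, rfl⟩
  have hTV0 : T - Cm t₀ ∈ V := by
    have h1 := (V.mem_or_inv_mem (T - Cm t₀)⁻¹).resolve_left hxV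
    rwa [inv_inv] at h1
  have hTV : T ∈ V := by
    have h1 := V.add_mem _ _ hTV0 (hconst t₀)
    rwa [sub_add_cancel] at h1
  let CV : k →+* V := Cm.codRestrict V.toSubring hconst
  let Tv : V := ⟨T, hTV⟩
  have hm : Tv - CV t₀ ∈ IsLocalRing.maximalIdeal V := by
    rw [IsLocalRing.mem_maximalIdeal, mem_nonunits_iff]
    intro hu
    obtain ⟨w, hw⟩ := hu.exists_right_inv
    apply hxV
    have h1 := congrArg Subtype.val hw
    change (T - Cm t₀) * (w : Om k) = 1 at h1
    rw [inv_eq_of_mul_eq_one_right h1]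
    exact w.2
  let ρ : V →+* IsLocalRing.ResidueField V := IsLocalRing.residue V
  let Cκ : k →+* IsLocalRing.ResidueField V := ρ.comp CV
  have hsurj : Function.Surjective Cκ := by
    intro z
    obtain ⟨a, rfl⟩ := IsLocalRing.residue_surjective z
    have halg : IsAlgebraic (RatFunc k) (a : Om k) := Algebra.IsAlgebraic.isAlgebraic _
    rw [← IsFractionRing.isAlgebraic_iff k[X] (RatFunc k) (Om k)] at halg
    obtain ⟨P, hP, hPa⟩ := halg
    have hPa' : P.eval₂ g (a : Om k) = 0 := hPa
    obtain ⟨Q, hQa, hQ⟩ := exists_eval_ne_zero g hg (a : Om k) P hP hPa' t₀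
    let gV : k[X] →+* V := eval₂RingHom CV Tv
    have hgVC : ∀ c, gV (C c) = CV c := fun c => eval₂_C _ _
    have hgVX : gV X = Tv := eval₂_X _ _
    have hgV : (V.subtype).comp gV = g := by
      rw [hg2]
      apply Polynomial.ringHom_ext
      · intro c
        rw [RingHom.comp_apply, coe_eval₂RingHom, coe_eval₂RingHom, eval₂_C, eval₂_C]
        rfl
      · rw [RingHom.comp_apply, coe_eval₂RingHom, coe_eval₂RingHom, eval₂_X, eval₂_X]
        rfl
    have h1 : Q.eval₂ gV a = 0 := by
      apply Subtype.val_injective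
      have h2 := Polynomial.hom_eval₂ Q gV V.subtype a
      rw [hgV] at h2
      exact h2.trans hQa
    have h2 : (Q.map (evalRingHom t₀)).eval₂ Cκ (ρ a) = 0 := by
      rw [eval₂_map]
      have h3 : Cκ.comp (evalRingHom t₀) = ρ.comp gV := by
        apply Polynomial.ringHom_ext
        · intro c
          change ρ (CV (eval t₀ (C c))) = ρ (gV (C c))
          rw [eval_C, hgVC]
        · change ρ (CV (eval t₀ X)) = ρ (gV X)
          rw [eval_X, hgVX]
          have h4 : ρ (Tv - CV t₀) = 0 := (IsLocalRing.residue_eq_zero_iff _).2 hm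
          rw [map_sub, sub_eq_zero] at h4
          exact h4.symm
      rw [h3, ← Polynomial.hom_eval₂, h1, map_zero]
    exact mem_range_of_integral Cκ (ρ a) _ hQ h2
  let e : k ≃+* IsLocalRing.ResidueField V := RingEquiv.ofBijective Cκ ⟨Cκ.injective, hsurj⟩
  have he : ∀ c, e c = ρ (CV c) := fun c => rfl
  let π : Place k :=
    { ring := V
      res := (e.symm : _ →+* k).comp ρ
      mem_const := hconst
      res_const := fun c => by
        change e.symm (ρ (CV c)) = c
        rw [← he, e.symm_apply_apply] }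
  refine ⟨π, hTV, ?_⟩
  change e.symm (ρ Tv) = t₀
  have h4 : ρ (Tv - CV t₀) = 0 := (IsLocalRing.residue_eq_zero_iff _).2 hm
  rw [map_sub, sub_eq_zero] at h4
  rw [h4, ← he, e.symm_apply_apply]

end AlbCH
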