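import Pool.Agent.Lib.MP_2eeeac_ag.Basic

/-! Module GB: calculus of places, specialisation of points, Galois action. -/

namespace AlbCH

open WeierstrassCurve WeierstrassCurve.Affine
open scoped NNReal

section GB
variable {k : Type*} [Field k] (π : Place k)

theorem Place.has_const (c : k) : π.Has (algebraMap k (Om k) c) c :=
  ⟨π.mem_const c, π.res_const c⟩

theorem Place.has_unique {x : Om k} {c d : k} (h : π.Has x c) (h' : π.Has x d) : c = d := by
  obtain ⟨h1, rfl⟩ := h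
  obtain ⟨h2, rfl⟩ := h'
  rfl

theorem Place.has_add {x y : Om k} {c d : k} (h : π.Has x c) (h' : π.Has y d) :
    π.Has (x + y) (c + d) := by
  obtain ⟨h1, rfl⟩ := h
  obtain ⟨h2, rfl⟩ := h'
  exact ⟨π.ring.add_mem _ _ h1 h2, map_add π.res ⟨x, h1⟩ ⟨y, h2⟩⟩

theorem Place.has_neg {x : Om k} {c : k} (h : π.Has x c) : π.Has (-x) (-c) := by
  obtain ⟨h1, rfl⟩ := h
  exact ⟨π.ring.neg_mem _ h1, map_neg π.res ⟨x, h1⟩⟩

theorem Place.has_sub {x y : Om k} {c d : k} (h : π.Has x c) (h' : π.Has y d) :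
    π.Has (x - y) (c - d) := by
  rw [sub_eq_add_neg, sub_eq_add_neg]
  exact π.has_add h (π.has_neg h')

theorem Place.has_mul {x y : Om k} {c d : k} (h : π.Has x c) (h' : π.Has y d) :
    π.Has (x * y) (c * d) := by
  obtain ⟨h1, rfl⟩ := h
  obtain ⟨h2, rfl⟩ := h'
  exact ⟨π.ring.mul_mem _ _ h1 h2, map_mul π.res ⟨x, h1⟩ ⟨y, h2⟩⟩

theorem Place.has_pow {x : Om k} {c : k} (h : π.Has x c) (n : ℕ) : π.Has (x ^ n) (c ^ n) := by
  obtain ⟨h1, rfl⟩ := h
  exact ⟨pow_mem h1 n, map_pow π.res ⟨x, h1⟩ n⟩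

/-- an element of the ring with nonzero residue has its inverse in the ring -/
theorem Place.inv_mem_of_has {x : Om k} {c : k} (h : π.Has x c) (hc : c ≠ 0) :
    x⁻¹ ∈ π.ring := by
  obtain ⟨h1, rfl⟩ := h
  have hsurj : Function.Surjective π.res := fun c => ⟨⟨_, π.mem_const c⟩, π.res_const c⟩
  have hker : (RingHom.ker π.res).IsMaximal := RingHom.ker_isMaximal_of_surjective π.res hsurj
  have hmax := IsLocalRing.eq_maximalIdeal hker
  have hx : (⟨x, h1⟩ : π.ring) ∉ IsLocalRing.maximalIdeal π.ring := by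
    rw [← hmax, RingHom.mem_ker]
    exact hc
  rw [IsLocalRing.mem_maximalIdeal, mem_nonunits_iff, not_not] at hx
  obtain ⟨u, hu⟩ := hx
  have h2 : ((u⁻¹ : (π.ring)ˣ) : π.ring) * (⟨x, h1⟩ : π.ring) = 1 := by
    rw [← hu]
    exact u.inv_mul
  have h3 : (((u⁻¹ : (π.ring)ˣ) : π.ring) : Om k) * x = 1 := congrArg Subtype.val h2
  rw [← eq_inv_of_mul_eq_one_left h3]
  exact Subtype.property _

theorem Place.has_inv {x : Om k} {c : k} (h : π.Has x c) (hc : c ≠ 0) : π.Has x⁻¹ c⁻¹ := by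
  have h2 := π.inv_mem_of_has h hc
  obtain ⟨h1, rfl⟩ := h
  refine ⟨h2, ?_⟩
  have hx0 : x ≠ 0 := by
    rintro rfl
    exact hc (map_zero π.res)
  have h3 : (⟨x⁻¹, h2⟩ : π.ring) * ⟨x, h1⟩ = 1 := Subtype.ext (inv_mul_cancel₀ hx0)
  have h4 := congrArg π.res h3
  rw [map_mul, map_one] at h4
  exact eq_inv_of_mul_eq_one_left h4

theorem Place.has_div {x y : Om k} {c d : k} (h : π.Has x c) (h' : π.Has y d) (hd : d ≠ 0) :
    π.Has (x / y) (c / d) := by
  rw [div_eq_mul_inv, div_eq_mul_inv]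
  exact π.has_mul h (π.has_inv h' hd)

/-- a root of a monic quadratic polynomial over the valuation ring is in the valuation ring -/
theorem Place.has_quadratic {x s q : Om k} {s₀ q₀ : k} (hs : π.Has s s₀) (hq : π.Has q q₀)
    (h : x ^ 2 - s * x + q = 0) : ∃ x₀ : k, π.Has x x₀ ∧ x₀ ^ 2 - s₀ * x₀ + q₀ = 0 := by
  have hx : x ∈ π.ring := by
    rcases π.ring.mem_or_inv_mem x with hx | hx
    · exact hx
    · by_cases hx0 : x = 0
      · rw [hx0]; exact π.ring.zero_mem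
      · have h1 : x = s - q * x⁻¹ := by
          field_simp
          linear_combination h
        rw [h1]
        exact sub_mem hs.1 (mul_mem hq.1 hx)
  refine ⟨π.res ⟨x, hx⟩, ⟨hx, rfl⟩, ?_⟩
  have h0 : π.Has x (π.res ⟨x, hx⟩) := ⟨hx, rfl⟩
  have h1 := π.has_add (π.has_sub (π.has_pow h0 2) (π.has_mul hs h0)) hq
  rw [h] at h1
  have h2 : π.Has 0 0 := ⟨π.ring.zero_mem, map_zero π.res⟩
  exact π.has_unique h1 h2

theorem Place.has_sqrt {y : Om k} {c : k} (h : π.Has (y ^ 2) c) :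
    ∃ d : k, π.Has y d ∧ d ^ 2 = c := by
  have h0 : π.Has 0 0 := ⟨π.ring.zero_mem, map_zero π.res⟩
  obtain ⟨d, hd, hd2⟩ := π.has_quadratic (x := y) h0 (π.has_neg h) (by ring)
  exact ⟨d, hd, by linear_combination hd2⟩

theorem Place.div_notMem {u x : Om k} {c : k} (hx : π.Has x 0) (hx0 : x ≠ 0) (hu : π.Has u c)
    (hc : c ≠ 0) : u / x ∉ π.ring := by
  intro h
  have h1 : π.Has (u / x) (π.res ⟨u / x, h⟩) := ⟨h, rfl⟩
  have h2 := π.has_mul h1 hx
  rw [div_mul_cancel₀ u hx0, mul_zero] at h2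
  exact hc (π.has_unique hu h2)

theorem Place.affine_notMem {x : Om k} (hx : x ∉ π.ring) {α : k} (β : k) (hα : α ≠ 0) :
    algebraMap k (Om k) α * x + algebraMap k (Om k) β ∉ π.ring := by
  intro h
  apply hx
  have h1 : x = algebraMap k (Om k) α⁻¹ *
      (algebraMap k (Om k) α * x + algebraMap k (Om k) β - algebraMap k (Om k) β) := by
    rw [add_sub_cancel_right, ← mul_assoc, ← map_mul, inv_mul_cancel₀ hα, map_one, one_mul]
  rw [h1]
  exact mul_mem (π.mem_const _) (sub_mem h (π.mem_const _))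

variable {A B : k} [(Crv A B).IsElliptic]

theorem Place.sp_zero : π.sp (0 : (CrvOm A B).Point) = 0 := rfl

theorem Place.sp_of_has {x y : Om k} (h : (CrvOm A B).Nonsingular x y) {c d : k}
    (hx : π.Has x c) (hy : π.Has y d) (h' : (Crv A B).Nonsingular c d) :
    π.sp (.some x y h) = .some c d h' := by
  obtain ⟨hx1, rfl⟩ := hx
  obtain ⟨hy1, rfl⟩ := hy
  exact dif_pos ⟨hx1, hy1⟩

theorem Place.sp_of_notMem {x y : Om k} (h : (CrvOm A B).Nonsingular x y) (hx : x ∉ π.ring) :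
    π.sp (.some x y h) = 0 :=
  dif_neg fun h1 => hx h1.1

theorem Place.sp_const [DecidableEq k] [DecidableEq (Om k)] (P : (Crv A B).Point) :
    π.sp (mapPt (algebraMap k (Om k)) rfl rfl P) = P := by
  rcases P with _ | ⟨x, y, h⟩
  · rfl
  · exact π.sp_of_has _ (π.has_const x) (π.has_const y) h

omit [(Crv A B).IsElliptic] in
theorem gal_const [DecidableEq k] [DecidableEq (Om k)] (σ : Om k ≃ₐ[RatFunc k] Om k)
    (P : (Crv A B).Point) :
    gal σ (mapPt (algebraMap k (Om k)) rfl rfl P) = mapPt (algebraMap k (Om k)) rfl rfl P := by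
  have key : ∀ c : k, σ (algebraMap k (Om k) c) = algebraMap k (Om k) c := by
    intro c
    rw [IsScalarTower.algebraMap_apply k (RatFunc k) (Om k)]
    exact σ.commutes _
  rcases P with _ | ⟨x, y, h⟩
  · rfl
  · rw [mapPt_some]
    simp only [gal, key]

omit [(Crv A B).IsElliptic] in
theorem gal_one (P : (CrvOm A B).Point) : gal (1 : Om k ≃ₐ[RatFunc k] Om k) P = P := by
  rcases P with _ | ⟨x, y, h⟩ <;> rfl

omit [(Crv A B).IsElliptic] in
theorem gal_mul (σ τ : Om k ≃ₐ[RatFunc k] Om k) (P : (CrvOm A B).Point) :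
    gal (σ * τ) P = gal σ (gal τ P) := by
  rcases P with _ | ⟨x, y, h⟩ <;> rfl

end GB

end AlbCH
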