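import Pool.Agent.Lib.MP_2eeeac_ag.Basic

/-! Module GC of `MP_2eeeac_ag`: the relation of an orbit with at most two points. -/

namespace AlbCH

open WeierstrassCurve WeierstrassCurve.Affine
open scoped NNReal

section GC0
variable {k : Type*} [Field k] {A B : k}

theorem GC_gal_one (P : (CrvOm A B).Point) : gal (1 : Om k ≃ₐ[RatFunc k] Om k) P = P := by
  cases P <;> rfl

theorem GC_gal_mul (σ τ : Om k ≃ₐ[RatFunc k] Om k) (P : (CrvOm A B).Point) :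
    gal (σ * τ) P = gal σ (gal τ P) := by
  cases P <;> rfl

end GC0

section geometry

variable {k : Type*} [Field k] {A₁ B₁ A₂ B₂ : k} [(Crv A₁ B₁).IsElliptic]
  [(Crv A₂ B₂).IsElliptic]

/-- the relation given by an orbit, in `CH0Q` -/
theorem GC_orbit_rel (π₀ π₁ : Place k)
    (O : Finset ((CrvOm A₁ B₁).Point × (CrvOm A₂ B₂).Point)) (hO : IsOrbit A₁ B₁ A₂ B₂ O) :
    ∑ Q ∈ O, cl (π₀.sp Q.1) (π₀.sp Q.2) = ∑ Q ∈ O, cl (π₁.sp Q.1) (π₁.sp Q.2) := by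
  rw [← sub_eq_zero, ← Finset.sum_sub_distrib]
  have h : (∑ Q ∈ O, (Finsupp.single (π₀.sp Q.1, π₀.sp Q.2) (1 : ℚ)
      - Finsupp.single (π₁.sp Q.1, π₁.sp Q.2) 1) : Z0 A₁ B₁ A₂ B₂) ∈ ratEquiv A₁ B₁ A₂ B₂ :=
    Submodule.subset_span ⟨O, π₀, π₁, hO, rfl⟩
  have h2 := (Submodule.Quotient.mk_eq_zero (ratEquiv A₁ B₁ A₂ B₂)).2 h
  rw [← h2]
  have h3 : ∀ z : Z0 A₁ B₁ A₂ B₂, (Submodule.Quotient.mk z : CH0Q A₁ B₁ A₂ B₂) =
      (ratEquiv A₁ B₁ A₂ B₂).mkQ z := fun _ => rfl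
  rw [h3, map_sum]
  refine Finset.sum_congr rfl fun Q _ => ?_
  rw [map_sub]
  rfl

/-- the relation of a fixed point -/
theorem GC_fixed (π₀ π₁ : Place k) (P : (CrvOm A₁ B₁).Point × (CrvOm A₂ B₂).Point)
    (h : ∀ σ : Om k ≃ₐ[RatFunc k] Om k, (gal σ P.1, gal σ P.2) = P) :
    cl (π₀.sp P.1) (π₀.sp P.2) = cl (π₁.sp P.1) (π₁.sp P.2) := by
  have h1 := GC_orbit_rel π₀ π₁ {P} ⟨P, fun Q => by
    rw [Finset.mem_singleton]
    constructor
    · rintro rfl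
      exact ⟨1, (h 1).symm⟩
    · rintro ⟨σ, hσ⟩
      rw [hσ, h σ]⟩
  simpa using h1

theorem pair_rel (π₀ π₁ : Place k) (P P' : (CrvOm A₁ B₁).Point × (CrvOm A₂ B₂).Point)
    (h : ∀ σ : Om k ≃ₐ[RatFunc k] Om k,
      ((gal σ P.1, gal σ P.2) = P ∨ (gal σ P.1, gal σ P.2) = P') ∧
      ((gal σ P'.1, gal σ P'.2) = P ∨ (gal σ P'.1, gal σ P'.2) = P')) :
    cl (π₀.sp P.1) (π₀.sp P.2) + cl (π₀.sp P'.1) (π₀.sp P'.2)
      = cl (π₁.sp P.1) (π₁.sp P.2) + cl (π₁.sp P'.1) (π₁.sp P'.2) := by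
  classical
  by_cases hfix : ∀ σ : Om k ≃ₐ[RatFunc k] Om k, (gal σ P.1, gal σ P.2) = P
  · -- all automorphisms fix `P`, hence also `P'`
    have hfix' : ∀ σ : Om k ≃ₐ[RatFunc k] Om k, (gal σ P'.1, gal σ P'.2) = P' := by
      intro σ
      rcases (h σ).2 with h1 | h1
      · have h2 := hfix σ⁻¹
        have h3 : P' = P := by
          have e1 : gal σ P'.1 = P.1 := congrArg Prod.fst h1
          have e2 : gal σ P'.2 = P.2 := congrArg Prod.snd h1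
          have e3 : gal σ⁻¹ P.1 = P.1 := congrArg Prod.fst h2
          have e4 : gal σ⁻¹ P.2 = P.2 := congrArg Prod.snd h2
          have e5 : P'.1 = P.1 := by
            rw [← e3, ← e1, ← GC_gal_mul, inv_mul_cancel, GC_gal_one]
          have e6 : P'.2 = P.2 := by
            rw [← e4, ← e2, ← GC_gal_mul, inv_mul_cancel, GC_gal_one]
          exact Prod.ext e5 e6
        rw [h3]
        exact hfix σ
      · exact h1
    rw [GC_fixed π₀ π₁ P hfix, GC_fixed π₀ π₁ P' hfix']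
  · push Not at hfix
    obtain ⟨σ, hσ⟩ := hfix
    have hσ' : (gal σ P.1, gal σ P.2) = P' := (h σ).1.resolve_left hσ
    have hne : P ≠ P' := fun hc => hσ (hσ'.trans hc.symm)
    have h1 := GC_orbit_rel π₀ π₁ {P, P'} ⟨P, fun Q => by
      rw [Finset.mem_insert, Finset.mem_singleton]
      constructor
      · rintro (rfl | rfl)
        · exact ⟨1, by rw [GC_gal_one, GC_gal_one]⟩
        · exact ⟨σ, hσ'.symm⟩
      · rintro ⟨τ, hτ⟩
        rw [hτ]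
        exact (h τ).1⟩
    rw [Finset.sum_pair hne, Finset.sum_pair hne] at h1
    exact h1

end geometry

end AlbCH
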