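import Pool.Agent.Lib.MP_2eeeac_ag.Basic
import Pool.Agent.Lib.MP_2eeeac_ag.GA
import Pool.Agent.Lib.MP_2eeeac_ag.GB
import Pool.Agent.Lib.MP_2eeeac_ag.GC

namespace AlbCH

open WeierstrassCurve WeierstrassCurve.Affine Polynomial

/-- The line through two points with given sum. -/
lemma gd1_line_data {F : Type*} [Field F] [DecidableEq F] {A B x₀ y₀ x₁ y₁ x₂ y₂ : F}
    {h₀ : (Crv A B).Nonsingular x₀ y₀} {h₁ : (Crv A B).Nonsingular x₁ y₁}
    {h₂ : (Crv A B).Nonsingular x₂ y₂}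
    (h : (.some x₁ y₁ h₁ : (Crv A B).Point) + .some x₂ y₂ h₂ = .some x₀ y₀ h₀) :
    ∃ t : F, y₁ = t * (x₁ - x₀) - y₀ ∧ y₂ = t * (x₂ - x₀) - y₀ ∧ x₁ + x₂ = t ^ 2 - x₀ ∧
      x₁ * x₂ = x₀ ^ 2 + A + x₀ * t ^ 2 + 2 * y₀ * t := by
  have hxy : ¬(x₁ = x₂ ∧ y₁ = (Crv A B).negY x₂ y₂) := by
    rintro ⟨h3, h4⟩
    rw [Point.add_of_Y_eq h3 h4] at h
    exact Point.some_ne_zero _ h.symm
  have hadd := addPolynomial_slope h₁.1 h₂.1 hxy
  rw [Point.add_some hxy] at h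
  simp only [Point.some.injEq] at h
  obtain ⟨hx, hy⟩ := h
  set t := (Crv A B).slope x₁ x₂ y₁ y₂ with ht
  rw [hx, addPolynomial_eq, neg_inj, Cubic.prod_X_sub_C_eq, Cubic.toPoly_injective] at hadd
  simp only [Cubic.mk.injEq] at hadd
  obtain ⟨-, hb, hc, hd⟩ := hadd
  simp only [addX] at hx
  simp only [addY, negAddY, negY, addX] at hy
  have e1 : x₁ + x₂ = t ^ 2 - x₀ := by linear_combination -hx
  have e2 : y₁ = t * (x₁ - x₀) - y₀ := by
    rw [← hx]; linear_combination (-1) * hy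
  refine ⟨t, e2, ?_, e1, ?_⟩
  · have h5 : y₁ - y₂ = t * (x₁ - x₂) := by
      by_cases h12 : x₁ = x₂
      · have : y₁ = y₂ := Y_eq_of_Y_ne h₁.1 h₂.1 h12 (fun h6 => hxy ⟨h12, h6⟩)
        rw [this, h12]; ring
      · rw [ht, slope_of_X_ne h12]
        field_simp [sub_ne_zero.mpr h12]
    linear_combination e2 - h5
  · rw [e2] at hc
    linear_combination (-1) * hc - x₀ * e1

section GD1

variable {k : Type*} [Field k] {A B : k}

lemma gd1_const (σ : Om k ≃ₐ[RatFunc k] Om k) (c : k) :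
    σ (algebraMap k (Om k) c) = algebraMap k (Om k) c := by
  rw [IsScalarTower.algebraMap_apply k (RatFunc k) (Om k)]; exact σ.commutes _

lemma gd1_gal_some (σ : Om k ≃ₐ[RatFunc k] Om k) {x y : Om k} (h : (CrvOm A B).Nonsingular x y)
    {x' y' : Om k} (h' : (CrvOm A B).Nonsingular x' y') (hx : σ x = x') (hy : σ y = y') :
    gal σ (.some x y h : (CrvOm A B).Point) = .some x' y' h' := by
  subst hx hy
  rfl

/-- The moving pair of points `P₁ + P₂ = c` and its specialisations. -/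
lemma gd1_pair [IsAlgClosed k] [DecidableEq k] [(Crv A B).IsElliptic] (c : (Crv A B).Point)
    (hc : c ≠ 0) : ∃ P₁ P₂ : (CrvOm A B).Point,
      (∀ σ : Om k ≃ₐ[RatFunc k] Om k,
        (gal σ P₁ = P₁ ∧ gal σ P₂ = P₂) ∨ (gal σ P₁ = P₂ ∧ gal σ P₂ = P₁)) ∧
      ∀ P : (Crv A B).Point, P ≠ 0 → P ≠ c → ∃ π : Place k,
        (π.sp P₁ = P ∧ π.sp P₂ = c - P) ∨ (π.sp P₁ = c - P ∧ π.sp P₂ = P) := by
  classical
  rcases c with _ | ⟨x₀, y₀, h₀⟩
  · exact absurd rfl hc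
  set i := algebraMap k (Om k) with hi
  set T := TT k with hT
  set s : Om k := T ^ 2 - i x₀ with hs
  set q : Om k := i x₀ ^ 2 + i A + i x₀ * T ^ 2 + 2 * i y₀ * T with hq
  have h0 : i y₀ ^ 2 = i x₀ ^ 3 + i A * i x₀ + i B := by
    have := congrArg i (crv_nonsing.mp h₀).1
    simpa using this
  obtain ⟨X₁, hX₁⟩ : ∃ X : Om k, X ^ 2 - s * X + q = 0 := by
    obtain ⟨X, hX⟩ := IsAlgClosed.exists_root
      (Cubic.toPoly ⟨0, 1, -s, q⟩ : (Om k)[X]) (by
        rw [Cubic.degree_of_b_ne_zero rfl one_ne_zero]; decide)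
    refine ⟨X, ?_⟩
    rw [IsRoot.def] at hX
    simp only [Cubic.toPoly, map_zero, zero_mul, zero_add, map_one, one_mul, eval_add, eval_mul,
      eval_pow, eval_C, eval_X] at hX
    linear_combination hX
  set X₂ : Om k := s - X₁ with hX₂'
  have hX₂ : X₂ ^ 2 - s * X₂ + q = 0 := by
    rw [hX₂']; linear_combination hX₁
  have heq : ∀ X : Om k, X ^ 2 - s * X + q = 0 →
      (CrvOm A B).Nonsingular X (T * (X - i x₀) - i y₀) := by
    intro X hX
    apply nonsing_of_eq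
    rw [hs, hq] at hX
    linear_combination (-(X - i x₀)) * hX + h0
  have hσ : ∀ (σ : Om k ≃ₐ[RatFunc k] Om k), σ T = T := fun σ => σ.commutes _
  have hσs : ∀ (σ : Om k ≃ₐ[RatFunc k] Om k), σ s = s := by
    intro σ
    rw [hs, map_sub, map_pow, hσ, hi, gd1_const]
  have hσq : ∀ (σ : Om k ≃ₐ[RatFunc k] Om k), σ q = q := by
    intro σ
    rw [hq]
    simp only [map_add, map_mul, map_pow, hσ, hi, gd1_const, map_ofNat]
  have hσy : ∀ (σ : Om k ≃ₐ[RatFunc k] Om k) (X : Om k),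
      σ (T * (X - i x₀) - i y₀) = T * (σ X - i x₀) - i y₀ := by
    intro σ X
    simp only [map_sub, map_mul, hσ, hi, gd1_const]
  refine ⟨.some X₁ _ (heq X₁ hX₁), .some X₂ _ (heq X₂ hX₂), ?_, ?_⟩
  · intro σ
    have h1 : (σ X₁ - X₁) * (σ X₁ - X₂) = 0 := by
      have h2 := congrArg σ hX₁
      simp only [map_add, map_sub, map_mul, map_pow, hσs, hσq, map_zero] at h2
      rw [hX₂']
      linear_combination h2 - hX₁
    rcases mul_eq_zero.mp h1 with h2 | h2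
    · have e1 : σ X₁ = X₁ := sub_eq_zero.mp h2
      have e2 : σ X₂ = X₂ := by rw [hX₂', map_sub, hσs, e1]
      left
      exact ⟨gd1_gal_some σ _ _ e1 (by rw [hσy, e1]), gd1_gal_some σ _ _ e2 (by rw [hσy, e2])⟩
    · have e1 : σ X₁ = X₂ := sub_eq_zero.mp h2
      have e2 : σ X₂ = X₁ := by rw [hX₂', map_sub, hσs, e1, hX₂']; ring
      right
      exact ⟨gd1_gal_some σ _ _ e1 (by rw [hσy, e1]), gd1_gal_some σ _ _ e2 (by rw [hσy, e2])⟩
  · intro P hP hPc
    have hP2 : (.some x₀ y₀ h₀ : (Crv A B).Point) - P ≠ 0 := by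
      intro h; exact hPc (sub_eq_zero.mp h).symm
    have hadd : P + ((.some x₀ y₀ h₀ : (Crv A B).Point) - P) = .some x₀ y₀ h₀ := by abel
    set P' := (.some x₀ y₀ h₀ : (Crv A B).Point) - P with hP'
    clear_value P'
    rcases P with _ | ⟨x₁, y₁, h₁⟩
    · exact absurd rfl hP
    rcases P' with _ | ⟨x₂, y₂, h₂⟩
    · exact absurd rfl hP2
    obtain ⟨t, hy1, hy2, hsum, hprod⟩ := gd1_line_data hadd
    obtain ⟨π, hπ⟩ := exists_place t
    have hc : ∀ a : k, π.Has (i a) a := fun a => π.has_const a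
    have hs0 : π.Has s (x₁ + x₂) := by
      rw [hsum, hs]
      exact π.has_sub (π.has_pow hπ 2) (hc x₀)
    have h2' : π.Has (2 : Om k) (2 : k) := by
      have := hc 2
      rwa [hi, map_ofNat] at this
    have hq0 : π.Has q (x₁ * x₂) := by
      rw [hprod, hq]
      exact π.has_add (π.has_add (π.has_add (π.has_pow (hc _) 2) (hc _))
        (π.has_mul (hc _) (π.has_pow hπ 2))) (π.has_mul (π.has_mul h2' (hc _)) hπ)
    obtain ⟨ξ, hξ, hξ2⟩ := π.has_quadratic hs0 hq0 hX₁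
    have hξ' : π.Has X₂ (x₁ + x₂ - ξ) := π.has_sub hs0 hξ
    have hY : ∀ (X : Om k) (η : k), π.Has X η →
        π.Has (T * (X - i x₀) - i y₀) (t * (η - x₀) - y₀) := fun X η h =>
      π.has_sub (π.has_mul hπ (π.has_sub h (hc _))) (hc _)
    have h3 : (ξ - x₁) * (ξ - x₂) = 0 := by linear_combination hξ2
    refine ⟨π, ?_⟩
    rcases mul_eq_zero.mp h3 with h4 | h4
    · have e1 : ξ = x₁ := sub_eq_zero.mp h4
      subst e1
      left
      refine ⟨π.sp_of_has _ hξ (hy1 ▸ hY _ _ hξ) h₁, π.sp_of_has _ ?_ ?_ h₂⟩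
      · have := hξ'
        rwa [add_sub_cancel_left] at this
      · rw [hy2]
        have := hY _ _ hξ'
        rwa [add_sub_cancel_left] at this
    · have e1 : ξ = x₂ := sub_eq_zero.mp h4
      subst e1
      right
      refine ⟨π.sp_of_has _ hξ (hy2 ▸ hY _ _ hξ) h₂, π.sp_of_has _ ?_ ?_ h₁⟩
      · have := hξ'
        rwa [add_sub_cancel_right] at this
      · rw [hy1]
        have := hY _ _ hξ'
        rwa [add_sub_cancel_right] at this

end GD1

section geometry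

variable {k : Type*} [Field k] {A₁ B₁ A₂ B₂ : k} [(Crv A₁ B₁).IsElliptic]
  [(Crv A₂ B₂).IsElliptic]

theorem line_rel_fst [IsAlgClosed k] [DecidableEq k] (b : (Crv A₂ B₂).Point)
    (c P P' : (Crv A₁ B₁).Point)
    (hc : c ≠ 0) (hP : P ≠ 0) (hPc : P ≠ c) (hP' : P' ≠ 0) (hPc' : P' ≠ c) :
    cl P b + cl (c - P) b = cl P' b + cl (c - P') b := by
  classical
  obtain ⟨P₁, P₂, hgal, hsp⟩ := gd1_pair c hc
  set bb : (CrvOm A₂ B₂).Point := mapPt (algebraMap k (Om k)) rfl rfl b with hbb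
  have hb : ∀ π : Place k, π.sp bb = b := fun π => π.sp_const b
  obtain ⟨π, hπ⟩ := hsp P hP hPc
  obtain ⟨π', hπ'⟩ := hsp P' hP' hPc'
  have key := pair_rel π π' (P₁, bb) (P₂, bb) (by
    intro σ
    have h1 : gal σ bb = bb := gal_const σ b
    rcases hgal σ with h | h
    · exact ⟨Or.inl (by rw [h.1, h1]), Or.inr (by rw [h.2, h1])⟩
    · exact ⟨Or.inr (by rw [h.1, h1]), Or.inl (by rw [h.2, h1])⟩)
  simp only [hb] at key
  rcases hπ with h | h <;> rcases hπ' with h' | h'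
  · rw [h.1, h.2, h'.1, h'.2] at key; exact key
  · rw [h.1, h.2, h'.1, h'.2] at key; rw [key, add_comm]
  · rw [h.1, h.2, h'.1, h'.2] at key; rw [add_comm, key]
  · rw [h.1, h.2, h'.1, h'.2] at key; rw [add_comm, key, add_comm]

theorem line_rel_snd [IsAlgClosed k] [DecidableEq k] (b : (Crv A₁ B₁).Point)
    (c P P' : (Crv A₂ B₂).Point)
    (hc : c ≠ 0) (hP : P ≠ 0) (hPc : P ≠ c) (hP' : P' ≠ 0) (hPc' : P' ≠ c) :
    cl b P + cl b (c - P) = cl b P' + cl b (c - P') := by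
  classical
  obtain ⟨P₁, P₂, hgal, hsp⟩ := gd1_pair c hc
  set bb : (CrvOm A₁ B₁).Point := mapPt (algebraMap k (Om k)) rfl rfl b with hbb
  have hb : ∀ π : Place k, π.sp bb = b := fun π => π.sp_const b
  obtain ⟨π, hπ⟩ := hsp P hP hPc
  obtain ⟨π', hπ'⟩ := hsp P' hP' hPc'
  have key := pair_rel π π' (bb, P₁) (bb, P₂) (by
    intro σ
    have h1 : gal σ bb = bb := gal_const σ b
    rcases hgal σ with h | h
    · exact ⟨Or.inl (by rw [h.1, h1]), Or.inr (by rw [h.2, h1])⟩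
    · exact ⟨Or.inr (by rw [h.1, h1]), Or.inl (by rw [h.2, h1])⟩)
  simp only [hb] at key
  rcases hπ with h | h <;> rcases hπ' with h' | h'
  · rw [h.1, h.2, h'.1, h'.2] at key; exact key
  · rw [h.1, h.2, h'.1, h'.2] at key; rw [key, add_comm]
  · rw [h.1, h.2, h'.1, h'.2] at key; rw [add_comm, key]
  · rw [h.1, h.2, h'.1, h'.2] at key; rw [add_comm, key, add_comm]

end geometry

end AlbCH
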