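import Pool.Agent.Lib.MP_2eeeac_ag.GG

/-! Module GD2 of MP_2eeeac_ag (helper43): points and the relation `[P] + [-P] = 2 [0]`. -/

namespace AlbCH

open WeierstrassCurve WeierstrassCurve.Affine

section

variable {k : Type*} [Field k]

theorem exists_three_ne {A B : k} [IsAlgClosed k] [(Crv A B).IsElliptic]
    (x y z : (Crv A B).Point) : ∃ P : (Crv A B).Point, P ≠ x ∧ P ≠ y ∧ P ≠ z := by
  classical
  have hpt : ∀ a : k, ∃ b : k, b ^ 2 = a ^ 3 + A * a + B := fun a =>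
    IsAlgClosed.exists_pow_nat_eq _ (by norm_num)
  choose g hg using hpt
  have hinj : Function.Injective
      (fun a : k => (.some a (g a) (nonsing_of_eq (hg a)) : (Crv A B).Point)) := by
    intro a b hab
    exact (Point.some.inj hab).1
  have : Infinite k := IsAlgClosed.instInfinite
  have : Infinite (Crv A B).Point := Infinite.of_injective _ hinj
  obtain ⟨P, hP⟩ := Infinite.exists_notMem_finset ({x, y, z} : Finset (Crv A B).Point)
  simp only [Finset.mem_insert, Finset.mem_singleton, not_or] at hP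
  exact ⟨P, hP.1, hP.2.1, hP.2.2⟩

/-- The pair of points `(X, ±Y)` of a curve over `Ω` with its specialisations. -/
theorem gd2_family [IsAlgClosed k] {A B : k} [(Crv A B).IsElliptic] {xP yP : k}
    (hP : (Crv A B).Nonsingular xP yP) :
    ∃ (π₀ π₁ : Place k) (Q Q' : (CrvOm A B).Point),
      (∀ σ : Om k ≃ₐ[RatFunc k] Om k, (gal σ Q = Q ∧ gal σ Q' = Q') ∨
        (gal σ Q = Q' ∧ gal σ Q' = Q)) ∧
      ((π₀.sp Q = .some xP yP hP ∧ π₀.sp Q' = -(.some xP yP hP : (Crv A B).Point)) ∨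
        (π₀.sp Q = -(.some xP yP hP : (Crv A B).Point) ∧ π₀.sp Q' = .some xP yP hP)) ∧
      π₁.sp Q = 0 ∧ π₁.sp Q' = 0 := by
  classical
  obtain ⟨π₀, hπ₀⟩ := exists_place (1 : k)
  obtain ⟨π₁, hπ₁⟩ := exists_place (0 : k)
  set c : k →+* Om k := algebraMap k (Om k) with hcdef
  set T : Om k := TT k with hT
  have hone : ∀ π : Place k, π.Has (1 : Om k) 1 := by
    intro π
    have := π.has_const 1
    rwa [map_one] at this
  have hT0 : T ≠ 0 := by
    have := gg_TT_ne (0 : k)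
    rwa [map_zero] at this
  obtain ⟨X, hX⟩ : ∃ X : Om k, X = (c (xP - 1) * T + 1) / T := ⟨_, rfl⟩
  obtain ⟨Y, hY⟩ := IsAlgClosed.exists_pow_nat_eq (X ^ 3 + c A * X + c B) (n := 2)
    (by norm_num)
  have hP1 : (CrvOm A B).Nonsingular X Y := nonsing_of_eq hY
  have hXh : π₀.Has X xP := by
    have h1 := π₀.has_div (π₀.has_add (π₀.has_mul (π₀.has_const (xP - 1)) hπ₀) (hone π₀)) hπ₀
      one_ne_zero
    have h2 : ((xP - 1) * 1 + 1) / 1 = xP := by ring
    rw [h2] at h1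
    rw [hX]
    exact h1
  have hYh2 : π₀.Has (Y ^ 2) (yP ^ 2) := by
    rw [hY, (crv_nonsing.1 hP).1]
    exact π₀.has_add (π₀.has_add (π₀.has_pow hXh 3) (π₀.has_mul (π₀.has_const A) hXh))
      (π₀.has_const B)
  obtain ⟨d, hd, hd2⟩ := π₀.has_sqrt hYh2
  have hXn : X ∉ π₁.ring := by
    rw [hX]
    have h1 := π₁.has_add (π₁.has_mul (π₁.has_const (xP - 1)) hπ₁) (hone π₁)
    refine π₁.div_notMem hπ₁ hT0 h1 ?_
    rw [mul_zero, zero_add]
    exact one_ne_zero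
  have hσX : ∀ σ : Om k ≃ₐ[RatFunc k] Om k, σ X = X := by
    intro σ
    rw [hX, map_div₀, map_add, map_mul, map_one, gg_sigma_const, hT, gg_sigma_TT]
  have hσY : ∀ σ : Om k ≃ₐ[RatFunc k] Om k, σ Y = Y ∨ σ Y = -Y := by
    intro σ
    have h5 : (σ Y) ^ 2 = Y ^ 2 := by
      rw [← map_pow, hY, map_add, map_add, map_mul, map_pow, hσX, gg_sigma_const,
        gg_sigma_const]
    exact sq_eq_sq_iff_eq_or_eq_neg.1 h5
  refine ⟨π₀, π₁, .some X Y hP1, .some X (-Y) (gg_neg_nonsing hP1), ?_, ?_,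
    π₁.sp_of_notMem _ hXn, π₁.sp_of_notMem _ hXn⟩
  · intro σ
    rcases hσY σ with h5 | h5
    · left
      exact ⟨gg_some_congr _ _ (hσX σ) h5, gg_some_congr _ _ (hσX σ) (by rw [map_neg, h5])⟩
    · right
      exact ⟨gg_some_congr _ _ (hσX σ) h5,
        gg_some_congr _ _ (hσX σ) (by rw [map_neg, h5, neg_neg])⟩
  · rw [gg_neg_some]
    rcases sq_eq_sq_iff_eq_or_eq_neg.1 hd2 with h7 | h7
    · left
      rw [h7] at hd
      exact ⟨π₀.sp_of_has hP1 hXh hd hP,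
        π₀.sp_of_has _ hXh (π₀.has_neg hd) (gg_neg_nonsing hP)⟩
    · right
      rw [h7] at hd
      have hd' : π₀.Has (-Y) yP := by
        have := π₀.has_neg hd
        rwa [neg_neg] at this
      exact ⟨π₀.sp_of_has hP1 hXh hd (gg_neg_nonsing hP), π₀.sp_of_has _ hXh hd' hP⟩

end

section

variable {k : Type*} [Field k] {A₁ B₁ A₂ B₂ : k} [(Crv A₁ B₁).IsElliptic]
  [(Crv A₂ B₂).IsElliptic]

theorem zero_rel_fst [IsAlgClosed k] (b : (Crv A₂ B₂).Point) (P : (Crv A₁ B₁).Point) :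
    cl P b + cl (-P) b = cl 0 b + cl 0 b := by
  classical
  rcases P with _ | ⟨xP, yP, hP⟩
  · rfl
  obtain ⟨π₀, π₁, Q, Q', hσ, hsp, h1, h1'⟩ := gd2_family hP
  have hmain := pair_rel π₀ π₁
    ((Q, mapPt (algebraMap k (Om k)) rfl rfl b) : (CrvOm A₁ B₁).Point × (CrvOm A₂ B₂).Point)
    (Q', mapPt (algebraMap k (Om k)) rfl rfl b) (by
      intro σ
      rcases hσ σ with ⟨h5, h6⟩ | ⟨h5, h6⟩
      · exact ⟨Or.inl (Prod.ext h5 (gal_const σ b)), Or.inr (Prod.ext h6 (gal_const σ b))⟩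
      · exact ⟨Or.inr (Prod.ext h5 (gal_const σ b)), Or.inl (Prod.ext h6 (gal_const σ b))⟩)
  simp only at hmain
  rw [h1, h1', π₀.sp_const, π₁.sp_const] at hmain
  rw [← hmain]
  rcases hsp with ⟨h2, h3⟩ | ⟨h2, h3⟩
  · rw [h2, h3]
  · rw [h2, h3, add_comm]

theorem zero_rel_snd [IsAlgClosed k] (b : (Crv A₁ B₁).Point) (P : (Crv A₂ B₂).Point) :
    cl b P + cl b (-P) = cl b 0 + cl b 0 := by
  classical
  rcases P with _ | ⟨xP, yP, hP⟩
  · rfl
  obtain ⟨π₀, π₁, Q, Q', hσ, hsp, h1, h1'⟩ := gd2_family hP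
  have hmain := pair_rel π₀ π₁
    ((mapPt (algebraMap k (Om k)) rfl rfl b, Q) : (CrvOm A₁ B₁).Point × (CrvOm A₂ B₂).Point)
    (mapPt (algebraMap k (Om k)) rfl rfl b, Q') (by
      intro σ
      rcases hσ σ with ⟨h5, h6⟩ | ⟨h5, h6⟩
      · exact ⟨Or.inl (Prod.ext (gal_const σ b) h5), Or.inr (Prod.ext (gal_const σ b) h6)⟩
      · exact ⟨Or.inr (Prod.ext (gal_const σ b) h5), Or.inl (Prod.ext (gal_const σ b) h6)⟩)
  simp only at hmain
  rw [h1, h1', π₀.sp_const, π₁.sp_const] at hmain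
  rw [← hmain]
  rcases hsp with ⟨h2, h3⟩ | ⟨h2, h3⟩
  · rw [h2, h3]
  · rw [h2, h3, add_comm]

end

end AlbCH
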