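import Mathlib

/-! Module GF of `MP_2eeeac_ag`: abstract additivity. -/

namespace AlbCH

theorem additive_of_rel {G V : Type*} [AddCommGroup G] [AddCommGroup V] [Module ℚ V] (f : G → V)
    (hG : ∀ x y z : G, ∃ P, P ≠ x ∧ P ≠ y ∧ P ≠ z)
    (h1 : ∀ c P P' : G, c ≠ 0 → P ≠ 0 → P ≠ c → P' ≠ 0 → P' ≠ c →
      f P + f (c - P) = f P' + f (c - P'))
    (h0 : ∀ P, f P + f (-P) = f 0 + f 0) (P Q : G) : f (P + Q) + f 0 = f P + f Q := by
  classical
  obtain ⟨g, hg⟩ : ∃ g : G → V, ∀ x, g x = f x - f 0 := ⟨fun x => f x - f 0, fun _ => rfl⟩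
  have g0 : g 0 = 0 := by rw [hg, sub_self]
  have godd : ∀ x, g (-x) = -g x := by
    intro x
    rw [hg, hg, eq_neg_iff_add_eq_zero]
    have := h0 x
    calc f (-x) - f 0 + (f x - f 0) = (f x + f (-x)) - (f 0 + f 0) := by abel
      _ = 0 := by rw [this, sub_self]
  have key : ∀ c P P' : G, P ≠ 0 → P ≠ c → P' ≠ 0 → P' ≠ c →
      g P - g (P - c) = g P' - g (P' - c) := by
    intro c P P' hP hPc hP' hPc'
    rcases eq_or_ne c 0 with rfl | hc
    · simp
    · have e := h1 c P P' hc hP hPc hP' hPc'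
      have e1 : g (P - c) = - g (c - P) := by rw [← godd]; congr 1; abel
      have e2 : g (P' - c) = - g (c - P') := by rw [← godd]; congr 1; abel
      rw [e1, e2, hg, hg, hg, hg]
      calc f P - f 0 - -(f (c - P) - f 0) = (f P + f (c - P)) - (f 0 + f 0) := by abel
        _ = (f P' + f (c - P')) - (f 0 + f 0) := by rw [e]
        _ = f P' - f 0 - -(f (c - P') - f 0) := by abel
  choose p hp1 hp2 _ using fun c : G => hG 0 c c
  obtain ⟨D, hD⟩ : ∃ D : G → V, ∀ c P : G, P ≠ 0 → P ≠ c → D c = g P - g (P - c) :=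
    ⟨fun c => g (p c) - g (p c - c), fun c P hP hPc => key c _ _ (hp1 c) (hp2 c) hP hPc⟩
  have Dadd : ∀ R S, D (R + S) = D R + D S := by
    intro R S
    obtain ⟨P, hP0, hPR, hPRS⟩ := hG 0 R (R + S)
    rw [hD (R + S) P hP0 hPRS, hD R P hP0 hPR, hD S (P - R) (sub_ne_zero.mpr hPR)
      (fun h => hPRS (by rw [← h]; abel))]
    rw [sub_sub]; abel
  have D0 : D 0 = 0 := by
    have := Dadd 0 0
    simpa using this
  have Dneg : ∀ R, D (-R) = - D R := by
    intro R
    rw [eq_neg_iff_add_eq_zero, ← Dadd, neg_add_cancel, D0]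
  have hκ : ∀ P Q : G, P ≠ 0 → Q ≠ 0 → g P - D P = g Q - D Q := by
    intro P Q hP hQ
    have h2 := hD (P - Q) P hP (fun h => hQ (by simpa using h.symm))
    have h3 : D P = D (P - Q) + D Q := by rw [← Dadd, sub_add_cancel]
    rw [h3, h2, sub_sub_cancel]; abel
  have hgD : ∀ P, g P = D P := by
    intro P
    rcases eq_or_ne P 0 with rfl | hP
    · rw [g0, D0]
    · have h2 := hκ P (-P) hP (neg_ne_zero.mpr hP)
      rw [godd, Dneg] at h2
      have h3 : (2 : ℚ) • (g P - D P) = 0 := by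
        rw [two_smul]
        nth_rewrite 1 [h2]
        abel
      rcases smul_eq_zero.mp h3 with h4 | h4
      · norm_num at h4
      · exact sub_eq_zero.mp h4
  have hfin : g (P + Q) = g P + g Q := by rw [hgD, hgD, hgD, Dadd]
  rw [hg, hg, hg] at hfin
  have : f (P + Q) = f P - f 0 + (f Q - f 0) + f 0 := by rw [← hfin]; abel
  rw [this]; abel

end AlbCH
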