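import Pool.Agent.Lib.MP_2eeeac_ag.GA
import Pool.Agent.Lib.MP_2eeeac_ag.GB
import Pool.Agent.Lib.MP_2eeeac_ag.GC

/-! Module GG of MP_2eeeac_ag (helper43): the hyperelliptic relation. -/

namespace AlbCH

open WeierstrassCurve WeierstrassCurve.Affine

theorem gg_some_congr {F : Type*} [Field F] {W : WeierstrassCurve.Affine F} {x x' y y' : F}
    (h : W.Nonsingular x y) (h' : W.Nonsingular x' y') (hx : x = x') (hy : y = y') :
    (Point.some x y h : W.Point) = Point.some x' y' h' := by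
  subst hx; subst hy; rfl

theorem gg_neg_nonsing {F : Type*} [Field F] {A B x y : F} (h : (Crv A B).Nonsingular x y) :
    (Crv A B).Nonsingular x (-y) := by
  rw [crv_nonsing] at h ⊢
  refine ⟨by rw [neg_sq]; exact h.1, ?_⟩
  rcases h.2 with h2 | h2
  · exact Or.inl h2
  · right
    intro h3
    apply h2
    rw [neg_neg] at h3
    exact h3.symm

theorem gg_neg_some {F : Type*} [Field F] {A B x y : F} (h : (Crv A B).Nonsingular x y) :
    -(Point.some x y h : (Crv A B).Point) = Point.some x (-y) (gg_neg_nonsing h) := by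
  rw [Point.neg_some]
  exact gg_some_congr _ _ rfl (by simp [negY])

section

variable {k : Type*} [Field k]

theorem gg_sigma_const (σ : Om k ≃ₐ[RatFunc k] Om k) (c : k) :
    σ (algebraMap k (Om k) c) = algebraMap k (Om k) c := by
  rw [IsScalarTower.algebraMap_apply k (RatFunc k) (Om k)]
  exact σ.commutes _

theorem gg_sigma_TT (σ : Om k ≃ₐ[RatFunc k] Om k) : σ (TT k) = TT k := σ.commutes _

theorem gg_TT_ne (c : k) [IsAlgClosed k] : TT k ≠ algebraMap k (Om k) c := by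
  intro h
  obtain ⟨π, hπ⟩ := exists_place (c + 1)
  rw [h] at hπ
  have h1 := π.has_unique hπ (π.has_const c)
  exact one_ne_zero (by linear_combination h1 : (1 : k) = 0)

end

section

variable {k : Type*} [Field k] {A₁ B₁ A₂ B₂ : k} [(Crv A₁ B₁).IsElliptic]
  [(Crv A₂ B₂).IsElliptic]

/-- `x³ + Ax + B` in terms of the roots. -/
theorem gg_factor {F : Type*} [CommRing F] {A B e₁ e₂ e₃ : F} (h : Roots A B e₁ e₂ e₃) (x : F) :
    x ^ 3 + A * x + B = (x - e₁) * (x - e₂) * (x - e₃) := by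
  obtain ⟨hs, hA, hB⟩ := h
  rw [hA, hB]
  linear_combination (x ^ 2) * hs

theorem gg_roots_map {F K : Type*} [CommRing F] [CommRing K] (f : F →+* K) {A B e₁ e₂ e₃ : F}
    (h : Roots A B e₁ e₂ e₃) : Roots (f A) (f B) (f e₁) (f e₂) (f e₃) := by
  obtain ⟨hs, hA, hB⟩ := h
  refine ⟨by rw [← map_add, ← map_add, hs, map_zero], ?_, ?_⟩
  · rw [hA]; simp only [map_add, map_mul]
  · rw [hB]; simp only [map_neg, map_mul]

theorem hyper_rel [IsAlgClosed k] {e₁ e₂ e₃ d₁ d₂ d₃ α β γ : k}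
    (hR₁ : Roots A₁ B₁ e₁ e₂ e₃) (hR₂ : Roots A₂ B₂ d₁ d₂ d₃)
    (hα : α ≠ 0) (h₁ : α * e₁ + β = d₁) (h₂ : α * e₂ + β = d₂) (h₃ : α * γ + β = d₃)
    (hγ : γ ≠ e₃) {xc yc xb yb : k} (hc : (Crv A₁ B₁).Nonsingular xc yc)
    (hb : (Crv A₂ B₂).Nonsingular xb yb) (hx : xb = α * xc + β) (hy : yc ≠ 0) :
    cl (.some xc yc hc : (Crv A₁ B₁).Point) (.some xb yb hb : (Crv A₂ B₂).Point)
      + cl (-(.some xc yc hc : (Crv A₁ B₁).Point)) (-(.some xb yb hb : (Crv A₂ B₂).Point))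
      = cl 0 0 + cl 0 0 := by
  classical
  obtain ⟨ρ, hρ⟩ := IsAlgClosed.exists_pow_nat_eq (α ^ 3) (n := 2) (by norm_num)
  have hρ0 : ρ ≠ 0 := by
    rintro rfl
    apply hα
    have h0 : α ^ 3 = 0 := by rw [← hρ]; ring
    exact pow_eq_zero_iff (by norm_num) |>.1 h0
  -- the point on the first curve
  have hyc : yc ^ 2 = (xc - e₁) * (xc - e₂) * (xc - e₃) := by
    rw [← gg_factor hR₁]; exact (crv_nonsing.1 hc).1
  have hyb : yb ^ 2 = α ^ 3 * ((xc - e₁) * (xc - e₂) * (xc - γ)) := by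
    rw [(crv_nonsing.1 hb).1, gg_factor hR₂, hx, ← h₁, ← h₂, ← h₃]; ring
  have hne : xc - e₃ ≠ 0 := by
    intro h
    apply hy
    rw [h, mul_zero] at hyc
    exact pow_eq_zero_iff (by norm_num) |>.1 hyc
  have hne1 : (xc - e₁) * (xc - e₂) ≠ 0 := by
    intro h
    apply hy
    rw [h, zero_mul] at hyc
    exact pow_eq_zero_iff (by norm_num) |>.1 hyc
  obtain ⟨r, hr⟩ : ∃ r : k, ρ * r * yc = yb := ⟨yb / (ρ * yc), by field_simp⟩
  have hr2 : r ^ 2 * (xc - e₃) = xc - γ := by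
    have h5 : ρ ^ 2 * r ^ 2 * yc ^ 2 = yb ^ 2 := by rw [← hr]; ring
    rw [hρ, hyc, hyb] at h5
    have h6 : (α ^ 3 * ((xc - e₁) * (xc - e₂))) * (r ^ 2 * (xc - e₃)) =
        (α ^ 3 * ((xc - e₁) * (xc - e₂))) * (xc - γ) := by linear_combination h5
    exact mul_left_cancel₀ (mul_ne_zero (pow_ne_zero _ hα) hne1) h6
  have h1r : 1 - r ^ 2 ≠ 0 := by
    intro h
    apply hγ
    have h7 : r ^ 2 = 1 := by linear_combination -h
    rw [h7] at hr2
    linear_combination hr2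
  have hX0 : (γ - e₃ * r ^ 2) / (1 - r ^ 2) = xc := by
    rw [div_eq_iff h1r]; linear_combination hr2
  obtain ⟨π₀, hπ₀⟩ := exists_place r
  obtain ⟨π₁, hπ₁⟩ := exists_place (1 : k)
  obtain ⟨π₂, hπ₂⟩ := exists_place (0 : k)
  set c : k →+* Om k := algebraMap k (Om k) with hcdef
  set T : Om k := TT k with hT
  have hone : ∀ π : Place k, π.Has (1 : Om k) 1 := by
    intro π
    have := π.has_const 1
    rwa [map_one] at this
  have hT1 : (1 - T ^ 2) ≠ 0 := by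
    intro h
    have h8 : π₂.Has (1 - T ^ 2) (1 - 0 ^ 2) := π₂.has_sub (hone π₂) (π₂.has_pow hπ₂ 2)
    have h9 : π₂.Has (1 - T ^ 2) 0 := by
      rw [h]
      have := π₂.has_const 0
      rwa [map_zero] at this
    have := π₂.has_unique h8 h9
    simp at this
  obtain ⟨X, hX⟩ : ∃ X : Om k, X = (c γ - c e₃ * T ^ 2) / (1 - T ^ 2) := ⟨_, rfl⟩
  have hXmul : X * (1 - T ^ 2) = c γ - c e₃ * T ^ 2 := by rw [hX, div_mul_cancel₀ _ hT1]
  have hXγ : X - c γ = T ^ 2 * (X - c e₃) := by linear_combination hXmul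
  obtain ⟨Y, hY⟩ := IsAlgClosed.exists_pow_nat_eq (X ^ 3 + c A₁ * X + c B₁) (n := 2)
    (by norm_num)
  have hY' : Y ^ 2 = (X - c e₁) * (X - c e₂) * (X - c e₃) := by
    rw [hY, gg_factor (gg_roots_map c hR₁)]
  have hρ' : c ρ ^ 2 = c α ^ 3 := by rw [← map_pow, hρ, map_pow]
  have hd₁ : c d₁ = c α * c e₁ + c β := by rw [← h₁]; simp
  have hd₂ : c d₂ = c α * c e₂ + c β := by rw [← h₂]; simp
  have hd₃ : c d₃ = c α * c γ + c β := by rw [← h₃]; simp
  obtain ⟨U, hU⟩ : ∃ U : Om k, U = c α * X + c β := ⟨_, rfl⟩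
  obtain ⟨V, hV⟩ : ∃ V : Om k, V = c ρ * T * Y := ⟨_, rfl⟩
  have hV2 : V ^ 2 = U ^ 3 + c A₂ * U + c B₂ := by
    rw [gg_factor (gg_roots_map c hR₂), hd₁, hd₂, hd₃, hU, hV]
    have e1 : (c ρ * T * Y) ^ 2 = c ρ ^ 2 * T ^ 2 * Y ^ 2 := by ring
    rw [e1, hρ', hY']
    linear_combination (-(c α ^ 3 * (X - c e₁) * (X - c e₂))) * hXγ
  have hP1 : (CrvOm A₁ B₁).Nonsingular X Y := nonsing_of_eq hY
  have hP2 : (CrvOm A₂ B₂).Nonsingular U V := nonsing_of_eq hV2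
  -- specialisation at `π₀`
  have hT2 : π₀.Has (T ^ 2) (r ^ 2) := π₀.has_pow hπ₀ 2
  have hXh : π₀.Has X xc := by
    rw [hX, ← hX0]
    exact π₀.has_div (π₀.has_sub (π₀.has_const γ) (π₀.has_mul (π₀.has_const e₃) hT2))
      (π₀.has_sub (hone π₀) hT2) h1r
  have hYh2 : π₀.Has (Y ^ 2) (yc ^ 2) := by
    rw [hY, (crv_nonsing.1 hc).1]
    exact π₀.has_add (π₀.has_add (π₀.has_pow hXh 3) (π₀.has_mul (π₀.has_const A₁) hXh))
      (π₀.has_const B₁)
  obtain ⟨d, hd, hd2⟩ := π₀.has_sqrt hYh2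
  have hUh : π₀.Has U xb := by
    rw [hU, hx]
    exact π₀.has_add (π₀.has_mul (π₀.has_const α) hXh) (π₀.has_const β)
  have hVh : π₀.Has V (ρ * r * d) := by
    rw [hV]
    exact π₀.has_mul (π₀.has_mul (π₀.has_const ρ) hπ₀) hd
  -- specialisation at `π₁`
  have hnum : π₁.Has (c γ - c e₃ * T ^ 2) (γ - e₃ * 1 ^ 2) :=
    π₁.has_sub (π₁.has_const γ) (π₁.has_mul (π₁.has_const e₃) (π₁.has_pow hπ₁ 2))
  have hden : π₁.Has (1 - T ^ 2) 0 := by
    have := π₁.has_sub (hone π₁) (π₁.has_pow hπ₁ 2)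
    simpa using this
  have hXn : X ∉ π₁.ring := by
    rw [hX]
    refine π₁.div_notMem hden hT1 hnum ?_
    intro h
    apply hγ
    linear_combination h
  have hUn : U ∉ π₁.ring := by
    rw [hU]
    exact π₁.affine_notMem hXn β hα
  -- Galois action
  have hσX : ∀ σ : Om k ≃ₐ[RatFunc k] Om k, σ X = X := by
    intro σ
    rw [hX, map_div₀, map_sub, map_sub, map_mul, map_pow, map_one, gg_sigma_const,
      gg_sigma_const, hT, gg_sigma_TT]
  have hσU : ∀ σ : Om k ≃ₐ[RatFunc k] Om k, σ U = U := by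
    intro σ
    rw [hU, map_add, map_mul, gg_sigma_const, gg_sigma_const, hσX]
  have hσY : ∀ σ : Om k ≃ₐ[RatFunc k] Om k, (σ Y = Y ∧ σ V = V) ∨ (σ Y = -Y ∧ σ V = -V) := by
    intro σ
    have h5 : (σ Y) ^ 2 = Y ^ 2 := by
      rw [← map_pow, hY, map_add, map_add, map_mul, map_pow, hσX, gg_sigma_const,
        gg_sigma_const]
    have h6 : σ V = c ρ * T * σ Y := by
      rw [hV, map_mul, map_mul, gg_sigma_const, hT, gg_sigma_TT]
    rcases sq_eq_sq_iff_eq_or_eq_neg.1 h5 with h7 | h7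
    · left; exact ⟨h7, by rw [h6, h7, hV]⟩
    · right; exact ⟨h7, by rw [h6, h7, hV]; ring⟩
  have hmain := pair_rel π₀ π₁
    ((.some X Y hP1, .some U V hP2) : (CrvOm A₁ B₁).Point × (CrvOm A₂ B₂).Point)
    (.some X (-Y) (gg_neg_nonsing hP1), .some U (-V) (gg_neg_nonsing hP2)) (by
      intro σ
      rcases hσY σ with ⟨h5, h6⟩ | ⟨h5, h6⟩
      · refine ⟨Or.inl (Prod.ext (gg_some_congr _ _ (hσX σ) h5) (gg_some_congr _ _ (hσU σ) h6)),
          Or.inr (Prod.ext (gg_some_congr _ _ (hσX σ) ?_) (gg_some_congr _ _ (hσU σ) ?_))⟩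
        · rw [map_neg, h5]
        · rw [map_neg, h6]
      · refine ⟨Or.inr (Prod.ext (gg_some_congr _ _ (hσX σ) h5) (gg_some_congr _ _ (hσU σ) h6)),
          Or.inl (Prod.ext (gg_some_congr _ _ (hσX σ) ?_) (gg_some_congr _ _ (hσU σ) ?_))⟩
        · rw [map_neg, h5, neg_neg]
        · rw [map_neg, h6, neg_neg])
  simp only at hmain
  rw [π₁.sp_of_notMem _ hXn, π₁.sp_of_notMem _ hUn, π₁.sp_of_notMem _ hXn,
    π₁.sp_of_notMem _ hUn] at hmain
  rw [gg_neg_some, gg_neg_some, ← hmain]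
  rcases sq_eq_sq_iff_eq_or_eq_neg.1 hd2 with h7 | h7
  · have hVh' : π₀.Has V yb := by rw [h7, hr] at hVh; exact hVh
    rw [h7] at hd
    rw [π₀.sp_of_has hP1 hXh hd hc, π₀.sp_of_has hP2 hUh hVh' hb,
      π₀.sp_of_has _ hXh (π₀.has_neg hd) (gg_neg_nonsing hc),
      π₀.sp_of_has _ hUh (π₀.has_neg hVh') (gg_neg_nonsing hb)]
  · have hVh' : π₀.Has V (-yb) := by
      rw [h7] at hVh
      have : ρ * r * -yc = -yb := by rw [← hr]; ring
      rw [this] at hVh; exact hVh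
    rw [h7] at hd
    have hd' : π₀.Has (-Y) yc := by
      have := π₀.has_neg hd
      rwa [neg_neg] at this
    have hVh'' : π₀.Has (-V) yb := by
      have := π₀.has_neg hVh'
      rwa [neg_neg] at this
    rw [π₀.sp_of_has hP1 hXh hd (gg_neg_nonsing hc), π₀.sp_of_has hP2 hUh hVh'
      (gg_neg_nonsing hb), π₀.sp_of_has _ hXh hd' hc, π₀.sp_of_has _ hUh hVh'' hb, add_comm]

end

end AlbCH
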