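import Pool.Agent.Lib.MP_2eeeac_ag.GD1
import Pool.Agent.Lib.MP_2eeeac_ag.GD2
import Pool.Agent.Lib.MP_2eeeac_ag.GF
import Pool.Agent.Lib.MP_2eeeac_ag.GG

/-! Bilinearity of the symbol and the vanishing theorem. -/

namespace AlbCH

open WeierstrassCurve WeierstrassCurve.Affine

section symbols

variable {k : Type*} [Field k] [IsAlgClosed k] [DecidableEq k] {A₁ B₁ A₂ B₂ : k}
  [(Crv A₁ B₁).IsElliptic] [(Crv A₂ B₂).IsElliptic]

theorem cl_add_fst (b : (Crv A₂ B₂).Point) (P Q : (Crv A₁ B₁).Point) :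
    cl (P + Q) b + cl 0 b = cl P b + cl Q b :=
  additive_of_rel (fun P => cl P b) exists_three_ne (line_rel_fst b) (zero_rel_fst b) P Q

theorem cl_add_snd (a : (Crv A₁ B₁).Point) (P Q : (Crv A₂ B₂).Point) :
    cl a (P + Q) + cl a 0 = cl a P + cl a Q :=
  additive_of_rel (fun P => cl a P) exists_three_ne (line_rel_snd a) (zero_rel_snd a) P Q

theorem symb_add_left (a a' : (Crv A₁ B₁).Point) (b : (Crv A₂ B₂).Point) :
    symb (a + a') b = symb a b + symb a' b := by
  have h1 : cl (a + a') b = cl a b + cl a' b - cl 0 b := by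
    rw [← cl_add_fst b a a']; abel
  have h2 : cl (a + a') (0 : (Crv A₂ B₂).Point) = cl a 0 + cl a' 0 - cl 0 0 := by
    rw [← cl_add_fst 0 a a']; abel
  unfold symb
  rw [h1, h2]; abel

theorem symb_add_right (a : (Crv A₁ B₁).Point) (b b' : (Crv A₂ B₂).Point) :
    symb a (b + b') = symb a b + symb a b' := by
  have h1 : cl a (b + b') = cl a b + cl a b' - cl a 0 := by
    rw [← cl_add_snd a b b']; abel
  have h2 : cl (0 : (Crv A₁ B₁).Point) (b + b') = cl 0 b + cl 0 b' - cl 0 0 := by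
    rw [← cl_add_snd 0 b b']; abel
  unfold symb
  rw [h1, h2]; abel

theorem symb_zero_left (b : (Crv A₂ B₂).Point) : symb (0 : (Crv A₁ B₁).Point) b = 0 := by
  unfold symb; abel

/-- The symbol as a homomorphism in the first variable. -/
noncomputable def symbL (b : (Crv A₂ B₂).Point) : (Crv A₁ B₁).Point →+ CH0Q A₁ B₁ A₂ B₂ where
  toFun a := symb a b
  map_zero' := symb_zero_left b
  map_add' a a' := symb_add_left a a' b

theorem eq_zero_of_nsmul {V : Type*} [AddCommGroup V] [Module ℚ V] {n : ℕ} (hn : n ≠ 0) {x : V}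
    (h : n • x = 0) : x = 0 := by
  have h1 : (n : ℚ) • x = 0 := by rw [← h, Nat.cast_smul_eq_nsmul]
  exact (smul_eq_zero.mp h1).resolve_left (by exact_mod_cast hn)

theorem symb_nsmul_left (n : ℕ) (a : (Crv A₁ B₁).Point) (b : (Crv A₂ B₂).Point) :
    symb (n • a) b = n • symb a b :=
  map_nsmul (symbL b) n a

theorem symb_torsion {n : ℕ} (hn : n ≠ 0) {a : (Crv A₁ B₁).Point} (ha : n • a = 0)
    (b : (Crv A₂ B₂).Point) : symb a b = 0 := by
  apply eq_zero_of_nsmul hn
  rw [← symb_nsmul_left, ha, symb_zero_left]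

theorem symb_of_dependent {M M' : ℕ} (hM' : M' ≠ 0) {a c : (Crv A₁ B₁).Point}
    (h : M • c = M' • a) {b : (Crv A₂ B₂).Point} (hc : symb c b = 0) : symb a b = 0 := by
  apply eq_zero_of_nsmul hM'
  rw [← symb_nsmul_left, ← h, symb_nsmul_left, hc, smul_zero]

/-- Vanishing of the symbol of the two components of a point of a hyperelliptic curve. -/
theorem symb_hyper {e₁ e₂ e₃ d₁ d₂ d₃ α β γ : k}
    (hR₁ : Roots A₁ B₁ e₁ e₂ e₃) (hR₂ : Roots A₂ B₂ d₁ d₂ d₃)
    (hα : α ≠ 0) (h₁ : α * e₁ + β = d₁) (h₂ : α * e₂ + β = d₂) (h₃ : α * γ + β = d₃)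
    (hγ : γ ≠ e₃) {xc yc xb yb : k} (hc : (Crv A₁ B₁).Nonsingular xc yc)
    (hb : (Crv A₂ B₂).Nonsingular xb yb) (hx : xb = α * xc + β) :
    symb (.some xc yc hc : (Crv A₁ B₁).Point) (.some xb yb hb : (Crv A₂ B₂).Point) = 0 := by
  by_cases hy : yc = 0
  · apply symb_torsion (n := 2) two_ne_zero
    rw [two_nsmul]
    exact Point.add_self_of_Y_eq (by simp [hy])
  · have h := hyper_rel hR₁ hR₂ hα h₁ h₂ h₃ hγ hc hb hx hy
    set c : (Crv A₁ B₁).Point := .some xc yc hc
    set b : (Crv A₂ B₂).Point := .some xb yb hb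
    have hs : symb c b + symb (-c) (-b) = 0 := by
      unfold symb
      have e1 := zero_rel_fst (0 : (Crv A₂ B₂).Point) c
      have e2 := zero_rel_snd (0 : (Crv A₁ B₁).Point) b
      calc cl c b - cl c 0 - cl 0 b + cl 0 0 + (cl (-c) (-b) - cl (-c) 0 - cl 0 (-b) + cl 0 0)
          = (cl c b + cl (-c) (-b)) - (cl c 0 + cl (-c) 0) - (cl 0 b + cl 0 (-b))
            + (cl 0 0 + cl 0 0) := by abel
        _ = 0 := by rw [h, e1, e2]; abel
    have hn : symb (-c) (-b) = symb c b := by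
      have e1 : symb (-c) (-b) + symb c (-b) = 0 := by
        rw [← symb_add_left, neg_add_cancel, symb_zero_left]
      have e2 : symb c (-b) + symb c b = symb c 0 := by
        rw [← symb_add_right, neg_add_cancel]
      have e3 : symb c (0 : (Crv A₂ B₂).Point) = 0 := by unfold symb; abel
      rw [e3] at e2
      have e4 : symb (-c) (-b) = - symb c (-b) := eq_neg_of_add_eq_zero_left e1
      have e5 : symb c b = - symb c (-b) := eq_neg_of_add_eq_zero_right e2
      rw [e4, e5]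
    rw [hn, ← two_nsmul] at hs
    exact eq_zero_of_nsmul two_ne_zero hs

end symbols

end AlbCH
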