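import Pool.Agent.Lib.MP_2eeeac_ag.Core

/-! The theorem. -/

namespace AlbCH

open WeierstrassCurve WeierstrassCurve.Affine

/-- A greedy construction of an independent sequence. -/
theorem exists_independent_seq {G : Type*} [AddCommGroup G] (P : G → Prop)
    (h : ∀ F : Finset G, ∃ b, P b ∧ ∀ n : ℤ, n ≠ 0 → n • b ∉ AddSubgroup.closure (F : Set G)) :
    ∃ b : ℕ → G, LinearIndependent ℤ b ∧ ∀ i, P (b i) := by
  classical
  choose g hg1 hg2 using h
  let F : ℕ → Finset G := fun n => Nat.rec ∅ (fun _ F => insert (g F) F) n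
  have hF : ∀ n, F (n + 1) = insert (g (F n)) (F n) := fun n => rfl
  have hmono : ∀ i j, i ≤ j → F i ⊆ F j := by
    intro i j hij
    induction j, hij using Nat.le_induction with
    | base => exact subset_rfl
    | succ j _ ih => rw [hF]; exact ih.trans (Finset.subset_insert _ _)
  have hmem : ∀ i j, i < j → g (F i) ∈ F j := by
    intro i j hij
    apply hmono (i + 1) j hij
    rw [hF]; exact Finset.mem_insert_self _ _
  refine ⟨fun n => g (F n), ?_, fun i => hg1 _⟩
  rw [linearIndependent_iff']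
  intro s c hs
  by_contra hne
  push Not at hne
  obtain ⟨i₀, hi₀, hci₀⟩ := hne
  have hne' : (s.filter (fun i => c i ≠ 0)).Nonempty := ⟨i₀, by simp [hi₀, hci₀]⟩
  set m := (s.filter (fun i => c i ≠ 0)).max' hne' with hm
  have hmm := Finset.max'_mem _ hne'
  rw [← hm, Finset.mem_filter] at hmm
  apply hg2 (F m) (c m) hmm.2
  have hsum : c m • g (F m) = - ∑ i ∈ s.erase m, c i • g (F i) := by
    rw [← Finset.add_sum_erase _ _ hmm.1] at hs
    exact eq_neg_of_add_eq_zero_left hs
  rw [hsum]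
  apply AddSubgroup.neg_mem
  apply AddSubgroup.sum_mem
  intro i hi
  rw [Finset.mem_erase] at hi
  by_cases hc : c i = 0
  · rw [hc, zero_smul]; exact AddSubgroup.zero_mem _
  · apply AddSubgroup.zsmul_mem
    apply AddSubgroup.subset_closure
    apply hmem
    refine lt_of_le_of_ne ?_ hi.1
    exact Finset.le_max' _ _ (by simp [hi.2, hc])

open Classical in
/-- **Theorem.** Let `E₁ : y² = x³ + A₁x + B₁` and `E₂ : y² = x³ + A₂x + B₂` be elliptic curves
over `ℚ̄` and `a ∈ E₁(ℚ̄)`. There is an infinite sequence of `ℤ`-linearly independent points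
`b₀, b₁, …` of `E₂(ℚ̄)` such that `{a, bᵢ} = 0` in `CH₀(E₁ × E₂) ⊗ ℚ` for all `i`. -/
theorem kernel_infinite (A₁ B₁ A₂ B₂ : AlgebraicClosure ℚ) [(Crv A₁ B₁).IsElliptic]
    [(Crv A₂ B₂).IsElliptic] (a : (Crv A₁ B₁).Point) :
    ∃ b : ℕ → (Crv A₂ B₂).Point, LinearIndependent ℤ b ∧ ∀ i, symb a (b i) = 0 :=
  exists_independent_seq (fun b => symb a b = 0) (fun F => core a F)

end AlbCH
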