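import Pool.Agent.Lib.MP_2eeeac_ag.Basic

/-!
# The points of the formal group over `ℚ_p` (module NA)
-/

namespace AlbCH

open WeierstrassCurve WeierstrassCurve.Affine
open scoped NNReal

section NA

variable {p : ℕ} [Fact p.Prime]

/-- Hensel: a root `w` of `b w³ + a w² - w + c` with `‖w‖ < 1` -/
theorem NA_hensel (a b c : ℤ_[p]) (hc : ‖c‖ < 1) :
    ∃ w : ℤ_[p], ‖w‖ < 1 ∧ w = c + a * w ^ 2 + b * w ^ 3 := by
  let F : Polynomial ℤ_[p] := Polynomial.C b * Polynomial.X ^ 3 +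
    Polynomial.C a * Polynomial.X ^ 2 - Polynomial.X + Polynomial.C c
  have hd : Polynomial.aeval (0 : ℤ_[p]) (Polynomial.derivative F) = -1 := by
    simp [F]
  have he : Polynomial.aeval (0 : ℤ_[p]) F = c := by
    simp [F]
  have hn : ‖Polynomial.aeval (0 : ℤ_[p]) F‖ <
      ‖Polynomial.aeval (0 : ℤ_[p]) (Polynomial.derivative F)‖ ^ 2 := by
    rw [hd, he, norm_neg, norm_one, one_pow]
    exact hc
  obtain ⟨w, hw, hw1, -⟩ := hensels_lemma hn
  rw [hd, norm_neg, norm_one, sub_zero] at hw1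
  refine ⟨w, hw1, ?_⟩
  have : Polynomial.aeval w F = b * w ^ 3 + a * w ^ 2 - w + c := by
    simp [F]
  rw [this] at hw
  linear_combination -hw

theorem exists_zz_eq {A B : ℚ_[p]} (hA : ‖A‖ ≤ 1) (hB : ‖B‖ ≤ 1) (z : ℚ_[p]) (hz : ‖z‖ < 1) :
    ∃ P : (Crv A B).Point, InG (NormedField.valuation (K := ℚ_[p])) P ∧ zz P = z := by
  by_cases hz0 : z = 0
  · exact ⟨0, trivial, hz0.symm⟩
  have hz3 : ‖z ^ 3‖ < 1 := by
    rw [norm_pow]; exact pow_lt_one₀ (norm_nonneg _) hz (by norm_num)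
  have hAz : ‖A * z‖ ≤ 1 := by
    rw [norm_mul]; exact mul_le_one₀ hA (norm_nonneg _) hz.le
  obtain ⟨w', hw1, hw'⟩ := NA_hensel (⟨A * z, hAz⟩ : ℤ_[p]) ⟨B, hB⟩ ⟨z ^ 3, hz3.le⟩ hz3
  set w : ℚ_[p] := (w' : ℚ_[p]) with hw
  have hw2 : w = z ^ 3 + A * z * w ^ 2 + B * w ^ 3 := by
    have h := congrArg (fun t : ℤ_[p] => (t : ℚ_[p])) hw'
    simp only [PadicInt.coe_add] at h
    exact h
  have hwn : ‖w‖ < 1 := hw1
  have hu : ‖1 - (A * z * w + B * w ^ 2)‖ = 1 := by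
    have h1 : ‖A * z * w + B * w ^ 2‖ < 1 := by
      refine lt_of_le_of_lt (IsUltrametricDist.norm_add_le_max _ _) (max_lt ?_ ?_)
      · rw [norm_mul, norm_mul]
        calc ‖A‖ * ‖z‖ * ‖w‖ ≤ 1 * 1 * ‖w‖ := by gcongr
          _ < 1 := by linarith
      · rw [norm_mul, norm_pow]
        calc ‖B‖ * ‖w‖ ^ 2 ≤ 1 * ‖w‖ ^ 2 := by gcongr
          _ = ‖w‖ ^ 2 := one_mul _
          _ < 1 := pow_lt_one₀ (norm_nonneg _) hwn (by norm_num)
    have h2 : ‖(1 : ℚ_[p])‖ = 1 := norm_one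
    rw [sub_eq_add_neg, IsUltrametricDist.norm_add_eq_max_of_norm_ne_norm]
    · rw [norm_neg, h2]
      exact max_eq_left h1.le
    · rw [norm_neg, h2]
      exact h1.ne'
  have hw3 : w * (1 - (A * z * w + B * w ^ 2)) = z ^ 3 := by linear_combination hw2
  have hw4 : ‖w‖ = ‖z‖ ^ 3 := by
    rw [← norm_pow, ← hw3, norm_mul, hu, mul_one]
  have hzn : 0 < ‖z‖ := norm_pos_iff.2 hz0
  have hw0 : w ≠ 0 := by
    rw [← norm_pos_iff, hw4]
    positivity
  have heq : (1 / w) ^ 2 = (z / w) ^ 3 + A * (z / w) + B := by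
    field_simp
    linear_combination hw2
  have hns : (Crv A B).Nonsingular (z / w) (1 / w) := by
    rw [crv_nonsing]
    refine ⟨heq, Or.inr ?_⟩
    intro h
    have h1 : (2 : ℚ_[p]) * (1 / w) = 0 := by linear_combination h
    rw [mul_eq_zero] at h1
    rcases h1 with h1 | h1
    · exact two_ne_zero h1
    · exact (one_div_ne_zero hw0) h1
  refine ⟨.some _ _ hns, ?_, ?_⟩
  · show 1 < NormedField.valuation (K := ℚ_[p]) (z / w)
    rw [NormedField.valuation_apply]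
    rw [← NNReal.coe_lt_coe, coe_nnnorm, NNReal.coe_one, norm_div, hw4, one_lt_div (by positivity)]
    calc ‖z‖ ^ 3 = ‖z‖ * ‖z‖ ^ 2 := by ring
      _ < ‖z‖ * 1 := by
          gcongr
          exact pow_lt_one₀ (norm_nonneg _) hz (by norm_num)
      _ = ‖z‖ := mul_one _
  · show z / w / (1 / w) = z
    field_simp

end NA

end AlbCH
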