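import Pool.Agent.Lib.MP_2eeeac_ag.FC
import Pool.Agent.Lib.MP_2eeeac_ag.NA

/-!
# Divisibility in the formal group over `ℚ_p` (module NB)
-/

namespace AlbCH

open WeierstrassCurve WeierstrassCurve.Affine Filter Topology
open scoped NNReal

section NB

variable {p : ℕ} [Fact p.Prime] [DecidableEq ℚ_[p]]

theorem NB_sub {A B : ℚ_[p]} (hA : ‖A‖ ≤ 1) (hB : ‖B‖ ≤ 1) {P Q : (Crv A B).Point}
    (hP : InG (NormedField.valuation (K := ℚ_[p])) P)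
    (hQ : InG (NormedField.valuation (K := ℚ_[p])) Q) : ‖zz (P - Q)‖ = ‖zz P - zz Q‖ :=
  congrArg NNReal.toReal (zz_sub (NormedField.valuation (K := ℚ_[p])) hA hB hP hQ)

theorem NB_est {A B : ℚ_[p]} (hA : ‖A‖ ≤ 1) (hB : ‖B‖ ≤ 1) {P : (Crv A B).Point}
    (hP : InG (NormedField.valuation (K := ℚ_[p])) P) (m : ℕ) :
    ‖zz (m • P)‖ ≤ ‖zz P‖ ∧ ‖zz (m • P) - m * zz P‖ ≤ ‖zz P‖ ^ 5 := by
  have h := zz_nsmul_est (NormedField.valuation (K := ℚ_[p])) hA hB hP m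
  exact ⟨h.1, h.2⟩

theorem NB_step {A B : ℚ_[p]} (hA : ‖A‖ ≤ 1) (hB : ‖B‖ ≤ 1) (m : ℕ)
    (hm : (p : ℝ)⁻¹ ≤ ‖(m : ℚ_[p])‖) (R : (Crv A B).Point)
    (hR : InG (NormedField.valuation (K := ℚ_[p])) R) (S : (Crv A B).Point)
    (hS : InG (NormedField.valuation (K := ℚ_[p])) S)
    (hS' : ‖zz (R - m • S)‖ ≤ ‖(m : ℚ_[p])‖ * (p : ℝ)⁻¹) :
    ∃ S' : (Crv A B).Point, InG (NormedField.valuation (K := ℚ_[p])) S' ∧
      ‖zz (R - m • S')‖ ≤ ‖zz (R - m • S)‖ / 2 ∧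
      ‖zz S' - zz S‖ ≤ ‖zz (R - m • S)‖ / ‖(m : ℚ_[p])‖ := by
  have hp2 : (2 : ℝ) ≤ p := by exact_mod_cast (Fact.out : p.Prime).two_le
  have hp0 : (0 : ℝ) < (p : ℝ)⁻¹ := by positivity
  have hp1 : (p : ℝ)⁻¹ ≤ 1 / 2 := by
    rw [inv_eq_one_div]
    exact one_div_le_one_div_of_le (by norm_num) hp2
  have hmn : 0 < ‖(m : ℚ_[p])‖ := lt_of_lt_of_le hp0 hm
  have hm0 : (m : ℚ_[p]) ≠ 0 := norm_pos_iff.1 hmn
  set v := NormedField.valuation (K := ℚ_[p]) with hv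
  set X := R - m • S with hX
  have hXG : InG v X := InG.sub v hA hB hR (InG.nsmul v hA hB hS m)
  have hdz : ‖zz X / m‖ ≤ (p : ℝ)⁻¹ := by
    rw [norm_div, div_le_iff₀ hmn, mul_comm]
    exact hS'
  have hdz1 : ‖zz X / m‖ < 1 := lt_of_le_of_lt hdz (by linarith)
  obtain ⟨D, hD, hDz⟩ := exists_zz_eq hA hB (zz X / m) hdz1
  have hSD : InG v (S + D) := InG.add v hA hB hS hD
  refine ⟨S + D, hSD, ?_, ?_⟩
  · have e1 : R - m • (S + D) = X - m • D := by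
      rw [hX, nsmul_add]; abel
    rw [e1, NB_sub hA hB hXG (InG.nsmul v hA hB hD m)]
    have h1 := (NB_est hA hB hD m).2
    have e2 : (m : ℚ_[p]) * zz D = zz X := by rw [hDz]; field_simp
    rw [e2, norm_sub_rev] at h1
    refine h1.trans ?_
    rw [hDz]
    have h2 : ‖zz X / m‖ ^ 5 = ‖zz X / m‖ ^ 4 * (‖zz X‖ / ‖(m : ℚ_[p])‖) := by
      rw [← norm_div]; ring
    rw [h2]
    have h3 : ‖zz X / m‖ ^ 4 ≤ (p : ℝ)⁻¹ * (p : ℝ)⁻¹ := by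
      calc ‖zz X / m‖ ^ 4 ≤ ((p : ℝ)⁻¹) ^ 4 := by gcongr
        _ = (p : ℝ)⁻¹ * (p : ℝ)⁻¹ * ((p : ℝ)⁻¹) ^ 2 := by ring
        _ ≤ (p : ℝ)⁻¹ * (p : ℝ)⁻¹ * 1 := by
            gcongr
            exact pow_le_one₀ hp0.le (by linarith)
        _ = _ := mul_one _
    calc ‖zz X / m‖ ^ 4 * (‖zz X‖ / ‖(m : ℚ_[p])‖)
        ≤ ((p : ℝ)⁻¹ * (p : ℝ)⁻¹) * (‖zz X‖ / ‖(m : ℚ_[p])‖) := by gcongr
      _ = ‖zz X‖ * (p : ℝ)⁻¹ * ((p : ℝ)⁻¹ / ‖(m : ℚ_[p])‖) := by ring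
      _ ≤ ‖zz X‖ * (1 / 2) * 1 := by
          gcongr
          exact (div_le_one hmn).2 hm
      _ = ‖zz X‖ / 2 := by ring
  · rw [← NB_sub hA hB hSD hS, add_sub_cancel_left, hDz, norm_div]

theorem exists_nsmul_eq {A B : ℚ_[p]} (hA : ‖A‖ ≤ 1) (hB : ‖B‖ ≤ 1) (m : ℕ)
    (hm : (p : ℝ)⁻¹ ≤ ‖(m : ℚ_[p])‖) (R : (Crv A B).Point)
    (hR : InG (NormedField.valuation (K := ℚ_[p])) R)
    (hR' : ‖zz R‖ ≤ ‖(m : ℚ_[p])‖ * (p : ℝ)⁻¹) :
    ∃ S : (Crv A B).Point, InG (NormedField.valuation (K := ℚ_[p])) S ∧ m • S = R := by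
  have hp2 : (2 : ℝ) ≤ p := by exact_mod_cast (Fact.out : p.Prime).two_le
  have hp0 : (0 : ℝ) < (p : ℝ)⁻¹ := by positivity
  have hp1 : (p : ℝ)⁻¹ ≤ 1 / 2 := by
    rw [inv_eq_one_div]
    exact one_div_le_one_div_of_le (by norm_num) hp2
  have hmn : 0 < ‖(m : ℚ_[p])‖ := lt_of_lt_of_le hp0 hm
  set v := NormedField.valuation (K := ℚ_[p]) with hv
  let T : Type := {S : (Crv A B).Point // InG v S ∧
    ‖zz (R - m • S)‖ ≤ ‖(m : ℚ_[p])‖ * (p : ℝ)⁻¹}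
  have hnext : ∀ S : T, ∃ S' : T, ‖zz (R - m • S'.1)‖ ≤ ‖zz (R - m • S.1)‖ / 2 ∧
      ‖zz S'.1 - zz S.1‖ ≤ ‖zz (R - m • S.1)‖ / ‖(m : ℚ_[p])‖ := by
    intro S
    obtain ⟨S', h1, h2, h3⟩ := NB_step hA hB m hm R hR S.1 S.2.1 S.2.2
    refine ⟨⟨S', h1, ?_⟩, h2, h3⟩
    refine h2.trans ((half_le_self (norm_nonneg _)).trans S.2.2)
  choose next hn1 hn2 using hnext
  have h00 : ‖zz (R - m • (0 : (Crv A B).Point))‖ ≤ ‖(m : ℚ_[p])‖ * (p : ℝ)⁻¹ := by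
    rw [nsmul_zero, sub_zero]; exact hR'
  let s0 : T := ⟨0, inG_zero v, h00⟩
  let s : ℕ → T := fun k => next^[k] s0
  have hs : ∀ k, s (k + 1) = next (s k) := fun k => Function.iterate_succ_apply' next k s0
  have hr : ∀ k, ‖zz (R - m • (s k).1)‖ ≤ ‖(m : ℚ_[p])‖ * (1 / 2) ^ k := by
    intro k
    induction k with
    | zero =>
      refine (s 0).2.2.trans ?_
      gcongr
      rw [pow_zero]
      linarith
    | succ k ih =>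
      rw [hs]
      refine (hn1 (s k)).trans ?_
      rw [pow_succ]
      linarith
  have hd : ∀ k, ‖zz (s (k + 1)).1 - zz (s k).1‖ ≤ (1 / 2) ^ k := by
    intro k
    rw [hs]
    refine (hn2 (s k)).trans ?_
    exact (div_le_iff₀' hmn).2 (hr k)
  have hd' : ∀ k, ‖zz (s (k + 1)).1 - zz (s k).1‖ ≤ (p : ℝ)⁻¹ := by
    intro k
    rw [hs]
    refine (hn2 (s k)).trans ?_
    exact (div_le_iff₀' hmn).2 (s k).2.2
  have hb : ∀ k, ‖zz (s k).1‖ ≤ (p : ℝ)⁻¹ := by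
    intro k
    induction k with
    | zero =>
      show ‖zz (0 : (Crv A B).Point)‖ ≤ _
      rw [zz_zero, norm_zero]
      exact hp0.le
    | succ k ih =>
      have e : zz (s (k + 1)).1 = (zz (s (k + 1)).1 - zz (s k).1) + zz (s k).1 := by ring
      rw [e]
      exact (IsUltrametricDist.norm_add_le_max _ _).trans (max_le (hd' k) ih)
  have hcau : CauchySeq fun k => zz (s k).1 := by
    refine cauchySeq_of_le_geometric (1 / 2) 1 (by norm_num) fun k => ?_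
    rw [dist_comm, dist_eq_norm, one_mul]
    exact hd k
  obtain ⟨zl, hzl⟩ := cauchySeq_tendsto_of_complete hcau
  have hzl1 : ‖zl‖ ≤ (p : ℝ)⁻¹ := le_of_tendsto' hzl.norm hb
  obtain ⟨S, hS, hSz⟩ := exists_zz_eq hA hB zl (by linarith)
  refine ⟨S, hS, ?_⟩
  have hRS : InG v (R - m • S) := InG.sub v hA hB hR (InG.nsmul v hA hB hS m)
  have hfin : ∀ k, ‖zz (R - m • S)‖ ≤ ‖(m : ℚ_[p])‖ * (1 / 2) ^ k + ‖zl - zz (s k).1‖ := by
    intro k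
    have hsk := (s k).2.1
    have h1 : InG v (R - m • (s k).1) := InG.sub v hA hB hR (InG.nsmul v hA hB hsk m)
    have h2 : InG v (S - (s k).1) := InG.sub v hA hB hS hsk
    have e1 : R - m • S = (R - m • (s k).1) - m • (S - (s k).1) := by
      rw [nsmul_sub]; abel
    rw [e1, NB_sub hA hB h1 (InG.nsmul v hA hB h2 m)]
    refine (norm_sub_le _ _).trans (add_le_add (hr k) ?_)
    refine (NB_est hA hB h2 m).1.trans ?_
    rw [NB_sub hA hB hS hsk, hSz]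
  have hlim : Tendsto (fun k : ℕ => ‖(m : ℚ_[p])‖ * (1 / 2) ^ k + ‖zl - zz (s k).1‖) atTop
      (𝓝 (‖(m : ℚ_[p])‖ * 0 + ‖zl - zl‖)) := by
    refine Tendsto.add ?_ ?_
    · exact (tendsto_pow_atTop_nhds_zero_of_lt_one (by norm_num) (by norm_num)).const_mul _
    · exact (tendsto_const_nhds.sub hzl).norm
  rw [mul_zero, sub_self, norm_zero, add_zero] at hlim
  have h0 : ‖zz (R - m • S)‖ ≤ 0 := ge_of_tendsto' hlim hfin
  have h1 : zz (R - m • S) = 0 := norm_le_zero_iff.1 h0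
  have h2 := (InG.zz_eq_zero v hA hB hRS).1 h1
  exact (sub_eq_zero.1 h2).symm

end NB

end AlbCH
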