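import Pool.Agent.Lib.MP_2eeeac_ag.Symb

/-! Roots of the cubic polynomials and the affine function. -/

namespace AlbCH

open WeierstrassCurve WeierstrassCurve.Affine

section roots

variable {k : Type*} [Field k]

theorem exists_roots [IsAlgClosed k] (A B : k) : ∃ e₁ e₂ e₃ : k, Roots A B e₁ e₂ e₃ := by
  obtain ⟨e₁, h₁⟩ : ∃ e : k, e ^ 3 + A * e + B = 0 := by
    obtain ⟨e, he⟩ := IsAlgClosed.exists_root (Polynomial.X ^ 3 + Polynomial.C A * Polynomial.X
      + Polynomial.C B : Polynomial k) (by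
        have : (Polynomial.X ^ 3 + Polynomial.C A * Polynomial.X
          + Polynomial.C B : Polynomial k).degree = 3 := by compute_degree!
        rw [this]; norm_num)
    exact ⟨e, by simpa using he⟩
  obtain ⟨e₂, h₂⟩ : ∃ e : k, e ^ 2 + e₁ * e + (e₁ ^ 2 + A) = 0 := by
    obtain ⟨e, he⟩ := IsAlgClosed.exists_root (Polynomial.X ^ 2 + Polynomial.C e₁ * Polynomial.X
      + Polynomial.C (e₁ ^ 2 + A) : Polynomial k) (by
        have : (Polynomial.X ^ 2 + Polynomial.C e₁ * Polynomial.X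
          + Polynomial.C (e₁ ^ 2 + A) : Polynomial k).degree = 2 := by compute_degree!
        rw [this]; norm_num)
    refine ⟨e, ?_⟩
    have := he
    simp only [Polynomial.IsRoot.def, Polynomial.eval_add, Polynomial.eval_pow,
      Polynomial.eval_X, Polynomial.eval_mul, Polynomial.eval_C] at this
    exact this
  refine ⟨e₁, e₂, -e₁ - e₂, ⟨by ring, by linear_combination h₂, ?_⟩⟩
  linear_combination h₁ - e₁ * h₂

theorem Roots.perm213 {A B e₁ e₂ e₃ : k} (h : Roots A B e₁ e₂ e₃) : Roots A B e₂ e₁ e₃ :=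
  ⟨by rw [← h.sum]; ring, by rw [h.hA]; ring, by rw [h.hB]; ring⟩

theorem Roots.perm132 {A B e₁ e₂ e₃ : k} (h : Roots A B e₁ e₂ e₃) : Roots A B e₁ e₃ e₂ :=
  ⟨by rw [← h.sum]; ring, by rw [h.hA]; ring, by rw [h.hB]; ring⟩

theorem Roots.root₃ {A B e₁ e₂ e₃ : k} (h : Roots A B e₁ e₂ e₃) :
    e₃ ^ 3 + A * e₃ + B = 0 := by
  obtain ⟨hs, hA, hB⟩ := h
  subst hA hB
  linear_combination e₃ ^ 2 * hs

theorem Roots.factor {A B e₁ e₂ e₃ : k} (h : Roots A B e₁ e₂ e₃) (x : k) :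
    x ^ 3 + A * x + B = (x - e₁) * (x - e₂) * (x - e₃) := by
  obtain ⟨hs, hA, hB⟩ := h
  subst hA hB
  linear_combination x ^ 2 * hs

/-- The interpolating affine function. -/
theorem exists_affine {e₁ e₂ d₁ d₂ : k} (he : e₁ ≠ e₂) (hd : d₁ ≠ d₂) :
    ∃ α β : k, α ≠ 0 ∧ α * e₁ + β = d₁ ∧ α * e₂ + β = d₂ := by
  have h : e₁ - e₂ ≠ 0 := sub_ne_zero.mpr he
  refine ⟨(d₁ - d₂) / (e₁ - e₂), d₁ - (d₁ - d₂) / (e₁ - e₂) * e₁,
    div_ne_zero (sub_ne_zero.mpr hd) h, by ring, ?_⟩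
  field_simp
  ring

/-- After reordering the roots of the first curve, the affine function which maps the first two
roots to the first two roots of the second curve does not map the third root to the third root. -/
theorem exists_good_order [CharZero k] {A₁ B₁ A₂ B₂ : k} [IsAlgClosed k] [(Crv A₁ B₁).IsElliptic]
    [(Crv A₂ B₂).IsElliptic] :
    ∃ e₁ e₂ e₃ d₁ d₂ d₃ α β γ : k, Roots A₁ B₁ e₁ e₂ e₃ ∧ Roots A₂ B₂ d₁ d₂ d₃ ∧ α ≠ 0 ∧
      α * e₁ + β = d₁ ∧ α * e₂ + β = d₂ ∧ α * γ + β = d₃ ∧ γ ≠ e₃ := by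
  obtain ⟨e₁, e₂, e₃, he⟩ := exists_roots A₁ B₁
  obtain ⟨d₁, d₂, d₃, hd⟩ := exists_roots A₂ B₂
  obtain ⟨he12, he13, he23⟩ := he.ne
  obtain ⟨hd12, hd13, hd23⟩ := hd.ne
  obtain ⟨α, β, hα, h1, h2⟩ := exists_affine he12 hd12
  by_cases h : (d₃ - β) / α = e₃
  swap
  · exact ⟨e₁, e₂, e₃, d₁, d₂, d₃, α, β, (d₃ - β) / α, he, hd, hα, h1, h2,
      by field_simp; ring, h⟩
  have h3 : α * e₃ + β = d₃ := by rw [← h]; field_simp; ring
  -- second ordering
  obtain ⟨α', β', hα', h1', h2'⟩ := exists_affine he12.symm hd12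
  by_cases h' : (d₃ - β') / α' = e₃
  swap
  · exact ⟨e₂, e₁, e₃, d₁, d₂, d₃, α', β', (d₃ - β') / α', he.perm213, hd, hα', h1', h2',
      by field_simp; ring, h'⟩
  have h3' : α' * e₃ + β' = d₃ := by rw [← h']; field_simp; ring
  -- third ordering
  obtain ⟨α'', β'', hα'', h1'', h2''⟩ := exists_affine he13 hd12
  by_cases h'' : (d₃ - β'') / α'' = e₂
  swap
  · exact ⟨e₁, e₃, e₂, d₁, d₂, d₃, α'', β'', (d₃ - β'') / α'', he.perm132, hd, hα'', h1'', h2'',
      by field_simp; ring, h''⟩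
  have h3'' : α'' * e₂ + β'' = d₃ := by rw [← h'']; field_simp; ring
  exfalso
  -- `d₃` is the midpoint of `d₁, d₂`, and `d₁` is the midpoint of `d₂, d₃`
  have hα2 : α' = -α := by
    have : (α' + α) * (e₁ - e₂) = 0 := by linear_combination h2' - h1' + h1 - h2
    have := (mul_eq_zero.mp this).resolve_right (sub_ne_zero.mpr he12)
    linear_combination this
  have e1 : 2 * d₃ = d₁ + d₂ := by
    subst hα2
    linear_combination -h3 - h3' + h1 + h2'
  have hα3 : α'' = -α := by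
    have : (α'' + α) * (e₂ - e₃) = 0 := by linear_combination h3'' - h2'' + h2 - h3
    have := (mul_eq_zero.mp this).resolve_right (sub_ne_zero.mpr he23)
    linear_combination this
  have e2 : 2 * d₁ = d₂ + d₃ := by
    subst hα3
    linear_combination -h1 - h1'' + h3 + h2''
  have h3k : (3 : k) ≠ 0 := by norm_num
  apply hd13
  have : 3 * (d₁ - d₃) = 0 := by linear_combination e2 - e1
  exact sub_eq_zero.mp ((mul_eq_zero.mp this).resolve_left h3k)

end roots

end AlbCH
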